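import Mathlib

/-!
# The Capelli identity and Burnside's theorem
-/

namespace Pool.Agent.Helper56.SKU

open Module Matrix

section burnside

variable {k V : Type*} [Field k] [IsAlgClosed k] [AddCommGroup V] [Module k V]
  [FiniteDimensional k V] [Nontrivial V]

/-- Burnside's theorem. -/
theorem burnside (A : Subalgebra k (Module.End k V))
    (hirr : ∀ W : Submodule k V, (∀ a ∈ A, ∀ w ∈ W, a w ∈ W) → W = ⊥ ∨ W = ⊤)
    (g : Module.End k V) : g ∈ A := by
  classical
  have hsimple : IsSimpleModule A V := by
    rw [isSimpleModule_iff]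
    refine { exists_pair_ne := ⟨⊥, ⊤, bot_ne_top⟩, eq_bot_or_eq_top := ?_ }
    intro N
    rcases hirr (N.restrictScalars k) (fun a ha w hw => N.smul_mem (⟨a, ha⟩ : A) hw) with h | h
    · left
      rwa [Submodule.restrictScalars_eq_bot_iff] at h
    · right
      rwa [Submodule.restrictScalars_eq_top_iff] at h
  have hschur : ∀ f : Module.End A V, ∃ c : k, ∀ v, f v = c • v := by
    intro f
    let f' : Module.End k V := f.restrictScalars k
    obtain ⟨c, hc⟩ := Module.End.exists_eigenvalue f'
    refine ⟨c, ?_⟩
    rcases hirr (Module.End.eigenspace f' c) (by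
      intro a ha w hw
      rw [Module.End.mem_eigenspace_iff] at hw ⊢
      have h1 : f ((⟨a, ha⟩ : A) • w) = (⟨a, ha⟩ : A) • f w := f.map_smul _ _
      have h2 : f' w = f w := rfl
      have h3 : f' (a w) = f ((⟨a, ha⟩ : A) • w) := rfl
      rw [h3, h1, ← h2, hw]
      show a (c • w) = c • a w
      rw [map_smul]) with h | h
    · exact absurd h (Module.End.hasEigenvalue_iff.1 hc)
    · intro v
      have : v ∈ Module.End.eigenspace f' c := by rw [h]; trivial
      exact (Module.End.mem_eigenspace_iff).1 this
  let g' : Module.End (Module.End A V) V :=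
    { toFun := g
      map_add' := g.map_add
      map_smul' := by
        intro f v
        obtain ⟨c, hc⟩ := hschur f
        simp only [Module.End.smul_def, RingHom.id_apply]
        rw [hc, hc, map_smul] }
  let b := Module.finBasis k V
  obtain ⟨r, hr⟩ := jacobson_density (R := A) g' (Finset.univ.image b)
  have : g = (r : Module.End k V) := by
    apply b.ext
    intro i
    exact hr (b i) (Finset.mem_image_of_mem _ (Finset.mem_univ i))
  rw [this]
  exact r.2

end burnside

section cap

/-- The Capelli polynomial. -/
def cap {A : Type*} [Ring A] {n : ℕ} (a y z : Fin n → A) : A :=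
  ∑ π : Equiv.Perm (Fin n), ((Equiv.Perm.sign π : ℤˣ) : ℤ) •
    (List.ofFn fun i => y i * a (π i) * z i).prod

theorem cap_map {A B : Type*} [Ring A] [Ring B] (T : A →+* B) {n : ℕ} (a y z : Fin n → A) :
    T (cap a y z) = cap (fun i => T (a i)) (fun i => T (y i)) (fun i => T (z i)) := by
  unfold cap
  rw [map_sum]
  refine Finset.sum_congr rfl fun π _ => ?_
  rw [map_zsmul, map_list_prod, List.map_ofFn]
  congr 3
  funext i
  simp

theorem cap_eq_zero {K : Type*} [Field K] {A : Type*} [Ring A] [Algebra K A]
    [FiniteDimensional K A] {n : ℕ} (hn : finrank K A < n) (a y z : Fin n → A) :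
    cap a y z = 0 := by
  classical
  let m : MultilinearMap K (fun _ : Fin n => A) A :=
    (MultilinearMap.mkPiAlgebraFin K n A).compLinearMap fun i =>
      (LinearMap.mulLeft K (y i)).comp (LinearMap.mulRight K (z i))
  have h1 : cap a y z = MultilinearMap.alternatization m a := by
    rw [MultilinearMap.alternatization_apply]
    unfold cap
    refine Finset.sum_congr rfl fun π _ => ?_
    rw [MultilinearMap.domDomCongr_apply]
    simp only [m, MultilinearMap.compLinearMap_apply, MultilinearMap.mkPiAlgebraFin_apply,
      LinearMap.comp_apply, LinearMap.mulLeft_apply, LinearMap.mulRight_apply, mul_assoc]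
    rfl
  rw [h1]
  apply AlternatingMap.map_linearDependent
  intro hli
  have h2 := hli.fintype_card_le_finrank
  rw [Fintype.card_fin] at h2
  omega

theorem cap_ne_zero (k : Type*) [Field k] {N n : ℕ} (hn : n ≤ N * N) (hn0 : 0 < n) :
    ∃ a y z : Fin n → Matrix (Fin N) (Fin N) k, cap a y z ≠ 0 := by
  classical
  have hN : 0 < N := by
    rcases Nat.eq_zero_or_pos N with h | h
    · subst h; omega
    · exact h
  let x : Fin N := ⟨0, hN⟩
  obtain ⟨e⟩ : Nonempty (Fin n ↪ Fin N × Fin N) := by
    apply Function.Embedding.nonempty_of_card_le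
    simpa using hn
  refine ⟨fun i => Matrix.single (e i).1 (e i).2 1, fun i => Matrix.single x (e i).1 1,
    fun i => Matrix.single (e i).2 x 1, ?_⟩
  have key : ∀ π : Equiv.Perm (Fin n), π ≠ 1 → (List.ofFn fun i : Fin n =>
      Matrix.single x (e i).1 (1 : k) * Matrix.single (e (π i)).1 (e (π i)).2 1 *
        Matrix.single (e i).2 x 1).prod = 0 := by
    intro π hπ
    obtain ⟨i, hi⟩ : ∃ i, π i ≠ i := by
      by_contra hcon
      push Not at hcon
      exact hπ (Equiv.ext hcon)
    apply List.prod_eq_zero
    rw [List.mem_ofFn]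
    refine ⟨i, ?_⟩
    by_cases h1 : (e i).1 = (e (π i)).1
    · have h2 : (e (π i)).2 ≠ (e i).2 := by
        intro h2
        apply hi
        apply e.injective
        exact Prod.ext h1.symm h2
      rw [h1, Matrix.single_mul_single_same, Matrix.single_mul_single_of_ne _ _ _ _ h2]
    · rw [Matrix.single_mul_single_of_ne _ _ _ _ h1, Matrix.zero_mul]
  have h1 : cap (fun i => Matrix.single (e i).1 (e i).2 1) (fun i => Matrix.single x (e i).1 1)
      (fun i => Matrix.single (e i).2 x 1) = Matrix.single x x (1 : k) := by
    unfold cap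
    rw [Finset.sum_eq_single 1]
    · simp only [Equiv.Perm.sign_one, Units.val_one, one_smul, Equiv.Perm.coe_one, id_eq,
        Matrix.single_mul_single_same, mul_one, List.ofFn_const, List.prod_replicate]
      obtain ⟨n, rfl⟩ : ∃ n', n = n' + 1 := ⟨n - 1, by omega⟩
      clear key hn hn0
      clear e
      induction n with
      | zero => simp
      | succ n ih => rw [pow_succ, ih, Matrix.single_mul_single_same, mul_one]
    · intro π _ hπ
      rw [key π hπ, smul_zero]
    · simp
  rw [h1]
  intro h
  have := congrFun (congrFun h x) x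
  simp at this

end cap

/-- Degrees of representations of a ring embedded in a power of a matrix algebra. -/
theorem finrank_le_of_embed {K k V E : Type*} [Field K] [Field k] [AddCommGroup V] [Module k V]
    [FiniteDimensional k V] [Ring E] {t D : ℕ} (T : E →+* (Fin t → Matrix (Fin D) (Fin D) K))
    (hT : Function.Injective T) (ρ : E →+* Module.End k V) (hρ : Function.Surjective ρ) :
    finrank k V ≤ D := by
  classical
  by_contra hcon
  push Not at hcon
  have h1 : D * D + 1 ≤ finrank k V * finrank k V := by nlinarith
  obtain ⟨a, y, z, hne⟩ := cap_ne_zero k (N := finrank k V) h1 (Nat.succ_pos _)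
  let e := LinearMap.toMatrixAlgEquiv (Module.finBasis k V)
  apply hne
  choose l hl using hρ
  let a' : Fin (D * D + 1) → E := fun i => l (e.symm (a i))
  let y' : Fin (D * D + 1) → E := fun i => l (e.symm (y i))
  let z' : Fin (D * D + 1) → E := fun i => l (e.symm (z i))
  have h2 : cap a' y' z' = 0 := by
    apply hT
    rw [map_zero]
    funext i
    have h3 := cap_map ((Pi.evalRingHom (fun _ : Fin t => Matrix (Fin D) (Fin D) K) i).comp T)
      a' y' z'
    have h4 : (Pi.evalRingHom (fun _ : Fin t => Matrix (Fin D) (Fin D) K) i).comp T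
      (cap a' y' z') = T (cap a' y' z') i := rfl
    rw [← h4, h3]
    refine cap_eq_zero (K := K) ?_ _ _ _
    rw [Module.finrank_matrix, Fintype.card_fin, finrank_self, mul_one]
    exact Nat.lt_succ_self _
  have h5 : cap (fun i => ρ (a' i)) (fun i => ρ (y' i)) (fun i => ρ (z' i)) = 0 := by
    rw [← cap_map, h2, map_zero]
  simp only [a', y', z', hl] at h5
  let e' : Module.End k V →+* Matrix (Fin (finrank k V)) (Fin (finrank k V)) k :=
    e.toRingEquiv.toRingHom
  have h6 := cap_map e' (fun i => e.symm (a i)) (fun i => e.symm (y i))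
    (fun i => e.symm (z i))
  rw [h5, map_zero] at h6
  have h7 : ∀ x, e' (e.symm x) = x := fun x => e.apply_symm_apply x
  simp only [h7] at h6
  exact h6.symm

end Pool.Agent.Helper56.SKU
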