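import Mathlib

/-!
# Spanning by sorted words
-/

namespace Pool.Agent.Helper56.SKU

open Module

section words

variable {X : Type*}

section filt

variable (S : Type*) [CommRing S] {A : Type*} [Ring A] [Algebra S A] (f : X → A)

/-- A word in the generators. -/
def pwf (f : X → A) (l : List X) : A := (l.map f).prod

/-- The span of the words of length less than `d`. -/
def FF (d : ℕ) : Submodule S A := Submodule.span S {u | ∃ l : List X, l.length < d ∧ u = pwf f l}

omit [CommRing S] [Algebra S A] in
theorem pwf_nil : pwf f [] = 1 := rfl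

omit [CommRing S] [Algebra S A] in
theorem pwf_cons (x : X) (l : List X) : pwf f (x :: l) = f x * pwf f l := by
  simp [pwf]

omit [CommRing S] [Algebra S A] in
theorem pwf_append (l l' : List X) : pwf f (l ++ l') = pwf f l * pwf f l' := by
  simp [pwf]

omit [CommRing S] [Algebra S A] in
theorem pwf_replicate (n : ℕ) (x : X) : pwf f (List.replicate n x) = f x ^ n := by
  simp [pwf]

theorem FF_mem {l : List X} {d : ℕ} (h : l.length < d) : pwf f l ∈ FF S f d :=
  Submodule.subset_span ⟨l, h, rfl⟩

theorem FF_mono {d d' : ℕ} (h : d ≤ d') : FF S f d ≤ FF S f d' := by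
  refine Submodule.span_mono ?_
  rintro _ ⟨l, hl, rfl⟩
  exact ⟨l, by omega, rfl⟩

theorem FF_mul {a b : ℕ} {u v : A} (hu : u ∈ FF S f (a + 1)) (hv : v ∈ FF S f b) :
    u * v ∈ FF S f (a + b) := by
  induction hu using Submodule.span_induction with
  | mem u hu =>
    obtain ⟨l, hl, rfl⟩ := hu
    induction hv using Submodule.span_induction with
    | mem v hv =>
      obtain ⟨l', hl', rfl⟩ := hv
      rw [← pwf_append]
      exact FF_mem S f (by simp; omega)
    | zero => rw [mul_zero]; exact Submodule.zero_mem _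
    | add a b _ _ ha hb => rw [mul_add]; exact Submodule.add_mem _ ha hb
    | smul c a _ ha => rw [mul_smul_comm]; exact Submodule.smul_mem _ _ ha
  | zero => rw [zero_mul]; exact Submodule.zero_mem _
  | add a b _ _ ha hb => rw [add_mul]; exact Submodule.add_mem _ ha hb
  | smul c a _ ha => rw [smul_mul_assoc]; exact Submodule.smul_mem _ _ ha

theorem FF_mul' {a b : ℕ} {u v : A} (hu : u ∈ FF S f a) (hv : v ∈ FF S f (b + 1)) :
    u * v ∈ FF S f (a + b) := by
  induction hu using Submodule.span_induction with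
  | mem u hu =>
    obtain ⟨l, hl, rfl⟩ := hu
    induction hv using Submodule.span_induction with
    | mem v hv =>
      obtain ⟨l', hl', rfl⟩ := hv
      rw [← pwf_append]
      exact FF_mem S f (by simp; omega)
    | zero => rw [mul_zero]; exact Submodule.zero_mem _
    | add a b _ _ ha hb => rw [mul_add]; exact Submodule.add_mem _ ha hb
    | smul c a _ ha => rw [mul_smul_comm]; exact Submodule.smul_mem _ _ ha
  | zero => rw [zero_mul]; exact Submodule.zero_mem _
  | add a b _ _ ha hb => rw [add_mul]; exact Submodule.add_mem _ ha hb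
  | smul c a _ ha => rw [smul_mul_assoc]; exact Submodule.smul_mem _ _ ha

variable {S f}

theorem perm_unit (hc : ∀ x y, ∃ s : S, IsUnit s ∧ f x * f y - s • (f y * f x) ∈ FF S f 2)
    {l l' : List X} (h : l.Perm l') :
    ∃ s : S, IsUnit s ∧ pwf f l - s • pwf f l' ∈ FF S f l.length := by
  induction h with
  | nil => exact ⟨1, isUnit_one, by simp⟩
  | cons x h ih =>
    obtain ⟨s, hu, hs⟩ := ih
    refine ⟨s, hu, ?_⟩
    rw [pwf_cons, pwf_cons, ← mul_smul_comm, ← mul_sub, List.length_cons, add_comm]
    refine FF_mul S f (a := 1) ?_ hs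
    have := FF_mem S f (l := [x]) (d := 2) (by simp)
    simpa [pwf] using this
  | swap x y l =>
    obtain ⟨s, hu, hs⟩ := hc y x
    refine ⟨s, hu, ?_⟩
    have e1 : pwf f (y :: x :: l) - s • pwf f (x :: y :: l) =
        (f y * f x - s • (f x * f y)) * pwf f l := by
      rw [pwf_cons, pwf_cons, pwf_cons, pwf_cons, sub_mul, smul_mul_assoc, mul_assoc, mul_assoc]
    rw [e1]
    refine FF_mono S f ?_ (FF_mul' S f hs (FF_mem S f (l := l) (d := l.length + 1) (by omega)))
    simp only [List.length_cons]
    omega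
  | trans h1 _ ih1 ih2 =>
    obtain ⟨s, hu, hs⟩ := ih1
    obtain ⟨s', hu', hs'⟩ := ih2
    refine ⟨s * s', hu.mul hu', ?_⟩
    rw [← h1.length_eq] at hs'
    have := Submodule.add_mem _ hs (Submodule.smul_mem _ s hs')
    convert this using 1
    rw [smul_sub, smul_smul]
    abel

theorem FF_le {N : Submodule S A} {d : ℕ} (h : ∀ l : List X, l.length < d → pwf f l ∈ N) :
    FF S f d ≤ N := by
  refine Submodule.span_le.2 ?_
  rintro _ ⟨l', hl', rfl⟩
  exact h l' hl'

end filt

section sorted

variable [Fintype X]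

/-- The multiset with given multiplicities. -/
def msx (ν : X → ℕ) : Multiset X := ∑ x, Multiset.replicate (ν x) x

theorem count_msx [DecidableEq X] (ν : X → ℕ) (x : X) : (msx ν).count x = ν x := by
  unfold msx
  rw [Multiset.count_sum']
  rw [Finset.sum_eq_single x]
  · simp
  · intro y _ hy
    rw [Multiset.count_replicate, if_neg hy]
  · simp

theorem card_msx (ν : X → ℕ) : Multiset.card (msx ν) = ∑ x, ν x := by
  unfold msx
  rw [Multiset.card_sum]
  simp

variable [LinearOrder X]

/-- The sorted word with given multiplicities. -/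
def sw (ν : X → ℕ) : List X := (msx ν).sort

theorem count_sw (ν : X → ℕ) (x : X) : (sw ν).count x = ν x := by
  have : Multiset.count x (↑(sw ν) : Multiset X) = ν x := by
    unfold sw
    rw [Multiset.sort_eq, count_msx]
  simpa using this

theorem length_sw (ν : X → ℕ) : (sw ν).length = ∑ x, ν x := by
  unfold sw
  rw [Multiset.length_sort, card_msx]

theorem sorted_sw (ν : X → ℕ) : (sw ν).Pairwise (· ≤ ·) := Multiset.pairwise_sort _ _

theorem perm_sw {l : List X} {ν : X → ℕ} (h : ∀ x, l.count x = ν x) : l.Perm (sw ν) := by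
  rw [List.perm_iff_count]
  intro x
  rw [h, count_sw]

theorem eq_sw {l : List X} {ν : X → ℕ} (hl : l.Pairwise (· ≤ ·)) (h : ∀ x, l.count x = ν x) :
    l = sw ν :=
  (perm_sw h).eq_of_pairwise (fun _ _ _ _ h1 h2 => le_antisymm h1 h2) hl (sorted_sw ν)

theorem sw_zero : sw (0 : X → ℕ) = [] := by
  have := length_sw (0 : X → ℕ)
  simpa using this

theorem exists_rep (n : X → ℕ) (l : List X) (x : X) (h : n x ≤ l.count x) :
    ∃ l', l.Perm (List.replicate (n x) x ++ l') := by
  have h2 : Multiset.replicate (n x) x ≤ (l : Multiset X) := by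
    rw [← Multiset.le_count_iff_replicate_le]
    simpa using h
  obtain ⟨m, hm⟩ := Multiset.le_iff_exists_add.1 h2
  refine ⟨m.toList, ?_⟩
  rw [← Multiset.coe_eq_coe, hm, ← Multiset.coe_add, Multiset.coe_toList,
    Multiset.coe_replicate]

/-- Induction principle for words. -/
theorem pwf_ind {S : Type*} [CommRing S] {A : Type*} [Ring A] [Algebra S A] {f : X → A}
    (hc : ∀ x y, ∃ s : S, IsUnit s ∧ f x * f y - s • (f y * f x) ∈ FF S f 2)
    (n : X → ℕ) (N : Submodule S A)
    (h1 : ∀ r : X → ℕ, (∀ x, r x < n x) → pwf f (sw r) ∈ N)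
    (h2 : ∀ x l, (∀ l' : List X, l'.length < n x + l.length → pwf f l' ∈ N) →
      pwf f (List.replicate (n x) x ++ l) ∈ N) (l : List X) : pwf f l ∈ N := by
  have key : ∀ d, ∀ l : List X, l.length = d → pwf f l ∈ N := by
    intro d
    induction d using Nat.strong_induction_on with
    | _ d ih =>
    intro l hl
    have hF : FF S f d ≤ N := FF_le fun l' hl' => ih _ hl' l' rfl
    have hP : ∀ l' : List X, l.Perm l' → pwf f l' ∈ N → pwf f l ∈ N := by
      intro l' hp hl'
      obtain ⟨s, -, hs⟩ := perm_unit hc hp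
      have h4 : pwf f l = (pwf f l - s • pwf f l') + s • pwf f l' := by abel
      rw [h4]
      exact N.add_mem (hF (by rw [← hl]; exact hs)) (N.smul_mem _ hl')
    by_cases hcase : ∃ x, n x ≤ l.count x
    · obtain ⟨x, hx⟩ := hcase
      obtain ⟨l', hp⟩ := exists_rep n l x hx
      refine hP _ hp (h2 x l' fun l'' hl'' => ih l''.length ?_ l'' rfl)
      have := hp.length_eq
      simp at this
      omega
    · push Not at hcase
      exact hP _ (perm_sw fun x => rfl) (h1 _ hcase)
  exact key _ l rfl

/-- Spanning by sorted truncated words. -/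
theorem pwf_span {S : Type*} [CommRing S] {A : Type*} [Ring A] [Algebra S A] {f : X → A}
    (hc : ∀ x y, ∃ s : S, IsUnit s ∧ f x * f y - s • (f y * f x) ∈ FF S f 2)
    (n : X → ℕ) (hn : ∀ x, f x ^ n x ∈ FF S f (n x)) (l : List X) :
    pwf f l ∈ Submodule.span S (Set.range fun r : (x : X) → Fin (n x) =>
      pwf f (sw fun x => (r x : ℕ))) := by
  refine pwf_ind hc n _ ?_ ?_ l
  · intro r hr
    exact Submodule.subset_span ⟨fun x => ⟨r x, hr x⟩, rfl⟩
  · intro x l h
    rw [pwf_append, pwf_replicate]
    exact FF_le h (FF_mul' S f (hn x) (FF_mem S f (l := l) (d := l.length + 1) (by omega)))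

end sorted

end words

end Pool.Agent.Helper56.SKU
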