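import Mathlib
import Pool.Agent.Helper56.SKU.Span
import Pool.Agent.Helper56.SKW.Quot

/-!
# Bases of reduced enveloping algebras
-/

namespace Pool.Agent.Helper56.SKU

open Module Pool.Agent.Helper56.SKW.PBW

/-- Linear independence of a triangular family. -/
theorem tri_indep {K ι κ V : Type*} [Field K] [AddCommGroup V] [Module K V] (deg : κ → ℕ)
    (w : κ → V) (hw : LinearIndependent K w) (u : ι → V) (j : ι → κ) (hj : Function.Injective j)
    (s : ι → K) (hs : ∀ i, s i ≠ 0)
    (h : ∀ i, u i - s i • w (j i) ∈ Submodule.span K (w '' {a | deg a < deg (j i)})) :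
    LinearIndependent K u := by
  classical
  rw [linearIndependent_iff']
  intro S c hsum
  by_contra hcon
  push Not at hcon
  obtain ⟨i1, hi1, hc1⟩ := hcon
  obtain ⟨i0, hi0, hmax⟩ := (S.filter fun i => c i ≠ 0).exists_max_image (fun i => deg (j i))
    ⟨i1, by simp [hi1, hc1]⟩
  rw [Finset.mem_filter] at hi0
  obtain ⟨G, hG⟩ := LinearMap.exists_leftInverse_of_injective (Finsupp.linearCombination K w)
    (LinearMap.ker_eq_bot.2 hw)
  let φ : V →ₗ[K] K := Finsupp.lapply (j i0) ∘ₗ G
  have hφ : ∀ a, φ (w a) = if a = j i0 then 1 else 0 := by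
    intro a
    have h1 : G (w a) = Finsupp.single a 1 := by
      have := LinearMap.congr_fun hG (Finsupp.single a 1)
      simpa using this
    show (G (w a)) (j i0) = _
    rw [h1, Finsupp.single_apply]
  have hlow : ∀ i ∈ S, c i ≠ 0 → φ (u i) = if i = i0 then s i0 else 0 := by
    intro i hi hci
    have h1 : φ (u i - s i • w (j i)) = 0 := by
      have h2 : Submodule.span K (w '' {a | deg a < deg (j i)}) ≤ LinearMap.ker φ := by
        rw [Submodule.span_le]
        rintro _ ⟨a, ha, rfl⟩
        rw [SetLike.mem_coe, LinearMap.mem_ker, hφ, if_neg]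
        rintro rfl
        have h3 := hmax i (by simp [hi, hci])
        have h4 : deg (j i0) < deg (j i) := ha
        omega
      exact LinearMap.mem_ker.1 (h2 (h i))
    rw [map_sub, map_smul, hφ, sub_eq_zero] at h1
    rw [h1]
    by_cases hii : i = i0
    · subst hii; simp
    · rw [if_neg hii, if_neg (fun h5 => hii (hj h5)), smul_zero]
  have h5 := congrArg φ hsum
  rw [map_sum, map_zero, Finset.sum_eq_single i0] at h5
  · rw [map_smul, hlow i0 hi0.1 hi0.2, if_pos rfl, smul_eq_mul, mul_eq_zero] at h5
    exact h5.elim hi0.2 (hs i0)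
  · intro i hi hii
    rw [map_smul]
    by_cases hci : c i = 0
    · rw [hci, zero_smul]
    · rw [hlow i hi hci, if_neg hii, smul_zero]
  · intro h6
    exact absurd hi0.1 h6

universe u v

variable {k : Type u} [Field k] {X : Type v} [Fintype X] [LinearOrder X] {L : Type*}
  [AddCommGroup L] [Module k L] (g : Alg k X L)

/-- The generators. -/
noncomputable def gen (x : X) : Env g := tau g (g.e x)

omit [Fintype X] in
theorem pwf_gen (l : List X) : pwf (gen g) l = mkU g (W k l) := pw_eq g l

omit [Fintype X] in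
theorem tau_mem2 (a : L) : tau g a ∈ FF k (gen g) 2 := tau_mem g (tau g) a

omit [Fintype X] in
theorem gen_comm (x y : X) : ∃ s : k, IsUnit s ∧
    gen g x * gen g y - s • (gen g y * gen g x) ∈ FF k (gen g) 2 := by
  refine ⟨eps k g.par x y, ?_, ?_⟩
  · unfold eps
    split_ifs
    · exact isUnit_one.neg
    · exact isUnit_one
  · have h := tau_comm g x y
    unfold gen
    rw [h, add_sub_cancel_left]
    exact tau_mem2 g _

omit [Fintype X] in
theorem gen_odd (h2 : (2 : k) ≠ 0) (x : X) (hx : g.par x = true) :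
    gen g x ^ 2 ∈ FF k (gen g) 2 :=
  central_odd g (tau g) (tau_comm g) h2 x hx

/-- Allowed exponents. -/
def Allowed (ν : X → ℕ) : Prop := ∀ x, g.par x = true → ν x ≤ 1

/-- **PBW theorem**: independence. -/
theorem pbw_indep (h2 : (2 : k) ≠ 0) :
    LinearIndependent k (fun ν : {ν : X → ℕ // Allowed g ν} => pwf (gen g) (sw ν.1)) := by
  classical
  rw [linearIndependent_iff']
  intro S c hsum i hi
  let F : FA k X := ∑ ν ∈ S, c ν • W k (sw ν.1)
  have hF : F ∈ g.J := by
    rw [← mkU_eq_zero, map_sum]
    rw [← hsum]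
    refine Finset.sum_congr rfl fun ν _ => ?_
    rw [map_smul, pwf_gen]
  have hinj : ∀ ν ν' : {ν : X → ℕ // Allowed g ν}, sw ν.1 = sw ν'.1 → ν = ν' := by
    intro ν ν' h
    apply Subtype.ext
    funext x
    rw [← count_sw ν.1 x, h, count_sw]
  have hco : ∀ ν ∈ S, coef (sw ν.1) F = c ν := by
    intro ν hν
    show coef (sw ν.1) (∑ ν' ∈ S, c ν' • W k (sw ν'.1)) = c ν
    rw [map_sum, Finset.sum_eq_single ν]
    · rw [map_smul, coef_W_self, smul_eq_mul, mul_one]
    · intro ν' _ hne
      rw [map_smul, coef_W_ne (fun h => hne (hinj _ _ h)), smul_zero]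
    · intro h; exact absurd hν h
  have hF0 : F = 0 := by
    rcases g.IS_le _ hF with h | ⟨w, -, h⟩
    · exact h
    · refine g.main_aux h2 w F h ?_
      intro u x y v hbad
      show coef (u ++ x :: y :: v) (∑ ν' ∈ S, c ν' • W k (sw ν'.1)) = 0
      rw [map_sum]
      refine Finset.sum_eq_zero fun ν _ => ?_
      rw [map_smul, coef_W_ne, smul_zero]
      intro heq
      have h3 := sorted_sw ν.1
      rw [heq, List.pairwise_append] at h3
      have h4 : x ≤ y := by
        have h5 := h3.2.1
        rw [List.pairwise_cons] at h5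
        exact h5.1 y (by simp)
      rcases hbad with h6 | ⟨rfl, h6⟩
      · exact absurd h6 (not_lt.2 h4)
      · have h7 := ν.2 x h6
        rw [← count_sw ν.1 x, heq] at h7
        simp at h7
        omega
  rw [← hco i hi, hF0, map_zero]

theorem FF_low (h2 : (2 : k) ≠ 0) (d : ℕ) : FF k (gen g) d ≤ Submodule.span k
    ((fun ν : {ν : X → ℕ // Allowed g ν} => pwf (gen g) (sw ν.1)) '' {ν | ∑ x, ν.1 x < d}) := by
  classical
  induction d using Nat.strong_induction_on with
  | _ d ih =>
  refine FF_le fun l hl => ?_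
  have hF : FF k (gen g) l.length ≤ Submodule.span k
    ((fun ν : {ν : X → ℕ // Allowed g ν} => pwf (gen g) (sw ν.1)) '' {ν | ∑ x, ν.1 x < d}) := by
    refine (ih _ hl).trans (Submodule.span_mono (Set.image_mono fun ν hν => ?_))
    exact lt_trans hν hl
  have hP : ∀ l' : List X, l.Perm l' → pwf (gen g) l' ∈ Submodule.span k
      ((fun ν : {ν : X → ℕ // Allowed g ν} => pwf (gen g) (sw ν.1)) '' {ν | ∑ x, ν.1 x < d}) →
      pwf (gen g) l ∈ Submodule.span k
      ((fun ν : {ν : X → ℕ // Allowed g ν} => pwf (gen g) (sw ν.1)) '' {ν | ∑ x, ν.1 x < d}) := by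
    intro l' hp hl'
    obtain ⟨s, -, hs⟩ := perm_unit (gen_comm g) hp
    have h4 : pwf (gen g) l = (pwf (gen g) l - s • pwf (gen g) l') + s • pwf (gen g) l' := by abel
    rw [h4]
    exact Submodule.add_mem _ (hF hs) (Submodule.smul_mem _ _ hl')
  by_cases hall : Allowed g (fun x => l.count x)
  · refine hP _ (perm_sw fun x => rfl) (Submodule.subset_span ⟨⟨_, hall⟩, ?_, rfl⟩)
    have h5 := (perm_sw (l := l) (ν := fun x => l.count x) fun x => rfl).length_eq
    rw [length_sw] at h5
    show ∑ x, l.count x < d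
    rw [← h5]
    exact hl
  · unfold Allowed at hall
    push Not at hall
    obtain ⟨x, hx, hx2⟩ := hall
    obtain ⟨l', hp⟩ := exists_rep (fun _ => 2) l x hx2
    refine hP _ hp (hF ?_)
    rw [pwf_append, pwf_replicate, hp.length_eq, List.length_append, List.length_replicate]
    exact FF_mul' k _ (gen_odd g h2 x hx) (FF_mem k _ (by omega))

section trunc

variable (n : X → ℕ) (D : X → Subalgebra.center k (Env g))

/-- The elements of the triangular family. -/
noncomputable def uu (q r : X → ℕ) : Env g :=
  ((∏ x, D x ^ q x : Subalgebra.center k (Env g)) : Env g) * pwf (gen g) (sw r)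

theorem uu_add (q r : X → ℕ) (x : X) : uu g D (q + Pi.single x 1) r = (D x : Env g) * uu g D q r := by
  classical
  unfold uu
  rw [← mul_assoc]
  congr 1
  rw [← Subalgebra.coe_mul]
  congr 1
  simp only [Pi.add_apply, pow_add, Finset.prod_mul_distrib]
  rw [mul_comm]
  congr 1
  rw [Finset.prod_eq_single x]
  · simp
  · intro y _ hy
    rw [Pi.single_eq_of_ne hy, pow_zero]
  · simp

theorem uu_zero (r : X → ℕ) : uu g D 0 r = pwf (gen g) (sw r) := by
  unfold uu
  simp

/-- Index type. -/
def Idx : Type _ := {qr : (X → ℕ) × (X → ℕ) //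
  (∀ x, qr.2 x < n x) ∧ ∀ x, g.par x = true → qr.1 x = 0}

variable {n D}

theorem uu_lead (hD : ∀ x, g.par x = false → gen g x ^ n x - (D x : Env g) ∈ FF k (gen g) (n x))
    (r : X → ℕ) : ∀ N : ℕ, ∀ q : X → ℕ, ∑ x, q x = N → (∀ x, g.par x = true → q x = 0) →
    ∃ l : List X, (∀ x, l.count x = n x * q x + r x) ∧
      uu g D q r - pwf (gen g) l ∈ FF k (gen g) l.length := by
  classical
  intro N
  induction N with
  | zero =>
    intro q hq _
    have hq0 : q = 0 := by
      funext x
      have := (Finset.sum_eq_zero_iff.1 hq) x (Finset.mem_univ x)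
      simpa using this
    subst hq0
    refine ⟨sw r, fun x => by rw [count_sw]; simp, ?_⟩
    rw [uu_zero, sub_self]
    exact Submodule.zero_mem _
  | succ N ih =>
    intro q hq hodd
    obtain ⟨x, hx⟩ : ∃ x, q x ≠ 0 := by
      by_contra hcon
      push Not at hcon
      rw [Finset.sum_eq_zero fun x _ => hcon x] at hq
      omega
    have hpx : g.par x = false := by
      by_contra h
      exact hx (hodd x (by simpa using h))
    let q' : X → ℕ := fun y => if y = x then q x - 1 else q y
    have hqq : q = q' + Pi.single x 1 := by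
      funext y
      by_cases hy : y = x
      · subst hy
        simp only [q', Pi.add_apply, Pi.single_eq_same, if_true]
        omega
      · simp [q', hy]
    have hsum : ∑ y, q' y = N := by
      have h1 : ∑ y, q y = ∑ y, q' y + ∑ y, (Pi.single x 1 : X → ℕ) y := by
        rw [← Finset.sum_add_distrib]
        exact Finset.sum_congr rfl fun y _ => congrFun hqq y
      rw [hq] at h1
      simp at h1
      omega
    obtain ⟨l, hl, hlead⟩ := ih q' hsum (by
      intro y hy
      have h3 := hodd y hy
      by_cases hyx : y = x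
      · subst hyx; rw [hpx] at hy; exact absurd hy (by simp)
      · simp [q', hyx, h3])
    refine ⟨List.replicate (n x) x ++ l, ?_, ?_⟩
    · intro y
      rw [List.count_append, hl, hqq]
      by_cases hyx : y = x
      · subst hyx
        simp only [List.count_replicate_self, Pi.add_apply, Pi.single_eq_same]
        ring
      · rw [List.count_replicate]
        simp [hyx, Ne.symm hyx]
    · rw [hqq, uu_add, pwf_append, pwf_replicate, List.length_append, List.length_replicate]
      have e1 : (D x : Env g) * uu g D q' r - gen g x ^ n x * pwf (gen g) l =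
          (D x : Env g) * (uu g D q' r - pwf (gen g) l) -
          (gen g x ^ n x - (D x : Env g)) * pwf (gen g) l := by
        rw [mul_sub, sub_mul]
        abel
      rw [e1]
      have hDm : (D x : Env g) ∈ FF k (gen g) (n x + 1) := by
        have h1 : (D x : Env g) = gen g x ^ n x - (gen g x ^ n x - (D x : Env g)) := by abel
        rw [h1]
        refine Submodule.sub_mem _ ?_ (FF_mono k _ (by omega) (hD x hpx))
        rw [← pwf_replicate]
        exact FF_mem k _ (by simp)
      refine Submodule.sub_mem _ (FF_mul k _ hDm hlead) ?_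
      exact FF_mul' k _ (hD x hpx) (FF_mem k _ (by omega))

/-- The combined exponent. -/
def comb (i : Idx g n) : {ν : X → ℕ // Allowed g ν} :=
  ⟨fun x => if g.par x then min 1 (i.1.2 x) else n x * i.1.1 x + i.1.2 x, by
    intro x hx
    simp only [hx, if_true]
    exact min_le_left _ _⟩

theorem comb_eq (hodd : ∀ x, g.par x = true → n x = 2) (i : Idx g n) (x : X) :
    (comb g i).1 x = n x * i.1.1 x + i.1.2 x := by
  unfold comb
  by_cases hx : g.par x = true
  · have h1 := i.2.2 x hx
    have h2 := i.2.1 x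
    rw [hodd x hx] at h2
    simp only [hx, if_true, h1]
    omega
  · simp only [hx]
    rfl

theorem comb_inj (hodd : ∀ x, g.par x = true → n x = 2) :
    Function.Injective (comb g (n := n)) := by
  rintro ⟨⟨q, r⟩, h1, h2⟩ ⟨⟨q', r'⟩, h1', h2'⟩ h
  have h3 : ∀ x, n x * q x + r x = n x * q' x + r' x := by
    intro x
    have := congrFun (congrArg Subtype.val h) x
    have e1 := comb_eq g hodd (⟨(q, r), h1, h2⟩ : Idx g n) x
    have e2 := comb_eq g hodd (⟨(q', r'), h1', h2'⟩ : Idx g n) x
    exact e1.symm.trans (this.trans e2)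
  have h4 : ∀ x, q x = q' x ∧ r x = r' x := by
    intro x
    have h5 := h1 x
    have h6 := h1' x
    simp only at h5 h6
    have h7 : 0 < n x := by omega
    have h8 := congrArg (fun m => m / n x) (h3 x)
    have h9 := congrArg (fun m => m % n x) (h3 x)
    simp only [Nat.mul_add_div h7, Nat.div_eq_of_lt h5, Nat.div_eq_of_lt h6, add_zero,
      Nat.mul_add_mod, Nat.mod_eq_of_lt h5, Nat.mod_eq_of_lt h6] at h8 h9
    exact ⟨h8, h9⟩
  apply Subtype.ext
  apply Prod.ext
  · funext x; exact (h4 x).1
  · funext x; exact (h4 x).2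

theorem uu_indep (h2 : (2 : k) ≠ 0) (hodd : ∀ x, g.par x = true → n x = 2)
    (hD : ∀ x, g.par x = false → gen g x ^ n x - (D x : Env g) ∈ FF k (gen g) (n x)) :
    LinearIndependent k (fun i : Idx g n => uu g D i.1.1 i.1.2) := by
  classical
  have h1 : ∀ i : Idx g n, ∃ s : k, s ≠ 0 ∧
      uu g D i.1.1 i.1.2 - s • pwf (gen g) (sw (comb g i).1) ∈
      Submodule.span k ((fun ν : {ν : X → ℕ // Allowed g ν} => pwf (gen g) (sw ν.1)) ''
        {ν | ∑ x, ν.1 x < ∑ x, (comb g i).1 x}) := by
    intro i
    obtain ⟨l, hl, hlead⟩ := uu_lead g hD i.1.2 _ i.1.1 rfl i.2.2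
    have hp : l.Perm (sw (comb g i).1) := perm_sw fun x => by rw [comb_eq g hodd, hl]
    obtain ⟨s, hs, hperm⟩ := perm_unit (gen_comm g) hp
    refine ⟨s, hs.ne_zero, ?_⟩
    have h3 := FF_low g h2 _ (Submodule.add_mem _ hlead hperm)
    rw [hp.length_eq, length_sw] at h3
    convert h3 using 1
    abel
  choose s hs h3 using h1
  exact tri_indep (fun ν : {ν : X → ℕ // Allowed g ν} => ∑ x, ν.1 x) _ (pbw_indep g h2) _
    (comb g) (comb_inj g hodd) s hs h3

theorem uu_stable (x : X) (hx : g.par x = false) (v : Env g)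
    (hv : v ∈ Submodule.span k (Set.range fun i : Idx g n => uu g D i.1.1 i.1.2)) :
    (D x : Env g) * v ∈ Submodule.span k (Set.range fun i : Idx g n => uu g D i.1.1 i.1.2) := by
  induction hv using Submodule.span_induction with
  | mem z hz =>
    obtain ⟨i, rfl⟩ := hz
    refine Submodule.subset_span ⟨⟨(i.1.1 + Pi.single x 1, i.1.2), i.2.1, ?_⟩, ?_⟩
    · intro y hy
      have h4 := i.2.2 y hy
      have h5 : y ≠ x := by rintro rfl; rw [hx] at hy; exact absurd hy (by simp)
      simp [h4, h5]
    · exact uu_add g D _ _ x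
  | zero => rw [mul_zero]; exact Submodule.zero_mem _
  | add a b _ _ ha hb => rw [mul_add]; exact Submodule.add_mem _ ha hb
  | smul c a _ ha => rw [mul_smul_comm]; exact Submodule.smul_mem _ _ ha

theorem uu_span (hn1 : ∀ x, 1 ≤ n x) (h2 : (2 : k) ≠ 0) (hodd : ∀ x, g.par x = true → n x = 2)
    (hD : ∀ x, g.par x = false → gen g x ^ n x - (D x : Env g) ∈ FF k (gen g) (n x))
    (v : Env g) : v ∈ Submodule.span k (Set.range fun i : Idx g n => uu g D i.1.1 i.1.2) := by
  classical
  have h1 : ∀ l, pwf (gen g) l ∈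
      Submodule.span k (Set.range fun i : Idx g n => uu g D i.1.1 i.1.2) := by
    refine fun l => pwf_ind (gen_comm g) n _ ?_ ?_ l
    · intro r hr
      refine Submodule.subset_span ⟨⟨(0, r), hr, fun _ _ => rfl⟩, ?_⟩
      exact uu_zero g D r
    · intro x l h
      have hF : FF k (gen g) (n x + l.length) ≤
          Submodule.span k (Set.range fun i : Idx g n => uu g D i.1.1 i.1.2) := FF_le h
      rw [pwf_append, pwf_replicate]
      by_cases hx : g.par x = true
      · rw [hodd x hx] at hF ⊢
        exact hF (FF_mul' k _ (gen_odd g h2 x hx) (FF_mem k _ (by omega)))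
      · have hx' : g.par x = false := by simpa using hx
        have e1 : gen g x ^ n x * pwf (gen g) l =
            (gen g x ^ n x - (D x : Env g)) * pwf (gen g) l + (D x : Env g) * pwf (gen g) l := by
          rw [sub_mul]; abel
        rw [e1]
        refine Submodule.add_mem _ (hF (FF_mul' k _ (hD x hx') (FF_mem k _ (by omega)))) ?_
        have hn := hn1 x
        have h3 : pwf (gen g) l ∈
            Submodule.span k (Set.range fun i : Idx g n => uu g D i.1.1 i.1.2) :=
          h l (by omega)
        exact uu_stable g x hx' _ h3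
  have h4 := env_gen g
  have h5 : (⊤ : Submodule k (Env g)) ≤
      Submodule.span k (Set.range fun i : Idx g n => uu g D i.1.1 i.1.2) := by
    rw [← h4, Submodule.span_le]
    rintro _ ⟨l, rfl⟩
    exact h1 l
  exact h5 trivial

/-- The left ideal of the central elements. -/
noncomputable def DI : Submodule (Env g) (Env g) :=
  Submodule.span (Env g) {v | ∃ x, g.par x = false ∧ v = (D x : Env g)}

theorem D_mul_mem (x : X) (hx : g.par x = false) (v : Env g) : (D x : Env g) * v ∈ DI g (D := D) := by
  have h1 : (D x : Env g) * v = v * (D x : Env g) :=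
    ((Subalgebra.mem_center_iff.1 (D x).2) v).symm
  rw [h1, ← smul_eq_mul]
  exact Submodule.smul_mem _ _ (Submodule.subset_span ⟨x, hx, rfl⟩)

theorem D_mul_span (hn1 : ∀ x, 1 ≤ n x) (h2 : (2 : k) ≠ 0)
    (hodd : ∀ x, g.par x = true → n x = 2)
    (hD : ∀ x, g.par x = false → gen g x ^ n x - (D x : Env g) ∈ FF k (gen g) (n x))
    (x : X) (hx : g.par x = false) (v : Env g) : (D x : Env g) * v ∈ Submodule.span k
      ((fun i : Idx g n => uu g D i.1.1 i.1.2) '' {i | i.1.1 ≠ 0}) := by
  have hv := uu_span g (D := D) hn1 h2 hodd hD v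
  induction hv using Submodule.span_induction with
  | mem z hz =>
    obtain ⟨i, rfl⟩ := hz
    refine Submodule.subset_span ⟨⟨(i.1.1 + Pi.single x 1, i.1.2), i.2.1, ?_⟩, ?_, ?_⟩
    · intro y hy
      have h4 := i.2.2 y hy
      have h5 : y ≠ x := by rintro rfl; rw [hx] at hy; exact absurd hy (by simp)
      simp [h4, h5]
    · intro h
      have h6 := congrFun h x
      simp at h6
    · exact uu_add g D _ _ x
  | zero => rw [mul_zero]; exact Submodule.zero_mem _
  | add a b _ _ ha hb => rw [mul_add]; exact Submodule.add_mem _ ha hb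
  | smul c a _ ha => rw [mul_smul_comm]; exact Submodule.smul_mem _ _ ha

theorem DI_le (hn1 : ∀ x, 1 ≤ n x) (h2 : (2 : k) ≠ 0) (hodd : ∀ x, g.par x = true → n x = 2)
    (hD : ∀ x, g.par x = false → gen g x ^ n x - (D x : Env g) ∈ FF k (gen g) (n x))
    {v : Env g} (hv : v ∈ DI g (D := D)) : v ∈ Submodule.span k
      ((fun i : Idx g n => uu g D i.1.1 i.1.2) '' {i | i.1.1 ≠ 0}) := by
  have hsm : ∀ c : Env g, ∀ a ∈ Submodule.span k {w | ∃ x v, g.par x = false ∧
      w = (D x : Env g) * v}, c * a ∈ Submodule.span k {w | ∃ x v, g.par x = false ∧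
      w = (D x : Env g) * v} := by
    intro c a ha
    induction ha using Submodule.span_induction with
    | mem v hv =>
      obtain ⟨x, v, hx, rfl⟩ := hv
      refine Submodule.subset_span ⟨x, c * v, hx, ?_⟩
      rw [← mul_assoc, (Subalgebra.mem_center_iff.1 (D x).2) c, mul_assoc]
    | zero => rw [mul_zero]; exact Submodule.zero_mem _
    | add a b _ _ ha hb => rw [mul_add]; exact Submodule.add_mem _ ha hb
    | smul c a _ ha => rw [mul_smul_comm]; exact Submodule.smul_mem _ _ ha
  have h1 : v ∈ Submodule.span k {w | ∃ x v, g.par x = false ∧ w = (D x : Env g) * v} := by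
    unfold DI at hv
    induction hv using Submodule.span_induction with
    | mem v hv =>
      obtain ⟨x, hx, rfl⟩ := hv
      exact Submodule.subset_span ⟨x, 1, hx, (mul_one _).symm⟩
    | zero => exact Submodule.zero_mem _
    | add a b _ _ ha hb => exact Submodule.add_mem _ ha hb
    | smul c a _ ha => exact hsm c a ha
  refine (Submodule.span_le.2 ?_) h1
  rintro _ ⟨x, v, hx, rfl⟩
  exact D_mul_span g hn1 h2 hodd hD x hx v

/-- **Reduced enveloping algebras have the expected dimension.** -/
theorem exists_reduced (hn1 : ∀ x, 1 ≤ n x) (h2 : (2 : k) ≠ 0)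
    (hodd : ∀ x, g.par x = true → n x = 2)
    (hD : ∀ x, g.par x = false → gen g x ^ n x - (D x : Env g) ∈ FF k (gen g) (n x)) :
    ∃ (M : Type (max u v)) (_ : AddCommGroup M) (_ : Module k M) (ρ : Env g →ₐ[k] Module.End k M)
      (m0 : M), Module.Finite k M ∧ finrank k M = ∏ x, n x ∧
        (∀ x, g.par x = false → ρ (D x : Env g) = 0) ∧ ∀ m, ∃ u, ρ u m0 = m := by
  classical
  let I := DI g (D := D)
  let M := Env g ⧸ I
  let v : ((x : X) → Fin (n x)) → M := fun r => I.mkQ (pwf (gen g) (sw fun x => (r x : ℕ)))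
  let em : ((x : X) → Fin (n x)) → Idx g n := fun r =>
    ⟨(0, fun x => (r x : ℕ)), fun x => (r x).2, fun _ _ => rfl⟩
  have hem : Function.Injective em := by
    intro r r' h
    funext x
    have := congrFun (congrArg (fun i : Idx g n => i.1.2) h) x
    exact Fin.ext this
  have hind := uu_indep g (D := D) h2 hodd hD
  have hli : LinearIndependent k v := by
    have h3 : LinearIndependent k (fun r => uu g D (em r).1.1 (em r).1.2) := hind.comp em hem
    have h4 := h3.map (f := (I.mkQ).restrictScalars k) (by
      have h5 := hind.disjoint_span_image (s := Set.range em) (t := {i | i.1.1 ≠ 0}) (by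
        rw [Set.disjoint_left]
        rintro _ ⟨r, rfl⟩ h6
        exact h6 rfl)
      refine h5.mono ?_ ?_
      · refine Submodule.span_mono ?_
        rintro _ ⟨r, rfl⟩
        exact ⟨em r, ⟨r, rfl⟩, rfl⟩
      · intro z hz
        refine DI_le g (D := D) hn1 h2 hodd hD ?_
        have h6 : I.mkQ z = 0 := hz
        simpa using h6)
    have h5 : v = ((I.mkQ).restrictScalars k) ∘ fun r => uu g D (em r).1.1 (em r).1.2 := by
      funext r
      show I.mkQ (pwf (gen g) (sw fun x => (r x : ℕ))) = I.mkQ (uu g D 0 fun x => (r x : ℕ))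
      rw [uu_zero]
    rw [h5]
    exact h4
  have hsp : ⊤ ≤ Submodule.span k (Set.range v) := by
    intro m _
    obtain ⟨z, rfl⟩ := I.mkQ_surjective m
    have h3 := uu_span g (D := D) hn1 h2 hodd hD z
    induction h3 using Submodule.span_induction with
    | mem z hz =>
      obtain ⟨i, rfl⟩ := hz
      by_cases hq : i.1.1 = 0
      · refine Submodule.subset_span ⟨fun x => ⟨i.1.2 x, i.2.1 x⟩, ?_⟩
        show I.mkQ (pwf (gen g) (sw i.1.2)) = I.mkQ (uu g D i.1.1 i.1.2)
        rw [hq, uu_zero]
      · obtain ⟨x, hx⟩ : ∃ x, i.1.1 x ≠ 0 := by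
          by_contra hcon
          push Not at hcon
          exact hq (funext hcon)
        have hpx : g.par x = false := by
          by_contra h
          exact hx (i.2.2 x (by simpa using h))
        let q' : X → ℕ := fun y => if y = x then i.1.1 x - 1 else i.1.1 y
        have hqq : i.1.1 = q' + Pi.single x 1 := by
          funext y
          by_cases hy : y = x
          · subst hy
            simp only [q', Pi.add_apply, Pi.single_eq_same, if_true]
            omega
          · simp [q', hy]
        have h5 : I.mkQ (uu g D i.1.1 i.1.2) = 0 := by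
          rw [hqq, uu_add, Submodule.mkQ_apply, Submodule.Quotient.mk_eq_zero]
          exact D_mul_mem g x hpx _
        show I.mkQ (uu g D i.1.1 i.1.2) ∈ _
        rw [h5]
        exact Submodule.zero_mem _
    | zero => rw [map_zero]; exact Submodule.zero_mem _
    | add a b _ _ ha hb => rw [map_add]; exact Submodule.add_mem _ (ha trivial) (hb trivial)
    | smul c a _ ha =>
      have : I.mkQ (c • a) = c • I.mkQ a := rfl
      rw [this]
      exact Submodule.smul_mem _ _ (ha trivial)
  let b : Basis ((x : X) → Fin (n x)) k M := Basis.mk hli hsp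
  refine ⟨M, inferInstance, inferInstance, Algebra.lsmul k k M, I.mkQ 1, ?_, ?_, ?_, ?_⟩
  · exact Module.Finite.of_basis b
  · rw [finrank_eq_card_basis b, Fintype.card_pi]
    simp
  · intro x hx
    refine LinearMap.ext fun m => ?_
    obtain ⟨z, rfl⟩ := I.mkQ_surjective m
    show (D x : Env g) • I.mkQ z = 0
    rw [← map_smul, smul_eq_mul, Submodule.mkQ_apply, Submodule.Quotient.mk_eq_zero]
    exact D_mul_mem g x hx _
  · intro m
    obtain ⟨z, rfl⟩ := I.mkQ_surjective m
    refine ⟨z, ?_⟩
    show z • I.mkQ 1 = I.mkQ z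
    rw [← map_smul, smul_eq_mul, mul_one]

end trunc

end Pool.Agent.Helper56.SKU
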