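import Mathlib
import Pool.Agent.Helper56.SKW.Limit

/-!
# Structure of the generic algebra from a degeneration
-/

namespace Pool.Agent.Helper56.SKU

open Module Matrix Polynomial

universe u v

/-- A finite-dimensional algebra over an algebraically closed field, modulo its radical. -/
theorem exists_comps (K A : Type*) [Field K] [IsAlgClosed K] [Ring A] [Algebra K A]
    [FiniteDimensional K A] :
    ∃ (t : ℕ) (d : Fin t → ℕ) (π : A →ₐ[K] ((i : Fin t) → Matrix (Fin (d i)) (Fin (d i)) K)),
      (∀ i, 0 < d i) ∧ Function.Surjective π ∧ ∀ a : A, IsUnit (π a) → IsUnit a := by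
  have hart : IsArtinianRing A := IsArtinianRing.of_finite K A
  have hsp : IsSemiprimaryRing A := inferInstance
  have hss : IsSemisimpleRing (A ⧸ Ring.jacobson A) := hsp.isSemisimpleRing
  have hfd : FiniteDimensional K (A ⧸ Ring.jacobson A) :=
    Module.Finite.of_surjective (Ideal.Quotient.mkₐ K (Ring.jacobson A)).toLinearMap
      (Ideal.Quotient.mkₐ_surjective K _)
  obtain ⟨t, d, hd, ⟨e⟩⟩ :=
    IsSemisimpleRing.exists_algEquiv_pi_matrix_of_isAlgClosed K (A ⧸ Ring.jacobson A)
  refine ⟨t, d, (e : _ →ₐ[K] _).comp (Ideal.Quotient.mkₐ K (Ring.jacobson A)), fun i =>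
    Nat.pos_of_ne_zero (hd i).out, ?_, ?_⟩
  · intro y
    obtain ⟨a, ha⟩ := Ideal.Quotient.mkₐ_surjective K (Ring.jacobson A) (e.symm y)
    refine ⟨a, ?_⟩
    show e (Ideal.Quotient.mkₐ K (Ring.jacobson A) a) = y
    rw [ha, e.apply_symm_apply]
  · intro a ha
    have h1 : IsUnit (Ideal.Quotient.mkₐ K (Ring.jacobson A) a) := by
      have h2 : IsUnit (e (Ideal.Quotient.mkₐ K (Ring.jacobson A) a)) := ha
      have h3 := h2.map e.symm.toRingEquiv.toRingHom
      have h4 : e.symm.toRingEquiv.toRingHom (e (Ideal.Quotient.mkₐ K (Ring.jacobson A) a)) =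
        Ideal.Quotient.mkₐ K (Ring.jacobson A) a := e.symm_apply_apply _
      rwa [h4] at h3
    obtain ⟨⟨u, v', huv, hvu⟩, hu⟩ := h1
    simp only at hu
    subst hu
    obtain ⟨b, rfl⟩ := Ideal.Quotient.mkₐ_surjective K (Ring.jacobson A) v'
    obtain ⟨n, hn⟩ := hsp.isNilpotent
    have key : ∀ x : A, Ideal.Quotient.mkₐ K (Ring.jacobson A) x = 1 → IsUnit x := by
      intro x hx
      have h5 : x - 1 ∈ Ring.jacobson A := by
        rw [← Ideal.Quotient.eq_zero_iff_mem, map_sub, map_one, sub_eq_zero]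
        exact hx
      have h6 : IsNilpotent (x - 1) := by
        refine ⟨n, ?_⟩
        have := Ideal.pow_mem_pow h5 n
        rw [hn] at this
        simpa using this
      have := h6.isUnit_one_add
      simpa using this
    have h7 : IsUnit (a * b) := key _ (by rw [map_mul]; exact huv)
    have h8 : IsUnit (b * a) := key _ (by rw [map_mul]; exact hvu)
    obtain ⟨x, hx⟩ := h7
    obtain ⟨y, hy⟩ := h8
    have h9 : a * (b * (↑x⁻¹ : A)) = 1 := by rw [← mul_assoc, ← hx, Units.mul_inv]
    have h10 : ((↑y⁻¹ : A) * b) * a = 1 := by rw [mul_assoc, ← hy, Units.inv_mul]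
    have h11 : (↑y⁻¹ : A) * b = b * (↑x⁻¹ : A) := left_inv_eq_right_inv h10 h9
    exact ⟨⟨a, b * (↑x⁻¹ : A), h9, by rw [← h11]; exact h10⟩, rfl⟩

/-- Lifting an eigenvalue of the special fibre. -/
theorem exists_lift_root {k K : Type*} [Field k] [Field K] [IsAlgClosed K]
    (O : ValuationSubring K) (φ : k[X] →+* O) (hX : IsLocalRing.residue O (φ X) = 0)
    {I : Type*} [Fintype I] [DecidableEq I] (B : Matrix I I k[X]) (z : k)
    (hz : ∃ v : I → k, v ≠ 0 ∧ (B.map (evalRingHom (0 : k))).mulVec v = z • v) :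
    ∃ κ : O, IsLocalRing.residue O κ = IsLocalRing.residue O (φ (C z)) ∧
      ∃ v : I → K, v ≠ 0 ∧ (B.map (O.subtype.comp φ)).mulVec v = (κ : K) • v := by
  classical
  let χ : O[X] := (B.map φ).charpoly
  have hχm : χ.Monic := Matrix.charpoly_monic _
  have hsub : Function.Injective O.subtype := Subtype.val_injective
  let χK : K[X] := (B.map (O.subtype.comp φ)).charpoly
  have hχK : χK = χ.map O.subtype := by
    simp only [χK, χ]
    rw [← Matrix.charpoly_map, Matrix.map_map]
    rfl
  have hχKm : χK.Monic := Matrix.charpoly_monic _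
  have hroot : ∀ κ ∈ χK.roots, ∃ κ' : O, O.subtype κ' = κ := by
    intro κ hκ
    have h1 : IsIntegral O κ := by
      refine ⟨χ, hχm, ?_⟩
      have h2 := (mem_roots hχKm.ne_zero).1 hκ
      rw [IsRoot, hχK, eval_map] at h2
      exact h2
    obtain ⟨y, hy⟩ := IsIntegrallyClosed.isIntegral_iff.1 h1
    exact ⟨y, hy⟩
  choose! l hl using hroot
  let M : Multiset O := χK.roots.map l
  have hM : χ = (M.map fun x => X - C x).prod := by
    apply Polynomial.map_injective O.subtype hsub
    rw [← hχK, Polynomial.map_multiset_prod, Multiset.map_map, Multiset.map_map]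
    have h3 := (IsAlgClosed.splits χK).eq_prod_roots_of_monic hχKm
    conv_lhs => rw [h3]
    congr 1
    refine Multiset.map_congr rfl ?_
    intro κ hκ
    simp only [Function.comp_apply, Polynomial.map_sub, Polynomial.map_X, Polynomial.map_C,
      hl κ hκ]
  -- the reduction
  let r := IsLocalRing.residue O
  let ι : k →+* IsLocalRing.ResidueField O := (r.comp φ).comp C
  have hψ : r.comp φ = ι.comp (evalRingHom (0 : k)) := by
    apply Polynomial.ringHom_ext
    · intro a
      simp [ι]
    · simp only [RingHom.comp_apply, coe_evalRingHom, eval_X, map_zero]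
      exact hX
  have h4 : (χ.map r).eval (ι z) = 0 := by
    have h5 : χ.map r = ((B.map (evalRingHom (0 : k))).charpoly).map ι := by
      simp only [χ]
      rw [← Matrix.charpoly_map, ← Matrix.charpoly_map, Matrix.map_map, Matrix.map_map]
      have h6 : ((r : O → _) ∘ (φ : _ → O)) = (ι : _ → _) ∘ (evalRingHom (0 : k) : _ → _) := by
        have := congrArg (fun f : k[X] →+* IsLocalRing.ResidueField O => (f : _ → _)) hψ
        exact this
      rw [h6]
    rw [h5, eval_map, eval₂_hom]
    obtain ⟨v, hv0, hv⟩ := hz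
    have h7 : eval z (B.map (evalRingHom (0 : k))).charpoly = 0 := by
      rw [Matrix.eval_charpoly]
      apply Matrix.exists_mulVec_eq_zero_iff.1
      refine ⟨v, hv0, ?_⟩
      rw [Matrix.sub_mulVec, hv, Matrix.scalar_apply]
      ext i
      simp
    rw [h7, map_zero]
  rw [hM, Polynomial.map_multiset_prod, Polynomial.eval_multiset_prod, Multiset.map_map,
    Multiset.map_map, Multiset.prod_eq_zero_iff, Multiset.mem_map] at h4
  obtain ⟨κ, hκM, hκ⟩ := h4
  simp only [Function.comp_apply, Polynomial.map_sub, Polynomial.map_X, Polynomial.map_C,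
    eval_sub, eval_X, eval_C, sub_eq_zero] at hκ
  refine ⟨κ, hκ.symm, ?_⟩
  obtain ⟨κ0, hκ0, rfl⟩ := Multiset.mem_map.1 hκM
  have h8 := (mem_roots hχKm.ne_zero).1 hκ0
  rw [IsRoot] at h8
  simp only [χK] at h8
  rw [Matrix.eval_charpoly] at h8
  obtain ⟨v, hv0, hv⟩ := Matrix.exists_mulVec_eq_zero_iff.2 h8
  refine ⟨v, hv0, ?_⟩
  have h9 : ((l κ0 : O) : K) = κ0 := hl κ0 hκ0
  rw [h9]
  rw [Matrix.sub_mulVec, sub_eq_zero, Matrix.scalar_apply] at hv
  rw [← hv]
  ext i
  simp

/-- The structure of the generic algebra, read off from a degeneration. -/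
theorem exists_decomp {k K : Type u} [Field k] [Field K] [IsAlgClosed K] (φ : k[X] →+* K)
    (hφ : Function.Injective φ) {X I : Type*} [Fintype I] [DecidableEq I]
    (Γ : X → Matrix I I k[X]) (A : Subalgebra K (Matrix I I K))
    (hA : ∀ x, (Γ x).map φ ∈ A) (e0 : I → K) (hcyc : ∀ v : I → K, ∃ a ∈ A, a.mulVec e0 = v)
    (hfin : finrank K A ≤ Fintype.card I) (D : ℕ)
    (hdiv : ∀ (F : Type u) [Field F] (ψ : k[X] →+* F), ψ Polynomial.X = 0 →
      ∀ W : Submodule F (I → F), (∀ x, ∀ w ∈ W, ((Γ x).map ψ).mulVec w ∈ W) → D ∣ finrank F W)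
    (B : Matrix I I k[X]) (hB : B.map φ ∈ A) (Z : Finset k)
    (hZ : ∀ z ∈ Z, ∃ v : I → k, v ≠ 0 ∧ (B.map (evalRingHom (0 : k))).mulVec v = z • v)
    (hcard : Fintype.card I ≤ D * Z.card) :
    ∃ t : ℕ, Nonempty (A ≃ₐ[K] (Fin t → Matrix (Fin D) (Fin D) K)) := by
  classical
  -- the valuation ring
  have hI : Ideal.span {(⟨φ Polynomial.X, Polynomial.X, rfl⟩ : φ.range)} ≠ ⊤ := by
    intro htop
    have h2 : (1 : φ.range) ∈ Ideal.span {(⟨φ Polynomial.X, Polynomial.X, rfl⟩ : φ.range)} := by
      rw [htop]; trivial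
    obtain ⟨⟨_, q, rfl⟩, hq⟩ := Ideal.mem_span_singleton'.1 h2
    have h3 : φ (q * Polynomial.X) = φ 1 := by
      have h4 := congrArg Subtype.val hq
      simp only [Subring.coe_mul, Subring.coe_one] at h4
      rw [map_mul, map_one, ← h4]
    have h5 := hφ h3
    have h6 := congrArg (Polynomial.eval 0) h5
    simp at h6
  obtain ⟨O, hO, hnon⟩ := Ideal.image_subset_nonunits_valuationSubring _ hI
  have hO' : ∀ q, φ q ∈ O := fun q => hO ⟨q, rfl⟩
  let φ' : k[X] →+* O := φ.codRestrict O.toSubring hO'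
  have hφ' : O.subtype.comp φ' = φ := by ext <;> rfl
  have hφ'' : ((O.subtype : O → K) ∘ (φ' : k[X] → O)) = (φ : k[X] → K) := rfl
  have hX : IsLocalRing.residue O (φ' Polynomial.X) = 0 := by
    rw [IsLocalRing.residue_eq_zero_iff]
    have h1 : φ Polynomial.X ∈ O.nonunits :=
      hnon ⟨⟨φ Polynomial.X, Polynomial.X, rfl⟩, Ideal.subset_span rfl, rfl⟩
    exact (ValuationSubring.coe_mem_nonunits_iff (a := φ' Polynomial.X)).1 h1
  -- evaluation at the cyclic vector
  let ev : A →ₗ[K] (I → K) :=
    { toFun := fun a => (a : Matrix I I K).mulVec e0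
      map_add' := fun a b => Matrix.add_mulVec _ _ _
      map_smul' := fun c a => Matrix.smul_mulVec _ _ _ }
  have hevs : Function.Surjective ev := by
    intro v
    obtain ⟨a, ha, hav⟩ := hcyc v
    exact ⟨⟨a, ha⟩, hav⟩
  have hNA : finrank K A = Fintype.card I := by
    refine le_antisymm hfin ?_
    have := LinearMap.finrank_le_finrank_of_surjective hevs
    simpa using this
  have hevi : Function.Injective ev :=
    (LinearMap.injective_iff_surjective_of_finrank_eq_finrank (by rw [hNA]; simp)).2 hevs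
  obtain ⟨t, d, π, hd, hπs, hπu⟩ := exists_comps K A
  -- divisibility
  have hDN : D ∣ Fintype.card I := by
    have := hdiv k (evalRingHom 0) (by simp) ⊤ (fun x w _ => trivial)
    simpa using this
  have hDd : ∀ i, D ∣ d i := by
    intro i
    let v0 : Fin (d i) → K := Pi.single ⟨0, hd i⟩ 1
    let f : A →ₗ[K] (Fin (d i) → K) :=
      { toFun := fun a => (π a i).mulVec v0
        map_add' := fun a b => by
          rw [map_add, Pi.add_apply, Matrix.add_mulVec]
        map_smul' := fun c a => by
          rw [map_smul, Pi.smul_apply, Matrix.smul_mulVec, RingHom.id_apply] }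
    have hfs : Function.Surjective f := by
      intro v
      obtain ⟨a, ha⟩ := hπs (Pi.single i (Matrix.of fun r _ => v r))
      refine ⟨a, ?_⟩
      show (π a i).mulVec v0 = v
      rw [ha, Pi.single_eq_same]
      funext r
      simp [v0]
    have hker : finrank K (LinearMap.ker f) + d i = Fintype.card I := by
      have h1 := LinearMap.finrank_range_add_finrank_ker f
      rw [LinearMap.range_eq_top.2 hfs, finrank_top, hNA] at h1
      simp only [Module.finrank_fintype_fun_eq_card, Fintype.card_fin] at h1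
      omega
    let W : Submodule K (I → K) := (LinearMap.ker f).map ev
    have hWr : finrank K W = finrank K (LinearMap.ker f) :=
      (Submodule.equivMapOfInjective ev hevi _).finrank_eq.symm
    have hWst : ∀ a ∈ A, ∀ w ∈ W, a.mulVec w ∈ W := by
      rintro a ha _ ⟨b, hb, rfl⟩
      refine ⟨⟨a, ha⟩ * b, ?_, ?_⟩
      · show (π (⟨a, ha⟩ * b) i).mulVec v0 = 0
        have hb' : (π b i).mulVec v0 = 0 := hb
        rw [map_mul, Pi.mul_apply, ← Matrix.mulVec_mulVec, hb', Matrix.mulVec_zero]
      · show (a * (b : Matrix I I K)).mulVec e0 = a.mulVec ((b : Matrix I I K).mulVec e0)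
        rw [Matrix.mulVec_mulVec]
    obtain ⟨W', hW', hW'st⟩ := Pool.Agent.Helper56.SKW.exists_reduction O
      (fun x => (Γ x).map φ') W (by
        intro x w hw
        rw [Matrix.map_map, hφ'']
        exact hWst _ (hA x) w hw)
    have h2 := hdiv (IsLocalRing.ResidueField O) ((IsLocalRing.residue O).comp φ') hX W' (by
      intro x w hw
      have := hW'st x w hw
      rw [Matrix.map_map] at this
      exact this)
    rw [hW', hWr] at h2
    exact (Nat.dvd_add_right h2).1 (by rw [hker]; exact hDN)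
  -- counting eigenvalues
  have hZd : Z.card ≤ ∑ i, d i := by
    let b : A := ⟨B.map φ, hB⟩
    have hκ : ∀ z : Z, ∃ s : (_ : Fin t) × O, IsLocalRing.residue O s.2 =
        IsLocalRing.residue O (φ' (C (z : k))) ∧ (π b s.1).charpoly.eval (s.2 : K) = 0 := by
      rintro ⟨z, hz⟩
      obtain ⟨κ, hκ1, v, hv0, hv⟩ := exists_lift_root O φ' hX B z (hZ z hz)
      rw [hφ'] at hv
      have h3 : ¬ IsUnit (algebraMap K A (κ : K) - b) := by
        rintro ⟨u, hu⟩
        apply hv0
        have h4 : (((algebraMap K A (κ : K) - b : A) : Matrix I I K)).mulVec v = 0 := by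
          show (algebraMap K (Matrix I I K) (κ : K) - B.map φ).mulVec v = 0
          rw [Matrix.sub_mulVec, hv, sub_eq_zero, Algebra.algebraMap_eq_smul_one,
            Matrix.smul_mulVec, Matrix.one_mulVec]
        rw [← hu] at h4
        have h5 : (((↑u⁻¹ * ↑u : A) : Matrix I I K)).mulVec v = 0 := by
          show (((↑u⁻¹ : A) : Matrix I I K) * ((↑u : A) : Matrix I I K)).mulVec v = 0
          rw [← Matrix.mulVec_mulVec, h4, Matrix.mulVec_zero]
        rw [Units.inv_mul] at h5
        have h6 : ((1 : A) : Matrix I I K).mulVec v = v := Matrix.one_mulVec v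
        rw [h6] at h5
        exact h5
      have h7 : ¬ IsUnit (π (algebraMap K A (κ : K) - b)) := fun h => h3 (hπu _ h)
      rw [Pi.isUnit_iff] at h7
      push Not at h7
      obtain ⟨i, hi⟩ := h7
      refine ⟨⟨i, κ⟩, hκ1, ?_⟩
      rw [Matrix.isUnit_iff_isUnit_det, isUnit_iff_ne_zero, not_not] at hi
      rw [Matrix.eval_charpoly]
      rw [map_sub, AlgHom.commutes] at hi
      exact hi
    choose s hs1 hs2 using hκ
    have hcard1 : Z.card ≤ (Finset.univ.sigma fun i : Fin t =>
        (π b i).charpoly.roots.toFinset).card := by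
      rw [← Fintype.card_coe, ← Finset.card_univ]
      refine Finset.card_le_card_of_injOn (fun z => ⟨(s z).1, ((s z).2 : K)⟩) ?_ ?_
      · intro z _
        simp only [Finset.coe_sigma, Set.mem_sigma_iff, Finset.mem_coe, Finset.mem_univ, true_and,
          Multiset.mem_toFinset]
        exact (mem_roots (Matrix.charpoly_monic _).ne_zero).2 (hs2 z)
      · intro z _ z' _ h
        simp only [Sigma.mk.injEq, heq_eq_eq] at h
        have h8 : (s z).2 = (s z').2 := Subtype.ext h.2
        have h9 := hs1 z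
        rw [h8, hs1 z'] at h9
        exact Subtype.ext ((((IsLocalRing.residue O).comp φ').comp C).injective h9.symm)
    refine hcard1.trans ?_
    rw [Finset.card_sigma]
    refine Finset.sum_le_sum fun i _ => ?_
    refine (Multiset.toFinset_card_le _).trans ((Polynomial.card_roots' _).trans ?_)
    rw [Matrix.charpoly_natDegree_eq_dim, Fintype.card_fin]
  -- arithmetic
  have hfr : finrank K ((i : Fin t) → Matrix (Fin (d i)) (Fin (d i)) K) = ∑ i, d i * d i := by
    rw [Module.finrank_pi_fintype]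
    refine Finset.sum_congr rfl fun i _ => ?_
    rw [Module.finrank_matrix, Fintype.card_fin, finrank_self, mul_one]
  have h1 : ∑ i, d i * d i ≤ Fintype.card I := by
    rw [← hfr, ← hNA]
    exact LinearMap.finrank_le_finrank_of_surjective (f := π.toLinearMap) hπs
  have h2 : ∀ i, D * d i ≤ d i * d i := fun i =>
    Nat.mul_le_mul_right _ (Nat.le_of_dvd (hd i) (hDd i))
  have h3 : ∑ i, d i * d i ≤ ∑ i, D * d i := by
    rw [← Finset.mul_sum]
    exact h1.trans (hcard.trans (Nat.mul_le_mul_left _ hZd))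
  have h4 : ∑ i, D * d i = ∑ i, d i * d i := le_antisymm (Finset.sum_le_sum fun i _ => h2 i) h3
  have h5 : ∀ i, D * d i = d i * d i := fun i =>
    (Finset.sum_eq_sum_iff_of_le fun i _ => h2 i).1 h4 i (Finset.mem_univ i)
  have h6 : d = fun _ => D := by
    funext i
    exact (Nat.eq_of_mul_eq_mul_right (hd i) (h5 i)).symm
  have h7 : finrank K A = finrank K ((i : Fin t) → Matrix (Fin (d i)) (Fin (d i)) K) := by
    rw [hfr, hNA]
    refine le_antisymm ?_ h1
    rw [← h4, ← Finset.mul_sum]
    exact hcard.trans (Nat.mul_le_mul_left _ hZd)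
  have hπi : Function.Injective π :=
    (LinearMap.injective_iff_surjective_of_finrank_eq_finrank (f := π.toLinearMap) h7).2 hπs
  subst h6
  exact ⟨t, ⟨AlgEquiv.ofBijective π ⟨hπi, hπs⟩⟩⟩

end Pool.Agent.Helper56.SKU
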