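import Mathlib
import Pool.Agent.Helper56.SKU.Span

/-!
# Algebras given by commutation relations and power relations
-/

namespace Pool.Agent.Helper56.SKU

open Module Matrix

/-- Coefficients of commutation and power relations. -/
structure Pres (R X : Type*) [CommRing R] where
  E : X → X → R
  C : X → X → X → R
  C0 : X → X → R
  Dc : X → X → R
  D0 : X → R
  n : X → ℕ

section

variable {R X : Type*} [CommRing R] [Fintype X] (P : Pres R X)

/-- The relations, with coefficients mapped by a ring homomorphism. -/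
structure IsRel {S A : Type*} [CommRing S] [Ring A] [Algebra S A] (φ : R →+* S) (f : X → A) :
    Prop where
  comm : ∀ x y, f x * f y = φ (P.E x y) • (f y * f x) + ∑ z, φ (P.C x y z) • f z +
    φ (P.C0 x y) • 1
  pow : ∀ x, f x ^ P.n x = ∑ z, φ (P.Dc x z) • f z + φ (P.D0 x) • 1

variable {P} in
theorem IsRel.map {S A B : Type*} [CommRing S] [Ring A] [Algebra S A] [Ring B] [Algebra S B]
    {φ : R →+* S} {f : X → A} (h : IsRel P φ f) (T : A →ₐ[S] B) :
    IsRel P φ fun x => T (f x) where
  comm x y := by
    have := congrArg T (h.comm x y)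
    simpa only [map_mul, map_add, map_smul, map_sum, map_one] using this
  pow x := by
    have := congrArg T (h.pow x)
    simpa only [map_pow, map_add, map_smul, map_sum, map_one] using this

section single

variable {S A : Type*} [CommRing S] [Ring A] [Algebra S A] {φ : R →+* S} {f : X → A}

theorem sum_mem_FF (c : X → S) (c0 : S) : ∑ z, c z • f z + c0 • (1 : A) ∈ FF S f 2 := by
  refine Submodule.add_mem _ (Submodule.sum_mem _ fun z _ => Submodule.smul_mem _ _ ?_)
    (Submodule.smul_mem _ _ (FF_mem S f (l := []) (by simp)))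
  have := FF_mem S f (l := [z]) (d := 2) (by simp)
  simpa [pwf] using this

variable {P}

theorem IsRel.hc (hE : ∀ x y, IsUnit (P.E x y)) (h : IsRel P φ f) (x y : X) :
    ∃ s : S, IsUnit s ∧ f x * f y - s • (f y * f x) ∈ FF S f 2 := by
  refine ⟨φ (P.E x y), (hE x y).map φ, ?_⟩
  have e1 : f x * f y - φ (P.E x y) • (f y * f x) =
      ∑ z, φ (P.C x y z) • f z + φ (P.C0 x y) • 1 := by
    rw [h.comm x y]; abel
  rw [e1]
  exact sum_mem_FF _ _

theorem IsRel.hp (hn : ∀ x, 2 ≤ P.n x) (h : IsRel P φ f) (x : X) :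
    f x ^ P.n x ∈ FF S f (P.n x) := by
  rw [h.pow x]
  exact FF_mono S f (hn x) (sum_mem_FF _ _)

variable [LinearOrder X]

theorem IsRel.span (hE : ∀ x y, IsUnit (P.E x y)) (hn : ∀ x, 2 ≤ P.n x) (h : IsRel P φ f)
    (l : List X) : pwf f l ∈ Submodule.span S (Set.range fun r : (x : X) → Fin (P.n x) =>
      pwf f (sw fun x => (r x : ℕ))) :=
  pwf_span (h.hc hE) P.n (h.hp hn) l

end single

/-- The relations in the free algebra. -/
inductive relE : FreeAlgebra R X → FreeAlgebra R X → Prop
  | comm (x y : X) : relE (FreeAlgebra.ι R x * FreeAlgebra.ι R y)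
      (P.E x y • (FreeAlgebra.ι R y * FreeAlgebra.ι R x) + ∑ z, P.C x y z • FreeAlgebra.ι R z +
        P.C0 x y • 1)
  | pow (x : X) : relE (FreeAlgebra.ι R x ^ P.n x) (∑ z, P.Dc x z • FreeAlgebra.ι R z + P.D0 x • 1)

/-- The universal algebra. -/
abbrev EU : Type _ := RingQuot (relE P)

/-- The generators. -/
def gE (x : X) : EU P := RingQuot.mkAlgHom R (relE P) (FreeAlgebra.ι R x)

theorem gE_rel : IsRel P (RingHom.id R) (gE P) where
  comm x y := by
    have := RingQuot.mkAlgHom_rel R (relE.comm (P := P) x y)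
    simp only [map_mul, map_add, map_smul, map_sum, map_one] at this
    exact this
  pow x := by
    have := RingQuot.mkAlgHom_rel R (relE.pow (P := P) x)
    simp only [map_pow, map_add, map_smul, map_sum, map_one] at this
    exact this

theorem words_mul {A : Type*} [Ring A] [Algebra R A] (f : X → A) {a b : A}
    (ha : a ∈ Submodule.span R (Set.range (pwf f)))
    (hb : b ∈ Submodule.span R (Set.range (pwf f))) :
    a * b ∈ Submodule.span R (Set.range (pwf f)) := by
  induction ha using Submodule.span_induction with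
  | mem a ha =>
    obtain ⟨l, rfl⟩ := ha
    induction hb using Submodule.span_induction with
    | mem b hb =>
      obtain ⟨l', rfl⟩ := hb
      rw [← pwf_append]
      exact Submodule.subset_span ⟨_, rfl⟩
    | zero => rw [mul_zero]; exact Submodule.zero_mem _
    | add a b _ _ ha hb => rw [mul_add]; exact Submodule.add_mem _ ha hb
    | smul c a _ ha => rw [mul_smul_comm]; exact Submodule.smul_mem _ _ ha
  | zero => rw [zero_mul]; exact Submodule.zero_mem _
  | add a b _ _ ha hb => rw [add_mul]; exact Submodule.add_mem _ ha hb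
  | smul c a _ ha => rw [smul_mul_assoc]; exact Submodule.smul_mem _ _ ha

theorem gE_span (u : EU P) : u ∈ Submodule.span R (Set.range (pwf (gE P))) := by
  obtain ⟨a, rfl⟩ := RingQuot.mkAlgHom_surjective R (relE P) u
  induction a using FreeAlgebra.induction with
  | grade0 r =>
    rw [AlgHom.commutes, Algebra.algebraMap_eq_smul_one]
    exact Submodule.smul_mem _ _ (Submodule.subset_span ⟨[], rfl⟩)
  | grade1 x =>
    refine Submodule.subset_span ⟨[x], ?_⟩
    simp [pwf, gE]
  | mul a b ha hb =>
    rw [map_mul]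
    exact words_mul _ ha hb
  | add a b ha hb => rw [map_add]; exact Submodule.add_mem _ ha hb

section lift

variable {P} {S A : Type*} [CommRing S] [Ring A] [Algebra S A] {φ : R →+* S} {f : X → A}

/-- The universal property. -/
noncomputable def liftE (h : IsRel P φ f) : EU P →+* A :=
  letI : Algebra R A := Algebra.compHom A φ
  (RingQuot.liftAlgHom R (s := relE P) ⟨FreeAlgebra.lift R f, by
    intro a b hab
    have hs : ∀ (r : R) (a : A), r • a = φ r • a := fun _ _ => rfl
    cases hab with
    | comm x y =>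
      simp only [map_mul, map_add, map_smul, map_sum, map_one, FreeAlgebra.lift_ι_apply, hs]
      exact h.comm x y
    | pow x =>
      simp only [map_pow, map_add, map_smul, map_sum, map_one, FreeAlgebra.lift_ι_apply, hs]
      exact h.pow x⟩).toRingHom

theorem liftE_gE (h : IsRel P φ f) (x : X) : liftE h (gE P x) = f x := by
  let _ : Algebra R A := Algebra.compHom A φ
  unfold liftE gE
  show RingQuot.liftAlgHom R _ (RingQuot.mkAlgHom R (relE P) (FreeAlgebra.ι R x)) = f x
  rw [RingQuot.liftAlgHom_mkAlgHom_apply, FreeAlgebra.lift_ι_apply]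

theorem liftE_smul (h : IsRel P φ f) (r : R) (u : EU P) : liftE h (r • u) = φ r • liftE h u := by
  let _ : Algebra R A := Algebra.compHom A φ
  unfold liftE
  exact map_smul (RingQuot.liftAlgHom R (s := relE P) _) r u

theorem liftE_pwf (h : IsRel P φ f) (l : List X) : liftE h (pwf (gE P) l) = pwf f l := by
  induction l with
  | nil => rw [pwf_nil, pwf_nil, map_one]
  | cons x l ih => rw [pwf_cons, pwf_cons, map_mul, liftE_gE, ih]

end lift

variable [LinearOrder X]

/-- Truncated exponents. -/
abbrev TI : Type _ := (x : X) → Fin (P.n x)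

/-- The basis words. -/
def bw (r : TI P) : List X := sw fun x => (r x : ℕ)

variable {P}

theorem exists_co (hE : ∀ x y, IsUnit (P.E x y)) (hn : ∀ x, 2 ≤ P.n x) (u : EU P) :
    ∃ c : TI P → R, u = ∑ r, c r • pwf (gE P) (bw P r) := by
  have h1 : u ∈ Submodule.span R (Set.range fun r : TI P => pwf (gE P) (bw P r)) := by
    refine (Submodule.span_le.2 ?_) (gE_span P u)
    rintro _ ⟨l, rfl⟩
    exact (gE_rel P).span hE hn l
  obtain ⟨c, hc⟩ := (Submodule.mem_span_range_iff_exists_fun R).1 h1
  exact ⟨c, hc.symm⟩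

/-- Coefficients of an element of the universal algebra. -/
noncomputable def co (hE : ∀ x y, IsUnit (P.E x y)) (hn : ∀ x, 2 ≤ P.n x) (u : EU P) :
    TI P → R := (exists_co hE hn u).choose

theorem co_spec (hE : ∀ x y, IsUnit (P.E x y)) (hn : ∀ x, 2 ≤ P.n x) (u : EU P) :
    u = ∑ r, co hE hn u r • pwf (gE P) (bw P r) := (exists_co hE hn u).choose_spec

/-- The structure matrices. -/
noncomputable def Gm (hE : ∀ x y, IsUnit (P.E x y)) (hn : ∀ x, 2 ≤ P.n x) (x : X) :
    Matrix (TI P) (TI P) R := Matrix.of fun r' r => co hE hn (gE P x * pwf (gE P) (bw P r)) r'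

theorem co_apply (hE : ∀ x y, IsUnit (P.E x y)) (hn : ∀ x, 2 ≤ P.n x) {S A : Type*} [CommRing S]
    [Ring A] [Algebra S A] {φ : R →+* S} {f : X → A} (h : IsRel P φ f) (x : X) (r : TI P) :
    f x * pwf f (bw P r) = ∑ r', φ (Gm hE hn x r' r) • pwf f (bw P r') := by
  have h1 := congrArg (liftE h) (co_spec hE hn (gE P x * pwf (gE P) (bw P r)))
  rw [map_mul, liftE_gE, liftE_pwf, map_sum] at h1
  rw [h1]
  refine Finset.sum_congr rfl fun r' _ => ?_
  rw [liftE_smul, liftE_pwf]
  rfl

/-- The index of the empty word. -/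
def ti0 (hn : ∀ x, 2 ≤ P.n x) : TI P := fun x => ⟨0, by have := hn x; omega⟩

theorem bw_ti0 (hn : ∀ x, 2 ≤ P.n x) : bw P (ti0 hn) = [] := sw_zero

/-- Flatness data. -/
structure IsFlat (hE : ∀ x y, IsUnit (P.E x y)) (hn : ∀ x, 2 ≤ P.n x) : Prop where
  rel : IsRel P (RingHom.id R) (Gm hE hn)
  cyc : ∀ r, (pwf (Gm hE hn) (bw P r)).mulVec (Pi.single (ti0 hn) 1) = Pi.single r 1

theorem pwf_map {S : Type*} [CommRing S] {I : Type*} [Fintype I] [DecidableEq I] (φ : R →+* S)
    (f : X → Matrix I I R) (l : List X) : pwf (fun x => (f x).map φ) l = (pwf f l).map φ := by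
  induction l with
  | nil =>
    rw [pwf_nil, pwf_nil]
    simp
  | cons x l ih => rw [pwf_cons, pwf_cons, ih, Matrix.map_mul]

/-- Flatness from a realisation of the right dimension over a field. -/
theorem isFlat_of_real (hE : ∀ x y, IsUnit (P.E x y)) (hn : ∀ x, 2 ≤ P.n x) {K M : Type*} [Field K]
    [AddCommGroup M] [Module K M] [Module.Finite K M] (φ : R →+* K)
    (hφ : Function.Injective φ) (f : X → Module.End K M) (hf : IsRel P φ f) (m0 : M)
    (hsp : ∀ w, w ∈ Submodule.span K (Set.range fun l => pwf f l m0))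
    (hrank : finrank K M = ∏ x, P.n x) : IsFlat hE hn := by
  classical
  have hsp2 : ⊤ ≤ Submodule.span K (Set.range fun r : TI P => pwf f (bw P r) m0) := by
    intro w _
    refine (Submodule.span_le.2 ?_) (hsp w)
    rintro _ ⟨l, rfl⟩
    have h1 := hf.span hE hn l
    have h2 : Submodule.span K (Set.range fun r : (x : X) → Fin (P.n x) =>
        pwf f (sw fun x => (r x : ℕ))) ≤ (Submodule.span K (Set.range fun r : TI P =>
          pwf f (bw P r) m0)).comap (LinearMap.applyₗ m0) := by
      rw [Submodule.span_le]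
      rintro _ ⟨r, rfl⟩
      exact Submodule.subset_span ⟨r, rfl⟩
    exact h2 h1
  have hcard : Fintype.card (TI P) = finrank K M := by
    rw [hrank, Fintype.card_pi]
    simp
  let b : Basis (TI P) K M := basisOfTopLeSpanOfCardEqFinrank _ hsp2 hcard
  have hb : ∀ r, b r = pwf f (bw P r) m0 := fun r => by
    simp [b]
  let T := LinearMap.toMatrixAlgEquiv b
  have hT : ∀ x, T (f x) = (Gm hE hn x).map φ := by
    intro x
    ext r' r
    show LinearMap.toMatrixAlgEquiv b (f x) r' r = _
    rw [LinearMap.toMatrixAlgEquiv_apply, Matrix.map_apply, hb]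
    have h1 := LinearMap.congr_fun (co_apply hE hn hf x r) m0
    rw [Module.End.mul_apply] at h1
    rw [h1]
    have h2 : (∑ r', φ (Gm hE hn x r' r) • pwf f (bw P r')) m0 =
        ∑ r', φ (Gm hE hn x r' r) • b r' := by
      rw [LinearMap.sum_apply]
      exact Finset.sum_congr rfl fun r' _ => by rw [hb]; rfl
    rw [h2, b.repr_sum_self]
  have hTw : ∀ l, T (pwf f l) = (pwf (Gm hE hn) l).map φ := by
    intro l
    rw [← pwf_map]
    induction l with
    | nil => rw [pwf_nil, pwf_nil, map_one]
    | cons x l ih => rw [pwf_cons, pwf_cons, map_mul, ih, hT]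
  have hrelK : IsRel P φ fun x => (Gm hE hn x).map φ := by
    have := hf.map T.toAlgHom
    have e1 : (fun x => T.toAlgHom (f x)) = fun x => (Gm hE hn x).map φ := by
      funext x; exact hT x
    rwa [e1] at this
  have hminj : Function.Injective fun A : Matrix (TI P) (TI P) R => A.map φ :=
    Matrix.map_injective hφ
  have hsm : ∀ (c : R) (A : Matrix (TI P) (TI P) R), (c • A).map φ = φ c • A.map φ := by
    intro c A
    ext i j
    simp
  have hadd : ∀ (A B : Matrix (TI P) (TI P) R), (A + B).map φ = A.map φ + B.map φ := by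
    intro A B
    ext i j
    simp
  have hsum : ∀ (F : X → Matrix (TI P) (TI P) R), (∑ z, F z).map φ = ∑ z, (F z).map φ := by
    intro F
    ext i j
    simp [Matrix.sum_apply]
  have hone : (1 : Matrix (TI P) (TI P) R).map φ = 1 := by simp
  have hpow : ∀ (A : Matrix (TI P) (TI P) R) (N : ℕ), (A ^ N).map φ = (A.map φ) ^ N := by
    intro A N
    induction N with
    | zero => rw [pow_zero, pow_zero, hone]
    | succ N ih => rw [pow_succ, pow_succ, Matrix.map_mul, ih]
  constructor
  · constructor
    · intro x y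
      apply hminj
      have h1 := hrelK.comm x y
      simp only [RingHom.id_apply, Matrix.map_mul, hadd, hsm, hsum, hone]
      exact h1
    · intro x
      apply hminj
      have h1 := hrelK.pow x
      simp only [RingHom.id_apply, hpow, hadd, hsm, hsum, hone]
      exact h1
  · intro r
    have h0 : b.repr m0 = Finsupp.single (ti0 hn) 1 := by
      have : b (ti0 hn) = m0 := by rw [hb, bw_ti0, pwf_nil]; rfl
      rw [← this, Basis.repr_self]
    have h1 : ((pwf (Gm hE hn) (bw P r)).map φ).mulVec (Pi.single (ti0 hn) 1) =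
        Pi.single r 1 := by
      rw [← hTw, Matrix.mulVec_single_one]
      funext r'
      show (LinearMap.toMatrixAlgEquiv b (pwf f (bw P r))) r' (ti0 hn) = _
      rw [LinearMap.toMatrixAlgEquiv_apply]
      have h2 : b (ti0 hn) = m0 := by rw [hb, bw_ti0, pwf_nil]; rfl
      rw [h2, ← hb, Basis.repr_self, Finsupp.single_apply, Pi.single_apply]
      by_cases h : r = r'
      · subst h; simp
      · rw [if_neg h, if_neg (Ne.symm h)]
    rw [Matrix.mulVec_single_one] at h1 ⊢
    funext r'
    apply hφ
    have h3 := congrFun h1 r'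
    simp only [Matrix.col_apply, Matrix.map_apply] at h3 ⊢
    rw [h3, Pi.single_apply, Pi.single_apply]
    split_ifs <;> simp

variable {hE : ∀ x y, IsUnit (P.E x y)} {hn : ∀ x, 2 ≤ P.n x}

theorem liftE_inj (h : IsFlat hE hn) : Function.Injective (liftE h.rel) := by
  classical
  rw [injective_iff_map_eq_zero]
  intro u hu
  have h1 := co_spec hE hn u
  have h2 : (liftE h.rel u).mulVec (Pi.single (ti0 hn) 1) = co hE hn u := by
    conv_lhs => rw [h1]
    rw [map_sum]
    have h3 : ∀ r, liftE h.rel (co hE hn u r • pwf (gE P) (bw P r)) =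
        co hE hn u r • pwf (Gm hE hn) (bw P r) := by
      intro r
      rw [liftE_smul, liftE_pwf]
      rfl
    simp only [h3]
    rw [Matrix.sum_mulVec]
    have h4 : ∀ r, (co hE hn u r • pwf (Gm hE hn) (bw P r)).mulVec (Pi.single (ti0 hn) 1) =
        Pi.single r (co hE hn u r) := by
      intro r
      rw [Matrix.smul_mulVec, h.cyc]
      funext r'
      rw [Pi.smul_apply, Pi.single_apply, Pi.single_apply]
      split_ifs <;> simp
    simp only [h4]
    funext r
    rw [Finset.sum_apply, Finset.sum_eq_single r]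
    · simp
    · intro r' _ hne
      rw [Pi.single_eq_of_ne (Ne.symm hne)]
    · simp
  rw [hu, Matrix.zero_mulVec] at h2
  rw [h1, ← h2]
  simp

end

end Pool.Agent.Helper56.SKU
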