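import Mathlib
import Pool.Agent.Helper56.SKU.Flat
import Pool.Agent.Helper56.SKU.Ded

/-!
# Flat families of presentations
-/

namespace Pool.Agent.Helper56.SKU

open Module Polynomial

universe u

section mapM

variable {R X : Type*} [CommRing R] [Fintype X] {P : Pres R X} {I : Type*} [Fintype I]
    [DecidableEq I] {Γ : X → Matrix I I R}

theorem IsRel.mapM (h : IsRel P (RingHom.id R) Γ) {S : Type*} [CommRing S]
    (ψ : R →+* S) : IsRel P ψ fun x => (Γ x).map ψ := by
  have hsm : ∀ (c : R) (A : Matrix I I R), (c • A).map ψ = ψ c • A.map ψ := by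
    intro c A
    ext i j
    simp
  have hadd : ∀ (A B : Matrix I I R), (A + B).map ψ = A.map ψ + B.map ψ := by
    intro A B
    ext i j
    simp
  have hsum : ∀ (F : X → Matrix I I R), (∑ z, F z).map ψ = ∑ z, (F z).map ψ := by
    intro F
    ext i j
    simp [Matrix.sum_apply]
  have hone : (1 : Matrix I I R).map ψ = 1 := by simp
  have hpow : ∀ (A : Matrix I I R) (N : ℕ), (A ^ N).map ψ = (A.map ψ) ^ N := by
    intro A N
    induction N with
    | zero => rw [pow_zero, pow_zero, hone]
    | succ N ih => rw [pow_succ, pow_succ, Matrix.map_mul, ih]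
  constructor
  · intro x y
    have h1 := congrArg (fun A : Matrix I I R => A.map ψ) (h.comm x y)
    simp only [RingHom.id_apply, Matrix.map_mul, hadd, hsm, hsum, hone] at h1
    exact h1
  · intro x
    have h1 := congrArg (fun A : Matrix I I R => A.map ψ) (h.pow x)
    simp only [RingHom.id_apply, hpow, hadd, hsm, hsum, hone] at h1
    exact h1

omit [Fintype X] in
theorem pwf_map' (Γ : X → Matrix I I R) {S : Type*} [CommRing S] (ψ : R →+* S) (l : List X) :
    pwf (fun x => (Γ x).map ψ) l = (pwf Γ l).map ψ := by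
  induction l with
  | nil =>
    rw [pwf_nil, pwf_nil]
    simp
  | cons x l ih => rw [pwf_cons, pwf_cons, ih, Matrix.map_mul]

theorem liftE_mapM (h : IsRel P (RingHom.id R) Γ) {S : Type*} [CommRing S]
    (ψ : R →+* S) (u : EU P) : liftE (h.mapM ψ) u = (liftE h u).map ψ := by
  have h1 := gE_span P u
  induction h1 using Submodule.span_induction with
  | mem a ha =>
    obtain ⟨l, rfl⟩ := ha
    rw [liftE_pwf, liftE_pwf, pwf_map']
  | zero => rw [map_zero, map_zero]; simp
  | add a b _ _ ha hb =>
    rw [map_add, ha, hb, map_add]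
    ext i j
    simp
  | smul c a _ ha =>
    rw [liftE_smul, ha, liftE_smul]
    ext i j
    simp

theorem liftE_map {S A B : Type*} [CommRing S] [Ring A] [Algebra S A] [Ring B] [Algebra S B]
    {φ : R →+* S} {f : X → A} (h : IsRel P φ f) (T : A →ₐ[S] B) (u : EU P) :
    liftE (h.map T) u = T (liftE h u) := by
  have h1 := gE_span P u
  induction h1 using Submodule.span_induction with
  | mem a ha =>
    obtain ⟨l, rfl⟩ := ha
    rw [liftE_pwf, liftE_pwf]
    induction l with
    | nil => rw [pwf_nil, pwf_nil, map_one]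
    | cons x l ih => rw [pwf_cons, pwf_cons, map_mul, ih]
  | zero => rw [map_zero, map_zero, map_zero]
  | add a b _ _ ha hb => rw [map_add, ha, hb, map_add, map_add]
  | smul c a _ ha => rw [liftE_smul, ha, liftE_smul, map_smul]

theorem liftE_mem {S A : Type*} [CommRing S] [Ring A] [Algebra S A]
    {φ : R →+* S} {f : X → A} (h : IsRel P φ f) (u : EU P) :
    liftE h u ∈ Submodule.span S (Set.range (pwf f)) := by
  have h1 := gE_span P u
  induction h1 using Submodule.span_induction with
  | mem a ha =>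
    obtain ⟨l, rfl⟩ := ha
    rw [liftE_pwf]
    exact Submodule.subset_span ⟨l, rfl⟩
  | zero => rw [map_zero]; exact Submodule.zero_mem _
  | add a b _ _ ha hb => rw [map_add]; exact Submodule.add_mem _ ha hb
  | smul c a _ ha => rw [liftE_smul]; exact Submodule.smul_mem _ _ ha

end mapM

section gen

variable {k K : Type u} [Field k] [Field K] [IsAlgClosed K] (φ : k[X] →+* K)
  (hφ : Function.Injective φ) {Y : Type} [Fintype Y] [LinearOrder Y] (P : Pres k[X] Y)
  {hE : ∀ x y, IsUnit (P.E x y)} {hn : ∀ x, 2 ≤ P.n x} (hfl : IsFlat hE hn)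

include hfl hφ in
theorem flat_decomp (D : ℕ)
    (hdiv : ∀ (F : Type u) [Field F] (ψ : k[X] →+* F), ψ Polynomial.X = 0 →
      ∀ (V : Type u) [AddCommGroup V] [Module F V] [FiniteDimensional F V]
        (f : Y → Module.End F V), IsRel P ψ f →
        ∀ W : Submodule F V, (∀ x, ∀ v ∈ W, f x v ∈ W) → D ∣ finrank F W)
    (hlab : ∀ (V : Type u) [AddCommGroup V] [Module k V] [FiniteDimensional k V]
        (f : Y → Module.End k V) (h : IsRel P (evalRingHom (0 : k)) f) (e : Basis (TI P) k V)
        (e0 : V), (∀ t, e t = pwf f (bw P t) e0) →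
        ∃ (u : EU P) (Z : Finset k), ∏ x, P.n x ≤ D * Z.card ∧
          ∀ z ∈ Z, ∃ v : V, v ≠ 0 ∧ liftE h u v = z • v) :
    ∃ (t : ℕ) (T : EU P →+* (Fin t → Matrix (Fin D) (Fin D) K)), Function.Injective T := by
  classical
  let Γ := Gm hE hn
  have hΓ : IsRel P (RingHom.id k[X]) Γ := hfl.rel
  -- the special fibre
  let E0 := (Matrix.toLinAlgEquiv' (R := k) (n := TI P)).toAlgHom
  let f0 : Y → Module.End k (TI P → k) := fun x => E0 ((Γ x).map (evalRingHom (0 : k)))
  have hf0 : IsRel P (evalRingHom (0 : k)) f0 := (hΓ.mapM (evalRingHom (0 : k))).map E0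
  have hE0 : ∀ u, liftE hf0 u = E0 ((liftE hΓ u).map (evalRingHom (0 : k))) := by
    intro u
    rw [← liftE_mapM hΓ (evalRingHom (0 : k)) u]
    exact liftE_map (hΓ.mapM (evalRingHom (0 : k))) E0 u
  have hE0v : ∀ (A : Matrix (TI P) (TI P) k) v, E0 A v = A.mulVec v := fun A v => rfl
  have hbasis : ∀ t, (Pi.basisFun k (TI P)) t = pwf f0 (bw P t) (Pi.single (ti0 hn) 1) := by
    intro t
    have h1 := liftE_pwf hf0 (bw P t)
    have h2 := liftE_pwf hΓ (bw P t)
    rw [← h1, hE0, h2, hE0v]
    have h3 := hfl.cyc t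
    rw [Matrix.mulVec_single_one] at h3 ⊢
    funext i
    have h4 := congrFun h3 i
    simp only [Matrix.col_apply, Matrix.map_apply] at h4 ⊢
    have h5 : Γ = Gm hE hn := rfl
    rw [h5, h4, Pi.basisFun_apply, Pi.single_apply, Pi.single_apply]
    split_ifs <;> simp
  obtain ⟨u, Z, hZc, hZ⟩ := hlab (TI P → k) f0 hf0 (Pi.basisFun k (TI P)) _ hbasis
  -- the algebra
  let F : Y → Matrix (TI P) (TI P) K := fun x => (Γ x).map φ
  have hF : IsRel P φ F := hΓ.mapM φ
  let A : Subalgebra K (Matrix (TI P) (TI P) K) :=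
    Submodule.toSubalgebra (Submodule.span K (Set.range (pwf F)))
      (Submodule.subset_span ⟨[], rfl⟩) (fun a b ha hb => words_mul F ha hb)
  have hAmem : ∀ a, a ∈ A ↔ a ∈ Submodule.span K (Set.range (pwf F)) := fun a => Iff.rfl
  have hA : ∀ x, (Γ x).map φ ∈ A := fun x => Submodule.subset_span ⟨[x], by simp [pwf, F]⟩
  have hspan : A.toSubmodule ≤ Submodule.span K (Set.range fun t : TI P => pwf F (bw P t)) := by
    show Submodule.span K (Set.range (pwf F)) ≤ _
    rw [Submodule.span_le]
    rintro _ ⟨l, rfl⟩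
    exact hF.span hE hn l
  have hfin : finrank K A ≤ Fintype.card (TI P) := by
    have h1 : finrank K A = finrank K A.toSubmodule := rfl
    rw [h1]
    exact (Submodule.finrank_mono hspan).trans (finrank_range_le_card _)
  obtain ⟨t, ⟨e⟩⟩ := exists_decomp φ hφ Γ A hA (Pi.single (ti0 hn) 1) (by
      intro v
      refine ⟨∑ t, v t • pwf F (bw P t), ?_, ?_⟩
      · exact Submodule.sum_mem _ fun t _ => Submodule.smul_mem _ _
          (Submodule.subset_span ⟨_, rfl⟩)
      · have h1 : ∀ t, (v t • pwf F (bw P t)).mulVec (Pi.single (ti0 hn) 1) =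
            Pi.single t (v t) := by
          intro t
          rw [Matrix.smul_mulVec]
          have h2 : pwf F (bw P t) = (pwf Γ (bw P t)).map φ := pwf_map' Γ φ _
          rw [h2]
          have h3 := hfl.cyc t
          rw [Matrix.mulVec_single_one] at h3 ⊢
          funext i
          have h4 := congrFun h3 i
          simp only [Matrix.col_apply, Matrix.map_apply, Pi.smul_apply] at h4 ⊢
          have h5 : Γ = Gm hE hn := rfl
          rw [h5, h4, Pi.single_apply, Pi.single_apply]
          split_ifs <;> simp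
        rw [Matrix.sum_mulVec]
        simp only [h1]
        exact Finset.univ_sum_single v) hfin D (by
      intro F' _ ψ hψ W hW
      let EF := (Matrix.toLinAlgEquiv' (R := F') (n := TI P)).toAlgHom
      exact hdiv F' ψ hψ (TI P → F') (fun x => EF ((Γ x).map ψ)) ((hΓ.mapM ψ).map EF) W hW)
    (liftE hΓ u) (by
      rw [← liftE_mapM hΓ φ u]
      exact liftE_mem (hΓ.mapM φ) u) Z (by
      intro z hz
      obtain ⟨v, hv0, hv⟩ := hZ z hz
      refine ⟨v, hv0, ?_⟩
      rw [hE0, hE0v] at hv
      exact hv) (by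
      rw [Fintype.card_pi]
      simp only [Fintype.card_fin]
      exact hZc)
  let T1 : EU P →+* A := (liftE hF).codRestrict A.toSubring fun u => liftE_mem hF u
  refine ⟨t, e.toRingEquiv.toRingHom.comp T1, ?_⟩
  have h1 : Function.Injective T1 := by
    intro a b hab
    have h2 : liftE hF a = liftE hF b := congrArg Subtype.val hab
    have h3 : (liftE hΓ a).map φ = (liftE hΓ b).map φ := by
      rw [← liftE_mapM hΓ φ a, ← liftE_mapM hΓ φ b]
      exact h2
    exact liftE_inj hfl (Matrix.map_injective hφ h3)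
  exact e.injective.comp h1

end gen

end Pool.Agent.Helper56.SKU
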