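import Mathlib
import Pool.Agent.Helper56.SKU.Span

/-!
# Products of polynomials in the letters
-/

namespace Pool.Agent.Helper56.SKU

open Module Polynomial

section

variable {k V X : Type*} [Field k] [AddCommGroup V] [Module k V] [Fintype X] [LinearOrder X]
  {n : X → ℕ}

/-- The span of the basis vectors supported on a list of letters. -/
noncomputable def NL (e : Basis ((x : X) → Fin (n x)) k V) (L : List X) : Submodule k V :=
  Submodule.span k (e '' {r | ∀ y, y ∉ L → (r y : ℕ) = 0})

theorem sw_update {x : X} {L : List X} (hL : ∀ y ∈ L, x < y) (r : (x : X) → Fin (n x))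
    (hr : ∀ y, y ∉ L → (r y : ℕ) = 0) (m : Fin (n x)) :
    List.replicate (m : ℕ) x ++ sw (fun y => (r y : ℕ)) =
      sw (fun y => (Function.update r x m y : ℕ)) := by
  have hx : x ∉ L := fun h => lt_irrefl x (hL x h)
  apply eq_sw
  · rw [List.pairwise_append]
    refine ⟨?_, sorted_sw _, ?_⟩
    · rw [List.pairwise_replicate]
      right; exact le_rfl
    · intro a ha b hb
      rw [List.eq_of_mem_replicate ha]
      by_cases hbL : b ∈ L
      · exact (hL b hbL).le
      · have h1 := hr b hbL
        have h2 : 0 < (sw (fun y => (r y : ℕ))).count b := List.count_pos_iff.2 hb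
        rw [count_sw] at h2
        omega
  · intro y
    rw [List.count_append, count_sw]
    by_cases hy : y = x
    · subst hy
      rw [List.count_replicate_self, Function.update_self, hr y hx, add_zero]
    · rw [Function.update_of_ne hy, List.count_replicate]
      simp [Ne.symm hy]

theorem pow_mem (f : X → Module.End k V) (e : Basis ((x : X) → Fin (n x)) k V) (e0 : V)
    (he : ∀ r, e r = pwf f (sw fun y => (r y : ℕ)) e0) {x : X} {L : List X}
    (hL : ∀ y ∈ L, x < y) (m : Fin (n x)) (w : V) (hw : w ∈ NL e L) :
    (f x ^ (m : ℕ)) w ∈ NL e (x :: L) ∧ ∀ r' : (x : X) → Fin (n x),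
      e.repr ((f x ^ (m : ℕ)) w) r' = if r' x = m then
        e.repr w (Function.update r' x ⟨0, by have := m.2; omega⟩) else 0 := by
  have hx : x ∉ L := fun h => lt_irrefl x (hL x h)
  unfold NL at hw
  induction hw using Submodule.span_induction with
  | mem w hw =>
    obtain ⟨r, hr, rfl⟩ := hw
    have h1 : (f x ^ (m : ℕ)) (e r) = e (Function.update r x m) := by
      rw [he, he, ← pwf_replicate, ← Module.End.mul_apply, ← pwf_append, sw_update hL r hr m]
    rw [h1]
    refine ⟨Submodule.subset_span ⟨_, ?_, rfl⟩, ?_⟩
    · intro y hy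
      have hy1 : y ≠ x := fun h => hy (by simp [h])
      have hy2 : y ∉ L := fun h => hy (List.mem_cons_of_mem _ h)
      rw [Function.update_of_ne hy1]
      exact hr y hy2
    · intro r'
      rw [Basis.repr_self, Basis.repr_self, Finsupp.single_apply, Finsupp.single_apply]
      by_cases h : r' x = m
      · rw [if_pos h]
        congr 1
        rw [eq_iff_iff]
        constructor
        · rintro rfl
          rw [Function.update_idem]
          symm
          rw [Function.update_eq_self_iff]
          exact Fin.ext (hr x hx).symm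
        · intro h2
          rw [h2, Function.update_idem, ← h, Function.update_eq_self]
      · rw [if_neg h, if_neg]
        rintro rfl
        exact h (Function.update_self _ _ _)
  | zero =>
    refine ⟨by rw [map_zero]; exact Submodule.zero_mem _, fun r' => ?_⟩
    simp
  | add a b _ _ ha hb =>
    refine ⟨by rw [map_add]; exact Submodule.add_mem _ ha.1 hb.1, fun r' => ?_⟩
    rw [map_add, map_add, Finsupp.add_apply, ha.2, hb.2, map_add, Finsupp.add_apply]
    split_ifs <;> simp
  | smul c a _ ha =>
    refine ⟨by rw [map_smul]; exact Submodule.smul_mem _ _ ha.1, fun r' => ?_⟩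
    rw [map_smul, map_smul, Finsupp.smul_apply, ha.2, map_smul, Finsupp.smul_apply]
    split_ifs <;> simp

/-- Nonvanishing of products of polynomials. -/
theorem prod_ne_zero (f : X → Module.End k V) (e : Basis ((x : X) → Fin (n x)) k V) (e0 : V)
    (he : ∀ r, e r = pwf f (sw fun y => (r y : ℕ)) e0) (hn : ∀ x, 0 < n x) (Q : X → k[X])
    (hQ : ∀ x, Q x ≠ 0) (hdeg : ∀ x, (Q x).natDegree < n x) : ∀ L : List X,
    L.Pairwise (· < ·) → (L.map fun x => aeval (f x) (Q x)).prod e0 ∈ NL e L ∧
      (L.map fun x => aeval (f x) (Q x)).prod e0 ≠ 0 := by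
  intro L
  induction L with
  | nil =>
    intro _
    have h0 : e (fun x => ⟨0, hn x⟩) = e0 := by
      rw [he]
      have : sw (fun _ : X => 0) = [] := sw_zero
      show pwf f (sw fun _ => 0) e0 = e0
      rw [this, pwf_nil]
      rfl
    refine ⟨?_, ?_⟩
    · show e0 ∈ NL e []
      rw [← h0]
      exact Submodule.subset_span ⟨_, fun _ _ => rfl, rfl⟩
    · show e0 ≠ 0
      rw [← h0]
      exact e.ne_zero _
  | cons x L ih =>
    intro hP
    rw [List.pairwise_cons] at hP
    obtain ⟨h1, h2⟩ := ih hP.2
    rw [List.map_cons, List.prod_cons, Module.End.mul_apply]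
    set w := (L.map fun x => aeval (f x) (Q x)).prod e0 with hw
    have hx : x ∉ L := fun h => lt_irrefl x (hP.1 x h)
    have hexp : aeval (f x) (Q x) w =
        ∑ m : Fin (n x), (Q x).coeff m • (f x ^ (m : ℕ)) w := by
      rw [aeval_eq_sum_range' (hdeg x), LinearMap.sum_apply, Finset.sum_range]
      rfl
    constructor
    · rw [hexp]
      exact Submodule.sum_mem _ fun m _ => Submodule.smul_mem _ _
        (pow_mem f e e0 he hP.1 m w h1).1
    · intro hzero
      obtain ⟨r, hr⟩ : ∃ r, e.repr w r ≠ 0 := by
        by_contra hcon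
        push Not at hcon
        apply h2
        apply e.repr.injective
        rw [map_zero]
        ext r
        exact hcon r
      have hrL : ∀ y, y ∉ L → (r y : ℕ) = 0 := by
        have h3 : ∀ w ∈ NL e L, e.repr w r ≠ 0 → ∀ y, y ∉ L → (r y : ℕ) = 0 := by
          intro w hw hne y hy
          by_contra hcon
          apply hne
          unfold NL at hw
          have h4 : Submodule.span k (e '' {r | ∀ y, y ∉ L → (r y : ℕ) = 0}) ≤
              LinearMap.ker (e.coord r) := by
            rw [Submodule.span_le]
            rintro _ ⟨r', hr', rfl⟩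
            rw [SetLike.mem_coe, LinearMap.mem_ker, Basis.coord_apply, Basis.repr_self,
              Finsupp.single_eq_of_ne]
            rintro rfl
            exact hcon (hr' y hy)
          exact h4 hw
        exact h3 w h1 hr
      let m : Fin (n x) := ⟨(Q x).natDegree, hdeg x⟩
      have h5 := congrArg (fun v => e.repr v (Function.update r x m)) hzero
      simp only [hexp, map_sum, map_smul, Finsupp.coe_finsetSum, Finset.sum_apply, map_zero,
        Finsupp.coe_zero, Pi.zero_apply] at h5
      rw [Finset.sum_eq_single m] at h5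
      · rw [Finsupp.smul_apply, (pow_mem f e e0 he hP.1 m w h1).2, if_pos (Function.update_self _ _ _),
          Function.update_idem, smul_eq_mul, mul_eq_zero] at h5
        rcases h5 with h5 | h5
        · exact hQ x (leadingCoeff_eq_zero.1 h5)
        · apply hr
          convert h5 using 2
          symm
          rw [Function.update_eq_self_iff]
          exact Fin.ext (hrL x hx).symm
      · intro m' _ hm'
        rw [Finsupp.smul_apply, (pow_mem f e e0 he hP.1 m' w h1).2, if_neg, smul_zero]
        rw [Function.update_self]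
        exact Ne.symm hm'
      · simp

end

/-- A product is killed from the left. -/
theorem list_kill {X A : Type*} [Ring A] (F : X → A) (c : A) : ∀ L : List X,
    (∀ x ∈ L, ∃ F', c * F x = F' * c) → (∃ x ∈ L, c * F x = 0) → c * (L.map F).prod = 0 := by
  intro L
  induction L with
  | nil => rintro - ⟨x, hx, -⟩; simp at hx
  | cons x L ih =>
    intro h1 h2
    rw [List.map_cons, List.prod_cons, ← mul_assoc]
    by_cases h : c * F x = 0
    · rw [h, zero_mul]
    · obtain ⟨F', hF'⟩ := h1 x (by simp)
      rw [hF', mul_assoc, ih (fun y hy => h1 y (List.mem_cons_of_mem _ hy)), mul_zero]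
      obtain ⟨y, hy, hy0⟩ := h2
      rcases List.mem_cons.1 hy with rfl | hy
      · exact absurd hy0 h
      · exact ⟨y, hy, hy0⟩

/-- Quasi-commutation with a polynomial. -/
theorem aeval_quasi {k A : Type*} [Field k] [Ring A] [Algebra k A] (c h h' : A)
    (hc : c * h = h' * c) (Q : k[X]) : c * aeval h Q = aeval h' Q * c := by
  induction Q using Polynomial.induction_on' with
  | add p q hp hq => rw [map_add, map_add, mul_add, add_mul, hp, hq]
  | monomial n a =>
    rw [aeval_monomial, aeval_monomial, ← mul_assoc, ← Algebra.commutes, mul_assoc, mul_assoc]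
    congr 1
    induction n with
    | zero => rw [pow_zero, pow_zero, mul_one, one_mul]
    | succ n ih => rw [pow_succ, pow_succ, ← mul_assoc, ih, mul_assoc, hc, mul_assoc]

/-- The idempotent polynomial. -/
noncomputable def QQ {k : Type*} [Field k] (p : ℕ) (μ : k) : k[X] := 1 - (X - C μ) ^ (p - 1)

theorem QQ_natDegree {k : Type*} [Field k] (p : ℕ) (hp : 2 ≤ p) (μ : k) :
    (QQ p μ).natDegree < p := by
  unfold QQ
  have h1 : ((X - C μ : k[X]) ^ (p - 1)).natDegree = p - 1 := by
    rw [natDegree_pow, natDegree_X_sub_C, mul_one]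
  have h2 := natDegree_sub_le (1 : k[X]) ((X - C μ) ^ (p - 1))
  rw [h1, natDegree_one] at h2
  omega

theorem QQ_ne {k : Type*} [Field k] (p : ℕ) (hp : 2 ≤ p) (μ : k) : QQ p μ ≠ 0 := by
  intro h
  have h1 := congrArg (eval μ) h
  unfold QQ at h1
  rw [eval_sub, eval_one, eval_pow, eval_sub, eval_X, eval_C, sub_self, zero_pow (by omega),
    sub_zero, eval_zero] at h1
  exact one_ne_zero h1

theorem QQ_kill {k A : Type*} [Field k] [Ring A] [Algebra k A] (p : ℕ) [Fact p.Prime] [CharP k p]
    [CharP A p] (hp : 2 ≤ p) (μ : k) (hμ : μ ^ p = μ) (h : A) (hh : h ^ p = h) :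
    (h - algebraMap k A μ) * aeval h (QQ p μ) = 0 := by
  unfold QQ
  rw [map_sub, map_one, map_pow, map_sub, aeval_X, aeval_C, mul_sub, mul_one, ← pow_succ']
  have h1 : p - 1 + 1 = p := by omega
  rw [h1, sub_pow_char_of_commute p (Algebra.commutes μ h).symm, hh, ← map_pow, hμ, sub_self]

end Pool.Agent.Helper56.SKU
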