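import Mathlib
import Pool.Agent.Helper56.SKU.Poly
import Pool.Agent.Helper56.SKW.Div

/-!
# The limit algebra
-/

namespace Pool.Agent.Helper56.SKU

open Module Polynomial

/-- The letters: the parity operator, the torus, the bosons `b, a`, the fermions `v, u` and at
most one unpaired odd letter. -/
abbrev Lt (s q o r : ℕ) : Type :=
  Unit ⊕ ((Fin r ⊕ (Fin s ⊕ Fin s)) ⊕ (Fin q ⊕ (Fin q ⊕ Fin o)))

section letters

variable {s q o r : ℕ}

/-- The parity letter. -/
abbrev sg : Lt s q o r := Sum.inl ()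
/-- Torus letters. -/
abbrev hh (j : Fin r) : Lt s q o r := Sum.inr (Sum.inl (Sum.inl j))
/-- Creation letters. -/
abbrev bb (i : Fin s) : Lt s q o r := Sum.inr (Sum.inl (Sum.inr (Sum.inl i)))
/-- Annihilation letters. -/
abbrev aa (i : Fin s) : Lt s q o r := Sum.inr (Sum.inl (Sum.inr (Sum.inr i)))
/-- Odd creation letters. -/
abbrev vv (l : Fin q) : Lt s q o r := Sum.inr (Sum.inr (Sum.inl l))
/-- Odd annihilation letters. -/
abbrev ul (l : Fin q) : Lt s q o r := Sum.inr (Sum.inr (Sum.inr (Sum.inl l)))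
/-- The unpaired odd letter. -/
abbrev yl (t : Fin o) : Lt s q o r := Sum.inr (Sum.inr (Sum.inr (Sum.inr t)))

/-- The weight (degree in the deformation parameter). -/
def wt : Lt s q o r → ℕ
  | Sum.inl _ => 0
  | Sum.inr (Sum.inl (Sum.inl _)) => 0
  | Sum.inr (Sum.inl (Sum.inr _)) => 1
  | Sum.inr (Sum.inr _) => 1

/-- The parity. -/
def od : Lt s q o r → Bool
  | Sum.inl _ => true
  | Sum.inr (Sum.inl _) => false
  | Sum.inr (Sum.inr _) => true

/-- The normal form of the forms. -/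
def th : Lt s q o r → Lt s q o r → ℤ
  | Sum.inr (Sum.inl (Sum.inr (Sum.inl i))), Sum.inr (Sum.inl (Sum.inr (Sum.inr j))) =>
    if i = j then -1 else 0
  | Sum.inr (Sum.inl (Sum.inr (Sum.inr i))), Sum.inr (Sum.inl (Sum.inr (Sum.inl j))) =>
    if i = j then 1 else 0
  | Sum.inr (Sum.inr (Sum.inl i)), Sum.inr (Sum.inr (Sum.inr (Sum.inl j))) =>
    if i = j then 1 else 0
  | Sum.inr (Sum.inr (Sum.inr (Sum.inl i))), Sum.inr (Sum.inr (Sum.inl j)) =>
    if i = j then 1 else 0
  | Sum.inr (Sum.inr (Sum.inr (Sum.inr i))), Sum.inr (Sum.inr (Sum.inr (Sum.inr j))) =>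
    if i = j then 2 else 0
  | _, _ => 0

/-- The sign of a pair of letters. -/
def sgn2 (S : Type*) [Ring S] (x y : Lt s q o r) : S := if od x && od y then -1 else 1

/-- The relations of the limit algebra. -/
structure Lim0 {F A : Type*} [Field F] [Ring A] [Algebra F A] (p : ℕ)
    (w : Fin r → Lt s q o r → F) (f : Lt s q o r → A) : Prop where
  ss : f sg * f sg = 1
  sx : ∀ x, x ≠ sg → f sg * f x = sgn2 F sg x • (f x * f sg)
  hx : ∀ j x, f (hh j) * f x = f x * f (hh j) + w j x • f x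
  hp : ∀ j, f (hh j) ^ p = f (hh j)
  ap : ∀ i, f (aa i) ^ p = 0
  xy : ∀ x y, wt x = 1 → wt y = 1 → f x * f y = sgn2 F x y • (f y * f x) + (th x y : F) • 1

/-- Symmetries of the weights. -/
structure WtSym {F : Type*} [Field F] (p : ℕ) (w : Fin r → Lt s q o r → F) : Prop where
  sg : ∀ j, w j sg = 0
  hh : ∀ j j', w j (hh j') = 0
  aa : ∀ j i, w j (aa i) = -w j (bb i)
  ul : ∀ j i, w j (ul i) = -w j (vv i)
  yl : ∀ j i, w j (yl i) = 0
  pp : ∀ j x, w j x ^ p = w j x

end letters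

namespace Lim0

variable {s q o r : ℕ} {F A : Type*} [Field F] [Ring A] [Algebra F A] {p : ℕ}
  {w : Fin r → Lt s q o r → F} {f : Lt s q o r → A} (h : Lim0 p w f)

include h

theorem sb (i : Fin s) : f sg * f (bb i) = f (bb i) * f sg := by
  have := h.sx (bb i) (by simp)
  simpa [sgn2, od] using this

theorem sa (i : Fin s) : f sg * f (aa i) = f (aa i) * f sg := by
  have := h.sx (aa i) (by simp)
  simpa [sgn2, od] using this

theorem sh (j : Fin r) : f sg * f (hh j) = f (hh j) * f sg := by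
  have := h.sx (hh j) (by simp)
  simpa [sgn2, od] using this

theorem sv (i : Fin q) : f sg * f (vv i) = -(f (vv i) * f sg) := by
  have := h.sx (vv i) (by simp)
  simpa [sgn2, od] using this

theorem su (i : Fin q) : f sg * f (ul i) = -(f (ul i) * f sg) := by
  have := h.sx (ul i) (by simp)
  simpa [sgn2, od] using this

theorem sy (i : Fin o) : f sg * f (yl i) = -(f (yl i) * f sg) := by
  have := h.sx (yl i) (by simp)
  simpa [sgn2, od] using this

theorem bb' (i j : Fin s) : f (bb i) * f (bb j) = f (bb j) * f (bb i) := by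
  have := h.xy (bb i) (bb j) rfl rfl
  simpa [sgn2, od, th] using this

theorem aa' (i j : Fin s) : f (aa i) * f (aa j) = f (aa j) * f (aa i) := by
  have := h.xy (aa i) (aa j) rfl rfl
  simpa [sgn2, od, th] using this

theorem ab (i j : Fin s) : f (aa i) * f (bb j) =
    f (bb j) * f (aa i) + if i = j then 1 else 0 := by
  have := h.xy (aa i) (bb j) rfl rfl
  simp only [sgn2, od, th, Bool.and_self, Bool.false_eq_true, if_false, one_smul] at this
  rw [this]
  split_ifs <;> simp

theorem va (i : Fin q) (j : Fin s) : f (vv i) * f (aa j) = f (aa j) * f (vv i) := by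
  have := h.xy (vv i) (aa j) rfl rfl
  simpa [sgn2, od, th] using this

theorem vb (i : Fin q) (j : Fin s) : f (vv i) * f (bb j) = f (bb j) * f (vv i) := by
  have := h.xy (vv i) (bb j) rfl rfl
  simpa [sgn2, od, th] using this

theorem ua (i : Fin q) (j : Fin s) : f (ul i) * f (aa j) = f (aa j) * f (ul i) := by
  have := h.xy (ul i) (aa j) rfl rfl
  simpa [sgn2, od, th] using this

theorem ub (i : Fin q) (j : Fin s) : f (ul i) * f (bb j) = f (bb j) * f (ul i) := by
  have := h.xy (ul i) (bb j) rfl rfl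
  simpa [sgn2, od, th] using this

theorem ya (i : Fin o) (j : Fin s) : f (yl i) * f (aa j) = f (aa j) * f (yl i) := by
  have := h.xy (yl i) (aa j) rfl rfl
  simpa [sgn2, od, th] using this

theorem yb (i : Fin o) (j : Fin s) : f (yl i) * f (bb j) = f (bb j) * f (yl i) := by
  have := h.xy (yl i) (bb j) rfl rfl
  simpa [sgn2, od, th] using this

theorem uv (i j : Fin q) : f (ul i) * f (vv j) + f (vv j) * f (ul i) =
    if i = j then 1 else 0 := by
  have := h.xy (ul i) (vv j) rfl rfl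
  simp only [sgn2, od, th, Bool.and_self, if_true, neg_smul, one_smul] at this
  rw [this]
  split_ifs <;> simp

theorem uu' (i j : Fin q) : f (ul i) * f (ul j) + f (ul j) * f (ul i) = 0 := by
  have := h.xy (ul i) (ul j) rfl rfl
  simp only [sgn2, od, th, Bool.and_self, if_true, neg_smul, one_smul, Int.cast_zero, zero_smul,
    add_zero] at this
  rw [this]
  abel

theorem vv' (i j : Fin q) : f (vv i) * f (vv j) + f (vv j) * f (vv i) = 0 := by
  have := h.xy (vv i) (vv j) rfl rfl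
  simp only [sgn2, od, th, Bool.and_self, if_true, neg_smul, one_smul, Int.cast_zero, zero_smul,
    add_zero] at this
  rw [this]
  abel

theorem uy (i : Fin q) (j : Fin o) : f (ul i) * f (yl j) + f (yl j) * f (ul i) = 0 := by
  have := h.xy (ul i) (yl j) rfl rfl
  simp only [sgn2, od, th, Bool.and_self, if_true, neg_smul, one_smul, Int.cast_zero, zero_smul,
    add_zero] at this
  rw [this]
  abel

theorem vy (i : Fin q) (j : Fin o) : f (vv i) * f (yl j) + f (yl j) * f (vv i) = 0 := by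
  have := h.xy (vv i) (yl j) rfl rfl
  simp only [sgn2, od, th, Bool.and_self, if_true, neg_smul, one_smul, Int.cast_zero, zero_smul,
    add_zero] at this
  rw [this]
  abel

theorem half {x : A} (h2 : (2 : F) ≠ 0) {c : F} (hx : x + x = (2 * c) • (1 : A)) :
    x = c • 1 := by
  have h3 : (2 : F) • x = (2 : F) • (c • (1 : A)) := by
    rw [two_smul, hx, smul_smul]
  have h4 := congrArg (fun t => (2 : F)⁻¹ • t) h3
  simp only [smul_smul, inv_mul_cancel₀ h2, one_smul] at h4
  rw [h4, ← mul_assoc, inv_mul_cancel₀ h2, one_mul]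

theorem u2 (h2 : (2 : F) ≠ 0) (i : Fin q) : f (ul i) * f (ul i) = 0 := by
  have h1 := h.half h2 (c := 0) (x := f (ul i) * f (ul i)) (by rw [h.uu']; simp)
  simpa using h1

theorem v2 (h2 : (2 : F) ≠ 0) (i : Fin q) : f (vv i) * f (vv i) = 0 := by
  have h1 := h.half h2 (c := 0) (x := f (vv i) * f (vv i)) (by rw [h.vv']; simp)
  simpa using h1

theorem y2 (h2 : (2 : F) ≠ 0) (i : Fin o) : f (yl i) * f (yl i) = 1 := by
  have h3 := h.xy (yl i) (yl i) rfl rfl
  simp only [sgn2, od, th, Bool.and_self, if_true, neg_smul, one_smul] at h3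
  have h1 := h.half h2 (c := 1) (x := f (yl i) * f (yl i)) (by
    nth_rewrite 1 [h3]
    simp)
  simpa using h1

end Lim0

theorem clif1 {F A : Type*} [Field F] [Ring A] [Algebra F A] {y σ : A} {im : F} (hy : y * y = 1)
    (hσ : σ * σ = 1) (hyσ : σ * y = -(y * σ)) (him : im * im = -1) :
    (y + im • σ) * (y + im • σ) = 0 := by
  have e : (y + im • σ) * (y + im • σ) = y * y + im • (y * σ + σ * y) + (im * im) • (σ * σ) := by
    simp only [mul_add, add_mul, mul_smul_comm, smul_mul_assoc]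
    module
  rw [e, hy, hσ, hyσ, him]
  module

theorem clif2 {F A : Type*} [Field F] [Ring A] [Algebra F A] {y σ : A} {im : F} (hy : y * y = 1)
    (hσ : σ * σ = 1) (him : im * im = -1) :
    (y + im • σ) * (y - im • σ) + (y - im • σ) * (y + im • σ) = (4 : F) • 1 := by
  have e : (y + im • σ) * (y - im • σ) + (y - im • σ) * (y + im • σ) =
      (2 : F) • (y * y) - (2 * (im * im)) • (σ * σ) := by
    simp only [mul_add, add_mul, mul_sub, sub_mul, mul_smul_comm, smul_mul_assoc]
    module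
  rw [e, hy, hσ, him]
  module

section div

variable {s q o r : ℕ} {F V : Type*} [Field F] [AddCommGroup V] [Module F V]
  [FiniteDimensional F V] {w : Fin r → Lt s q o r → F}

/-- Dimensions of modules over the limit algebra. -/
theorem lim_dvd (p : ℕ) [Fact p.Prime] [CharP F p] (h2 : (2 : F) ≠ 0) (im : F)
    (him : im * im = -1) (ho : o ≤ 1) {f : Lt s q o r → Module.End F V} (h : Lim0 p w f)
    (W : Submodule F V) (hW : ∀ x, ∀ v ∈ W, f x v ∈ W) :
    p ^ s * 2 ^ (q + o) ∣ finrank F W := by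
  let P : ℕ → Module.End F V := fun i => if hi : i < s then f (aa ⟨i, hi⟩) else 0
  let Q : ℕ → Module.End F V := fun i => if hi : i < s then f (bb ⟨i, hi⟩) else 0
  let u : ℕ → Module.End F V := fun i => if hi : i < q then f (ul ⟨i, hi⟩) else
    if ho' : 0 < o then (2 : F)⁻¹ • (f (yl ⟨0, ho'⟩) + im • f sg) else 0
  let v : ℕ → Module.End F V := fun i => if hi : i < q then f (vv ⟨i, hi⟩) else
    if ho' : 0 < o then (2 : F)⁻¹ • (f (yl ⟨0, ho'⟩) - im • f sg) else 0
  have eP : ∀ i (hi : i < s), P i = f (aa ⟨i, hi⟩) := fun i hi => dif_pos hi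
  have eQ : ∀ i (hi : i < s), Q i = f (bb ⟨i, hi⟩) := fun i hi => dif_pos hi
  have eu : ∀ i (hi : i < q), u i = f (ul ⟨i, hi⟩) := fun i hi => dif_pos hi
  have ev : ∀ i (hi : i < q), v i = f (vv ⟨i, hi⟩) := fun i hi => dif_pos hi
  have hcase : ∀ i, i < q + o → i < q ∨ (i = q ∧ 0 < o) := by
    intro i hi; omega
  have eu' : ∀ ho' : 0 < o, u q = (2 : F)⁻¹ • (f (yl ⟨0, ho'⟩) + im • f sg) := by
    intro ho'
    simp only [u, lt_irrefl, dite_false, ho', dite_true]
  have ev' : ∀ ho' : 0 < o, v q = (2 : F)⁻¹ • (f (yl ⟨0, ho'⟩) - im • f sg) := by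
    intro ho'
    simp only [v, lt_irrefl, dite_false, ho', dite_true]
  have hstab : ∀ (T : Module.End F V) (c : F), (∀ z ∈ W, T z ∈ W) → ∀ z ∈ W, (c • T) z ∈ W :=
    fun T c hT z hz => W.smul_mem _ (hT z hz)
  have quart : (2 : F)⁻¹ * (2 : F)⁻¹ * 2 * 2 = 1 := by field_simp
  refine Pool.Agent.Helper56.SKW.weyl_clifford p s (q + o) P Q u v W ?_ ?_ ?_ ?_ ?_ ?_ ?_ ?_ ?_ ?_ ?_ ?_
  · intro i hi z hz; rw [eP i hi]; exact hW _ z hz
  · intro i hi z hz; rw [eQ i hi]; exact hW _ z hz
  · intro i hi z hz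
    rcases hcase i hi with h1 | ⟨rfl, h1⟩
    · rw [eu i h1]; exact hW _ z hz
    · rw [eu' h1]
      exact W.smul_mem _ (W.add_mem (hW _ z hz) (W.smul_mem _ (hW _ z hz)))
  · intro i hi z hz
    rcases hcase i hi with h1 | ⟨rfl, h1⟩
    · rw [ev i h1]; exact hW _ z hz
    · rw [ev' h1]
      exact W.smul_mem _ (W.sub_mem (hW _ z hz) (W.smul_mem _ (hW _ z hz)))
  · intro i hi j hj; rw [eP i hi, eP j hj]; exact h.aa' _ _
  · intro i hi j hj
    rw [eP i hi, eQ j hj, h.ab, add_sub_cancel_left]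
    simp only [Fin.mk.injEq]
  · intro i hi; rw [eP i hi]; exact h.ap _
  · intro i hi j hj
    rcases hcase i hi with h1 | ⟨rfl, h1⟩
    · rcases hcase j hj with h3 | ⟨rfl, h3⟩
      · rw [eu i h1, eu j h3]; exact h.uu' _ _
      · rw [eu i h1, eu' h3]
        have e1 := h.uy ⟨i, h1⟩ ⟨0, h3⟩
        have e2 := h.su ⟨i, h1⟩
        simp only [mul_smul_comm, smul_mul_assoc, mul_add, add_mul]
        rw [← smul_add]
        have e3 : f (ul ⟨i, h1⟩) * f (yl ⟨0, h3⟩) + im • (f (ul ⟨i, h1⟩) * f sg) +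
            (f (yl ⟨0, h3⟩) * f (ul ⟨i, h1⟩) + im • (f sg * f (ul ⟨i, h1⟩))) = 0 := by
          rw [e2]
          linear_combination (norm := module) e1
        rw [e3, smul_zero]
    · rcases hcase j hj with h3 | ⟨rfl, h3⟩
      · rw [eu j h3, eu' h1]
        have e1 := h.uy ⟨j, h3⟩ ⟨0, h1⟩
        have e2 := h.su ⟨j, h3⟩
        simp only [mul_smul_comm, smul_mul_assoc, mul_add, add_mul]
        rw [← smul_add]
        have e3 : f (yl ⟨0, h1⟩) * f (ul ⟨j, h3⟩) + im • (f sg * f (ul ⟨j, h3⟩)) +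
            (f (ul ⟨j, h3⟩) * f (yl ⟨0, h1⟩) + im • (f (ul ⟨j, h3⟩) * f sg)) = 0 := by
          rw [e2]
          linear_combination (norm := module) e1
        rw [e3, smul_zero]
      · rw [eu' h1, mul_smul_comm, smul_mul_assoc, clif1 (h.y2 h2 ⟨0, h1⟩) h.ss (h.sy ⟨0, h1⟩) him]
        simp
  · intro i hi
    rcases hcase i hi with h1 | ⟨rfl, h1⟩
    · rw [eu i h1]; exact h.u2 h2 _
    · rw [eu' h1, mul_smul_comm, smul_mul_assoc, clif1 (h.y2 h2 ⟨0, h1⟩) h.ss (h.sy ⟨0, h1⟩) him]
      simp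
  · intro i hi j hj
    rcases hcase i hi with h1 | ⟨rfl, h1⟩
    · rcases hcase j hj with h3 | ⟨rfl, h3⟩
      · rw [eu i h1, ev j h3, h.uv]
        simp only [Fin.mk.injEq]
      · rw [eu i h1, ev' h3, if_neg (by omega)]
        have e1 := h.uy ⟨i, h1⟩ ⟨0, h3⟩
        have e2 := h.su ⟨i, h1⟩
        simp only [mul_smul_comm, smul_mul_assoc, mul_sub, sub_mul]
        rw [← smul_add]
        have e3 : f (ul ⟨i, h1⟩) * f (yl ⟨0, h3⟩) - im • (f (ul ⟨i, h1⟩) * f sg) +
            (f (yl ⟨0, h3⟩) * f (ul ⟨i, h1⟩) - im • (f sg * f (ul ⟨i, h1⟩))) = 0 := by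
          rw [e2]
          linear_combination (norm := module) e1
        rw [e3, smul_zero]
    · rcases hcase j hj with h3 | ⟨rfl, h3⟩
      · rw [ev j h3, eu' h1, if_neg (by omega)]
        have e1 := h.vy ⟨j, h3⟩ ⟨0, h1⟩
        have e2 := h.sv ⟨j, h3⟩
        simp only [mul_smul_comm, smul_mul_assoc, mul_add, add_mul]
        rw [← smul_add]
        have e3 : f (yl ⟨0, h1⟩) * f (vv ⟨j, h3⟩) + im • (f sg * f (vv ⟨j, h3⟩)) +
            (f (vv ⟨j, h3⟩) * f (yl ⟨0, h1⟩) + im • (f (vv ⟨j, h3⟩) * f sg)) = 0 := by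
          rw [e2]
          linear_combination (norm := module) e1
        rw [e3, smul_zero]
      · rw [eu' h1, ev' h1, if_pos rfl]
        simp only [mul_smul_comm, smul_mul_assoc]
        rw [← smul_add, ← smul_add, clif2 (h.y2 h2 ⟨0, h1⟩) h.ss him, smul_smul, smul_smul]
        have e5 : (2 : F)⁻¹ * (2 : F)⁻¹ * 4 = 1 := by
          rw [← quart]; ring
        rw [e5, one_smul]
  · intro i hi j hj
    rcases hcase i hi with h1 | ⟨rfl, h1⟩
    · rw [eu i h1, eP j hj]; exact h.ua _ _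
    · rw [eu' h1, eP j hj]
      simp only [mul_smul_comm, smul_mul_assoc, mul_add, add_mul]
      rw [h.ya, h.sa]
  · intro i hi j hj
    rcases hcase i hi with h1 | ⟨rfl, h1⟩
    · rw [eu i h1, eQ j hj]; exact h.ub _ _
    · rw [eu' h1, eQ j hj]
      simp only [mul_smul_comm, smul_mul_assoc, mul_add, add_mul]
      rw [h.yb, h.sb]

end div

end Pool.Agent.Helper56.SKU
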