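import Mathlib
import Pool.Agent.Helper56.SKU.Lim0

/-!
# Joint eigenvalues in the limit module
-/

namespace Pool.Agent.Helper56.SKU

open Module Polynomial

variable {s q o r : ℕ} {k V : Type*} [Field k] [AddCommGroup V] [Module k V] {p : ℕ}
  {w : Fin r → Lt s q o r → k} {f : Lt s q o r → Module.End k V}

/-- A joint eigenvector. -/
def IsJoint (f : Lt s q o r → Module.End k V) (n : Fin s → k) (ε : Fin q → k) (μ : Fin r → k)
    (τ : k) (v : V) : Prop :=
  v ≠ 0 ∧ (∀ i, f (bb i) (f (aa i) v) = n i • v) ∧ (∀ l, f (vv l) (f (ul l) v) = ε l • v) ∧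
    (∀ j, f (hh j) v = μ j • v) ∧ f sg v = τ • v

theorem joint_raise (h : Lim0 p w f) {n : Fin s → k} {ε : Fin q → k} {μ : Fin r → k}
    {τ : k} {v : V} (hv : IsJoint f n ε μ τ v) (i : Fin s) (hi : n i + 1 ≠ 0) :
    IsJoint f (n + Pi.single i 1) ε (fun j => μ j + w j (bb i)) τ (f (bb i) v) := by
  obtain ⟨h0, h1, h2, h3, h4⟩ := hv
  have key : ∀ (a b : Module.End k V), a = b → ∀ z, a z = b z := fun a b h z => by rw [h]
  refine ⟨?_, ?_, ?_, ?_, ?_⟩
  · intro hz
    have e1 := key _ _ (h.ab i i) v
    rw [Module.End.mul_apply, hz, map_zero, if_pos rfl, LinearMap.add_apply,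
      Module.End.mul_apply, h1, Module.End.one_apply] at e1
    have e2 : (n i + 1) • v = 0 := by rw [add_smul, one_smul]; exact e1.symm
    rcases smul_eq_zero.1 e2 with e3 | e3
    · exact hi e3
    · exact h0 e3
  · intro j
    have e1 := key _ _ (h.ab j i) v
    have e2 := key _ _ (h.bb' j i) (f (aa j) v)
    rw [Module.End.mul_apply, LinearMap.add_apply, Module.End.mul_apply] at e1
    rw [Module.End.mul_apply, Module.End.mul_apply] at e2
    rw [e1, map_add, e2, h1]
    by_cases hij : j = i
    · subst hij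
      rw [if_pos rfl, Module.End.one_apply, map_smul, Pi.add_apply, Pi.single_eq_same, add_smul,
        one_smul]
    · rw [if_neg hij, LinearMap.zero_apply, map_zero, map_smul, Pi.add_apply,
        Pi.single_eq_of_ne hij, add_zero, add_zero]
  · intro l
    have e1 := key _ _ (h.ub l i) v
    have e2 := key _ _ (h.vb l i) (f (ul l) v)
    rw [Module.End.mul_apply, Module.End.mul_apply] at e1 e2
    rw [e1, e2, h2, map_smul]
  · intro j
    have e1 := key _ _ (h.hx j (bb i)) v
    rw [Module.End.mul_apply, LinearMap.add_apply, Module.End.mul_apply, h3, map_smul,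
      LinearMap.smul_apply] at e1
    rw [e1, add_smul]
  · have e1 := key _ _ (h.sb i) v
    rw [Module.End.mul_apply, Module.End.mul_apply, h4, map_smul] at e1
    exact e1

theorem joint_raise' (h : Lim0 p w f) {n : Fin s → k} {ε : Fin q → k}
    {μ : Fin r → k} {τ : k} {v : V} (hv : IsJoint f n ε μ τ v) (i : Fin q) (hi : ε i = 0) :
    IsJoint f n (ε + Pi.single i 1) (fun j => μ j + w j (vv i)) (-τ) (f (vv i) v) := by
  obtain ⟨h0, h1, h2, h3, h4⟩ := hv
  have key : ∀ (a b : Module.End k V), a = b → ∀ z, a z = b z := fun a b h z => by rw [h]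
  have huv : ∀ j, f (ul j) (f (vv i) v) + f (vv i) (f (ul j) v) = if j = i then v else 0 := by
    intro j
    have e1 := key _ _ (h.uv j i) v
    rw [LinearMap.add_apply, Module.End.mul_apply, Module.End.mul_apply] at e1
    rw [e1]
    split_ifs <;> rfl
  have hvv : ∀ j z, f (vv j) (f (vv i) z) = -f (vv i) (f (vv j) z) := by
    intro j z
    have e1 := key _ _ (h.vv' j i) z
    rw [LinearMap.add_apply, Module.End.mul_apply, Module.End.mul_apply, LinearMap.zero_apply] at e1
    exact eq_neg_of_add_eq_zero_left e1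
  refine ⟨?_, ?_, ?_, ?_, ?_⟩
  · intro hz
    have e1 := huv i
    rw [hz, map_zero, h2, hi, zero_smul, if_pos rfl, add_zero] at e1
    exact h0 e1.symm
  · intro j
    have e1 := key _ _ (h.va i j) v
    have e2 := key _ _ (h.vb i j) (f (aa j) v)
    rw [Module.End.mul_apply, Module.End.mul_apply] at e1 e2
    rw [← e1, ← e2, h1, map_smul]
  · intro j
    have e1 : f (ul j) (f (vv i) v) = (if j = i then v else 0) - f (vv i) (f (ul j) v) :=
      eq_sub_of_add_eq (huv j)
    rw [e1, map_sub, hvv, h2, map_smul, sub_neg_eq_add]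
    by_cases hij : j = i
    · subst hij
      rw [if_pos rfl, Pi.add_apply, Pi.single_eq_same, hi, zero_smul, add_zero, zero_add,
        one_smul]
    · rw [if_neg hij, map_zero, zero_add, Pi.add_apply, Pi.single_eq_of_ne hij, add_zero]
  · intro j
    have e1 := key _ _ (h.hx j (vv i)) v
    rw [Module.End.mul_apply, LinearMap.add_apply, Module.End.mul_apply, h3, map_smul,
      LinearMap.smul_apply] at e1
    rw [e1, add_smul]
  · have e1 := key _ _ (h.sv i) v
    rw [Module.End.mul_apply, LinearMap.neg_apply, Module.End.mul_apply, h4, map_smul] at e1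
    rw [e1, neg_smul]

theorem labels_aux [CharP k p] [Fact p.Prime] (h : Lim0 p w f) (hw : WtSym p w)
    (hv0 : ∀ (μ : Fin r → k) (τ : k), (∀ j, μ j ^ p = μ j) → τ * τ = 1 →
      ∃ v, IsJoint f 0 0 μ τ v) (N : ℕ) :
    ∀ (n : Fin s → ℕ) (ε : Fin q → ℕ), (∀ i, n i < p) → (∀ l, ε l ≤ 1) →
      ∑ i, n i + ∑ l, ε l = N → ∀ (μ : Fin r → k) (τ : k), (∀ j, μ j ^ p = μ j) → τ * τ = 1 →
        ∃ v, IsJoint f (fun i => (n i : k)) (fun l => (ε l : k)) μ τ v := by
  induction N with
  | zero =>
    intro n ε hn hε hN μ τ hμ hτ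
    have h1 : ∀ i, n i = 0 := by
      intro i
      have := Finset.sum_eq_zero_iff.1 (Nat.eq_zero_of_add_eq_zero_right hN) i (Finset.mem_univ i)
      exact this
    have h2 : ∀ l, ε l = 0 := by
      intro i
      have := Finset.sum_eq_zero_iff.1 (Nat.eq_zero_of_add_eq_zero_left hN) i (Finset.mem_univ i)
      exact this
    obtain ⟨v, hv⟩ := hv0 μ τ hμ hτ
    refine ⟨v, ?_⟩
    have e1 : (fun i => (n i : k)) = 0 := by funext i; simp [h1]
    have e2 : (fun l => (ε l : k)) = 0 := by funext i; simp [h2]
    rw [e1, e2]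
    exact hv
  | succ N ih =>
    intro n ε hn hε hN μ τ hμ hτ
    by_cases hcase : ∃ i, n i ≠ 0
    · obtain ⟨i, hi⟩ := hcase
      let n' : Fin s → ℕ := fun j => if j = i then n i - 1 else n j
      have hnn : ∀ j, n j = n' j + (Pi.single i 1 : Fin s → ℕ) j := by
        intro j
        by_cases hj : j = i
        · subst hj
          simp only [n', if_true, Pi.single_eq_same]
          omega
        · simp [n', hj]
      have hsum : ∑ j, n j = ∑ j, n' j + 1 := by
        simp only [hnn, Finset.sum_add_distrib]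
        simp
      obtain ⟨v, hv⟩ := ih n' ε (by
        intro j
        by_cases hj : j = i
        · subst hj
          simp only [n', if_true]
          have := hn j
          omega
        · simp only [n', if_neg hj]; exact hn j) hε (by omega)
        (fun j => μ j - w j (bb i)) τ (by
          intro j
          rw [sub_pow_char, hμ, hw.pp]) hτ
      have h3 := joint_raise h hv i (by
        simp only [n', if_true]
        have h4 : ((n i - 1 : ℕ) : k) + 1 = (n i : k) := by
          have : n i = (n i - 1) + 1 := by omega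
          conv_rhs => rw [this]
          push_cast
          rfl
        rw [h4]
        intro h5
        rw [CharP.cast_eq_zero_iff k p] at h5
        exact absurd (Nat.le_of_dvd (Nat.pos_of_ne_zero hi) h5) (by have := hn i; omega))
      refine ⟨f (bb i) v, ?_⟩
      convert h3 using 1
      · funext j
        rw [hnn j]
        by_cases hj : j = i
        · subst hj; simp
        · simp [hj]
      · funext j
        ring
    · push Not at hcase
      obtain ⟨i, hi⟩ : ∃ i, ε i ≠ 0 := by
        by_contra hcon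
        push Not at hcon
        simp [hcase, hcon] at hN
      let ε' : Fin q → ℕ := fun j => if j = i then 0 else ε j
      have hεi : ε i = 1 := by have := hε i; omega
      have hnn : ∀ j, ε j = ε' j + (Pi.single i 1 : Fin q → ℕ) j := by
        intro j
        by_cases hj : j = i
        · subst hj
          simp only [ε', if_true, Pi.single_eq_same]
          omega
        · simp [ε', hj]
      have hsum : ∑ j, ε j = ∑ j, ε' j + 1 := by
        simp only [hnn, Finset.sum_add_distrib]
        simp
      obtain ⟨v, hv⟩ := ih n ε' hn (by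
        intro j
        by_cases hj : j = i
        · subst hj
          simp only [ε', if_true]
          omega
        · simp only [ε', if_neg hj]; exact hε j) (by omega)
        (fun j => μ j - w j (vv i)) (-τ) (by
          intro j
          rw [sub_pow_char, hμ, hw.pp]) (by rw [neg_mul_neg]; exact hτ)
      have h3 := joint_raise' h hv i (by simp [ε'])
      refine ⟨f (vv i) v, ?_⟩
      convert h3 using 1
      · funext j
        rw [hnn j]
        by_cases hj : j = i
        · subst hj; simp
        · simp [hj]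
      · funext j
        ring
      · ring

/-- The counting operator. -/
noncomputable def cop {A : Type*} [Ring A] [Algebra k A] (f : Lt s q o r → A) (ca : Fin s → k)
    (cu : Fin q → k) (ch : Fin r → k) (cs : k) : A :=
  ∑ i, ca i • (f (bb i) * f (aa i)) + ∑ l, cu l • (f (vv l) * f (ul l)) +
    ∑ j, ch j • f (hh j) + cs • f sg

theorem cop_joint {n : Fin s → k} {ε : Fin q → k} {μ : Fin r → k}
    {τ : k} {v : V} (hv : IsJoint f n ε μ τ v) (ca : Fin s → k)
    (cu : Fin q → k) (ch : Fin r → k) (cs : k) :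
    cop f ca cu ch cs v = (∑ i, ca i * n i + ∑ l, cu l * ε l + ∑ j, ch j * μ j + cs * τ) • v := by
  obtain ⟨h0, h1, h2, h3, h4⟩ := hv
  unfold cop
  simp only [LinearMap.add_apply, LinearMap.sum_apply, LinearMap.smul_apply, Module.End.mul_apply,
    h1, h2, h3, h4, smul_smul, add_smul, Finset.sum_smul]

/-- Many eigenvalues of a counting operator. -/
theorem exists_labels [CharP k p] [Fact p.Prime] [Infinite k] (h : Lim0 p w f)
    (hw : WtSym p w) (hk2 : (2 : k) ≠ 0)
    (hv0 : ∀ (μ : Fin r → k) (τ : k), (∀ j, μ j ^ p = μ j) → τ * τ = 1 →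
      ∃ v, IsJoint f 0 0 μ τ v) :
    ∃ (ca : Fin s → k) (cu : Fin q → k) (ch : Fin r → k) (cs : k) (Z : Finset k),
      Z.card = p ^ s * 2 ^ q * p ^ r * 2 ∧
        ∀ κ ∈ Z, ∃ v, v ≠ 0 ∧ cop f ca cu ch cs v = κ • v := by
  classical
  let T := (Fin s → Fin p) × (Fin q → Fin 2) × (Fin r → Fin p) × Fin 2
  let M := (Fin s → k) × (Fin q → k) × (Fin r → k) × k
  let tau : Fin 2 → k := fun i => if i = 0 then 1 else -1
  let lab : T → M := fun t => (fun i => ((t.1 i : ℕ) : k), fun l => ((t.2.1 l : ℕ) : k),
    fun j => ((t.2.2.1 j : ℕ) : k), tau t.2.2.2)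
  have hcast : ∀ a b : ℕ, a < p → b < p → (a : k) = b → a = b := by
    intro a b ha hb hab
    have := (CharP.natCast_eq_natCast k p).1 hab
    rwa [Nat.ModEq, Nat.mod_eq_of_lt ha, Nat.mod_eq_of_lt hb] at this
  have hp2 : 2 ≤ p := (Fact.out : p.Prime).two_le
  have htau : Function.Injective tau := by
    intro a b hab
    have h11 : (1 : k) ≠ -1 := by
      intro h1
      apply hk2
      have : (2 : k) = 1 - -1 := by ring
      rw [this, ← h1, sub_self]
    fin_cases a <;> fin_cases b <;> simp [tau] at hab ⊢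
    · exact h11 hab
    · exact h11 hab.symm
  have hinj : Function.Injective lab := by
    rintro ⟨a, b, c, d⟩ ⟨a', b', c', d'⟩ hab
    have h1 := congrArg (fun m : M => m.1) hab
    have h2 := congrArg (fun m : M => m.2.1) hab
    have h3 := congrArg (fun m : M => m.2.2.1) hab
    have h4 := congrArg (fun m : M => m.2.2.2) hab
    have e1 : a = a' := by
      funext i
      exact Fin.ext (hcast _ _ (a i).2 (a' i).2 (congrFun h1 i))
    have e2 : b = b' := by
      funext i
      exact Fin.ext (hcast _ _ (lt_of_lt_of_le (b i).2 hp2) (lt_of_lt_of_le (b' i).2 hp2)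
        (congrFun h2 i))
    have e3 : c = c' := by
      funext i
      exact Fin.ext (hcast _ _ (c i).2 (c' i).2 (congrFun h3 i))
    have e4 : d = d' := htau h4
    rw [e1, e2, e3, e4]
  obtain ⟨φ, hφ⟩ := Module.exists_dual_forall_apply_ne_zero (K := k)
    (fun t : {tt : T × T // tt.1 ≠ tt.2} => lab t.1.1 - lab t.1.2)
    (fun t h0 => t.2 (hinj (sub_eq_zero.1 h0)))
  have hinj2 : Function.Injective fun t => φ (lab t) := by
    intro t t' ht
    by_contra hne
    apply hφ ⟨(t, t'), hne⟩
    show φ (lab t - lab t') = 0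
    rw [map_sub, sub_eq_zero]
    exact ht
  let ca : Fin s → k := fun i => φ (Pi.single i 1, 0, 0, 0)
  let cu : Fin q → k := fun i => φ (0, Pi.single i 1, 0, 0)
  let ch : Fin r → k := fun i => φ (0, 0, Pi.single i 1, 0)
  let cs : k := φ (0, 0, 0, 1)
  have hexp : ∀ m : M, φ m = ∑ i, ca i * m.1 i + ∑ l, cu l * m.2.1 l + ∑ j, ch j * m.2.2.1 j +
      cs * m.2.2.2 := by
    rintro ⟨a, b, c, d⟩
    have e1 : ((a, b, c, d) : M) = ∑ i, a i • ((Pi.single i 1, 0, 0, 0) : M) +
        ∑ i, b i • ((0, Pi.single i 1, 0, 0) : M) + ∑ i, c i • ((0, 0, Pi.single i 1, 0) : M) +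
        d • ((0, 0, 0, 1) : M) := by
      have e2 : ∀ {ι : Type} [Fintype ι] [DecidableEq ι] (a : ι → k),
          ∑ i, a i • (Pi.single i (1 : k) : ι → k) = a := by
        intro ι _ _ a
        funext j
        simp [Finset.sum_apply, Pi.single_apply]
      refine Prod.ext ?_ (Prod.ext ?_ (Prod.ext ?_ ?_))
      · simp only [Prod.fst_add, Prod.fst_sum, Prod.smul_fst, smul_zero, Finset.sum_const_zero,
          add_zero]
        exact (e2 a).symm
      · simp only [Prod.fst_add, Prod.snd_add, Prod.fst_sum, Prod.snd_sum, Prod.smul_fst,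
          Prod.smul_snd, smul_zero, Finset.sum_const_zero, add_zero, zero_add]
        exact (e2 b).symm
      · simp only [Prod.fst_add, Prod.snd_add, Prod.fst_sum, Prod.snd_sum, Prod.smul_fst,
          Prod.smul_snd, smul_zero, Finset.sum_const_zero, add_zero, zero_add]
        exact (e2 c).symm
      · simp only [Prod.snd_add, Prod.snd_sum,
          Prod.smul_snd, mul_zero, Finset.sum_const_zero, zero_add, smul_eq_mul,
          mul_one]
    rw [e1, map_add, map_add, map_add, map_sum, map_sum, map_sum, map_smul]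
    simp only [map_smul, smul_eq_mul]
    rw [← e1]
    simp only [ca, cu, ch, cs, mul_comm]
  refine ⟨ca, cu, ch, cs, Finset.univ.image fun t => φ (lab t), ?_, ?_⟩
  · rw [Finset.card_image_of_injective _ hinj2, Finset.card_univ]
    simp only [T, Fintype.card_prod, Fintype.card_pi, Fintype.card_fin, Finset.prod_const,
      Finset.card_univ]
    ring
  · intro κ hκ
    rw [Finset.mem_image] at hκ
    obtain ⟨t, -, rfl⟩ := hκ
    obtain ⟨v, hv⟩ := labels_aux h hw hv0 _ (fun i => (t.1 i : ℕ)) (fun l => (t.2.1 l : ℕ))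
      (fun i => (t.1 i).2) (fun l => Nat.lt_succ_iff.1 (t.2.1 l).2) rfl
      (fun j => ((t.2.2.1 j : ℕ) : k)) (tau t.2.2.2)
      (by
        intro j
        have := map_natCast (frobenius k p) (t.2.2.1 j : ℕ)
        rwa [frobenius_def] at this)
      (by
        simp only [tau]
        split_ifs <;> ring)
    refine ⟨v, hv.1, ?_⟩
    rw [cop_joint hv, hexp]

section order

/-- The position of a letter. -/
def enc : Lt s q o r → ℕ
  | Sum.inl _ => 0
  | Sum.inr (Sum.inl (Sum.inl j)) => 1 + j
  | Sum.inr (Sum.inl (Sum.inr (Sum.inl i))) => 1 + r + i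
  | Sum.inr (Sum.inl (Sum.inr (Sum.inr i))) => 1 + r + s + i
  | Sum.inr (Sum.inr (Sum.inl i)) => 1 + r + s + s + i
  | Sum.inr (Sum.inr (Sum.inr (Sum.inl i))) => 1 + r + s + s + q + i
  | Sum.inr (Sum.inr (Sum.inr (Sum.inr i))) => 1 + r + s + s + q + q + i

theorem enc_inj : Function.Injective (enc : Lt s q o r → ℕ) := by
  rintro (⟨⟩ | ((x | (x | x)) | (x | (x | x)))) (⟨⟩ | ((y | (y | y)) | (y | (y | y)))) h <;>
    simp only [enc] at h <;>
    first
    | rfl
    | (exfalso; omega)
    | (congr; apply Fin.ext; omega)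

/-- The order of the letters. -/
@[reducible] noncomputable def ordLt : LinearOrder (Lt s q o r) := LinearOrder.lift' enc enc_inj

/-- The truncation exponents. -/
def nL (p : ℕ) : Lt s q o r → ℕ := fun x => if od x then 2 else p

/-- The polynomials defining the lowest vectors. -/
noncomputable def QL (p : ℕ) (μ : Fin r → k) (τ : k) : Lt s q o r → k[X]
  | Sum.inl _ => 1 + C τ * X
  | Sum.inr (Sum.inl (Sum.inl j)) => QQ p (μ j)
  | Sum.inr (Sum.inl (Sum.inr (Sum.inl _))) => 1
  | Sum.inr (Sum.inl (Sum.inr (Sum.inr _))) => X ^ (p - 1)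
  | Sum.inr (Sum.inr (Sum.inl _)) => 1
  | Sum.inr (Sum.inr (Sum.inr (Sum.inl _))) => X
  | Sum.inr (Sum.inr (Sum.inr (Sum.inr _))) => 1

/-- The list of the letters involved. -/
def LL (s q o r : ℕ) : List (Lt s q o r) :=
  sg :: ((List.finRange r).map hh ++ ((List.finRange s).map aa ++ (List.finRange q).map ul))

theorem LL_pairwise : (LL s q o r).Pairwise (fun x y => enc x < enc y) := by
  unfold LL
  rw [List.pairwise_cons]
  refine ⟨?_, ?_⟩
  · intro y hy
    simp only [List.mem_append, List.mem_map, List.mem_finRange, true_and] at hy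
    rcases hy with ⟨j, rfl⟩ | ⟨j, rfl⟩ | ⟨j, rfl⟩ <;> simp only [enc] <;> omega
  · rw [List.pairwise_append, List.pairwise_append, List.pairwise_map, List.pairwise_map,
      List.pairwise_map]
    refine ⟨?_, ⟨?_, ?_, ?_⟩, ?_⟩
    · refine (List.pairwise_lt_finRange r).imp ?_
      intro a b hab
      simp only [enc]
      have : (a : ℕ) < b := hab
      omega
    · refine (List.pairwise_lt_finRange s).imp ?_
      intro a b hab
      simp only [enc]
      have : (a : ℕ) < b := hab
      omega
    · refine (List.pairwise_lt_finRange q).imp ?_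
      intro a b hab
      simp only [enc]
      have : (a : ℕ) < b := hab
      omega
    · intro a ha b hb
      simp only [List.mem_map, List.mem_finRange, true_and] at ha hb
      obtain ⟨i, rfl⟩ := ha
      obtain ⟨j, rfl⟩ := hb
      simp only [enc]
      omega
    · intro a ha b hb
      simp only [List.mem_append, List.mem_map, List.mem_finRange, true_and] at ha hb
      obtain ⟨i, rfl⟩ := ha
      rcases hb with ⟨j, rfl⟩ | ⟨j, rfl⟩ <;> simp only [enc] <;> omega

theorem exists_v0 [CharP k p] [Fact p.Prime] (h : Lim0 p w f) (hw : WtSym p w) (hk2 : (2 : k) ≠ 0)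
    (hp3 : 3 ≤ p) (e : Basis ((x : Lt s q o r) → Fin (nL p x)) k V) (e0 : V)
    (he : ∀ t, e t = pwf f (@sw _ _ ordLt fun y => (t y : ℕ)) e0)
    (μ : Fin r → k) (τ : k) (hμ : ∀ j, μ j ^ p = μ j) (hτ : τ * τ = 1) :
    ∃ v, IsJoint f 0 0 μ τ v := by
  classical
  have hτ0 : τ ≠ 0 := by
    rintro rfl
    simp at hτ
  have hdegσ : (1 + C τ * X : k[X]).natDegree = 1 := by
    rw [add_comm]
    exact natDegree_linear hτ0
  have hnt : Nontrivial V := ⟨⟨e (fun x => ⟨0, by unfold nL; split_ifs <;> omega⟩), 0, e.ne_zero _⟩⟩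
  have hchar : CharP (Module.End k V) p :=
    charP_of_injective_algebraMap (algebraMap k (Module.End k V)).injective p
  have hQ0 : ∀ x : Lt s q o r, QL p μ τ x ≠ 0 := by
    rintro (⟨⟩ | ((x | (x | x)) | (x | (x | x))))
    · intro h0
      have : (1 + C τ * X : k[X]) = 0 := h0
      rw [this] at hdegσ
      simp at hdegσ
    · exact QQ_ne p (by omega) _
    · exact one_ne_zero
    · exact pow_ne_zero _ X_ne_zero
    · exact one_ne_zero
    · exact X_ne_zero
    · exact one_ne_zero
  have hQd : ∀ x : Lt s q o r, (QL p μ τ x).natDegree < nL p x := by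
    rintro (⟨⟩ | ((x | (x | x)) | (x | (x | x))))
    · show (1 + C τ * X : k[X]).natDegree < 2
      rw [hdegσ]; omega
    · exact QQ_natDegree p (by omega) _
    · show (1 : k[X]).natDegree < p
      rw [natDegree_one]; omega
    · show (X ^ (p - 1) : k[X]).natDegree < p
      rw [natDegree_X_pow]; omega
    · show (1 : k[X]).natDegree < 2
      rw [natDegree_one]; omega
    · show (X : k[X]).natDegree < 2
      rw [natDegree_X]; omega
    · show (1 : k[X]).natDegree < 2
      rw [natDegree_one]; omega
  have hne := (@prod_ne_zero k V (Lt s q o r) _ _ _ _ ordLt (nL p) f e e0 he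
    (fun x => by unfold nL; split_ifs <;> omega) (QL p μ τ) hQ0 hQd (LL s q o r)
    (LL_pairwise.imp fun h => h)).2
  let F : Lt s q o r → Module.End k V := fun x => aeval (f x) (QL p μ τ x)
  let Hp := (((List.finRange r).map hh).map F).prod
  let Re := (((List.finRange s).map aa ++ (List.finRange q).map ul : List (Lt s q o r)).map F).prod
  have hprod : ((LL s q o r).map F).prod = F sg * (Hp * Re) := by
    unfold LL
    rw [List.map_cons, List.prod_cons, List.map_append, List.prod_append]
  have hFsg : F sg = 1 + τ • f sg := by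
    show aeval (f sg) (1 + C τ * X) = _
    rw [map_add, map_one, map_mul, aeval_C, aeval_X, Algebra.smul_def]
  have hFh : ∀ j, F (hh j) = aeval (f (hh j)) (QQ p (μ j)) := fun j => rfl
  have hmem : ∀ x ∈ LL s q o r, x = sg ∨ (∃ j, x = hh j) ∨ (∃ i, x = aa i) ∨ ∃ l, x = ul l := by
    intro x hx
    unfold LL at hx
    simp only [List.mem_cons, List.mem_append, List.mem_map, List.mem_finRange, true_and] at hx
    rcases hx with h1 | ⟨j, rfl⟩ | ⟨j, rfl⟩ | ⟨j, rfl⟩
    · exact Or.inl h1
    · exact Or.inr (Or.inl ⟨j, rfl⟩)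
    · exact Or.inr (Or.inr (Or.inl ⟨j, rfl⟩))
    · exact Or.inr (Or.inr (Or.inr ⟨j, rfl⟩))
  refine ⟨((LL s q o r).map F).prod e0, hne, ?_, ?_, ?_, ?_⟩
  · -- annihilation operators
    intro i
    have h1 : f (aa i) * ((LL s q o r).map F).prod = 0 := by
      refine list_kill F _ _ ?_ ⟨aa i, ?_, ?_⟩
      · intro x hx
        rcases hmem x hx with rfl | ⟨j, rfl⟩ | ⟨j, rfl⟩ | ⟨j, rfl⟩
        · exact ⟨_, aeval_quasi _ _ _ (h.sa i).symm _⟩
        · refine ⟨_, aeval_quasi _ _ (f (hh j) - w j (aa i) • 1) ?_ _⟩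
          have := h.hx j (aa i)
          rw [sub_mul, this, smul_mul_assoc, one_mul]
          abel
        · exact ⟨_, aeval_quasi _ _ _ (h.aa' i j) _⟩
        · exact ⟨_, aeval_quasi _ _ _ (h.ua j i).symm _⟩
      · unfold LL; simp
      · show f (aa i) * aeval (f (aa i)) (X ^ (p - 1)) = 0
        rw [map_pow, aeval_X, ← pow_succ', Nat.sub_add_cancel (by omega), h.ap]
    rw [← Module.End.mul_apply (f (aa i)), h1]
    simp
  · intro i
    have h1 : f (ul i) * ((LL s q o r).map F).prod = 0 := by
      refine list_kill F _ _ ?_ ⟨ul i, ?_, ?_⟩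
      · intro x hx
        rcases hmem x hx with rfl | ⟨j, rfl⟩ | ⟨j, rfl⟩ | ⟨j, rfl⟩
        · refine ⟨_, aeval_quasi _ _ (-f sg) ?_ _⟩
          rw [neg_mul, h.su, neg_neg]
        · refine ⟨_, aeval_quasi _ _ (f (hh j) - w j (ul i) • 1) ?_ _⟩
          have := h.hx j (ul i)
          rw [sub_mul, this, smul_mul_assoc, one_mul]
          abel
        · exact ⟨_, aeval_quasi _ _ _ (h.ua i j) _⟩
        · refine ⟨_, aeval_quasi _ _ (-f (ul j)) ?_ _⟩
          rw [neg_mul]
          exact eq_neg_of_add_eq_zero_left (h.uu' i j)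
      · unfold LL; simp
      · show f (ul i) * aeval (f (ul i)) X = 0
        rw [aeval_X, h.u2 hk2]
    rw [← Module.End.mul_apply (f (ul i)), h1]
    simp
  · intro j
    have h1 : (f (hh j) - algebraMap k (Module.End k V) (μ j)) * Hp = 0 := by
      refine list_kill F _ _ ?_ ⟨hh j, ?_, ?_⟩
      · intro x hx
        simp only [List.mem_map, List.mem_finRange, true_and] at hx
        obtain ⟨j', rfl⟩ := hx
        refine ⟨_, aeval_quasi _ _ (f (hh j')) ?_ _⟩
        have h3 := h.hx j (hh j')
        rw [hw.hh, zero_smul, add_zero] at h3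
        rw [sub_mul, mul_sub, Algebra.commutes, h3]
      · simp
      · rw [hFh]
        exact QQ_kill p (by omega) (μ j) (hμ j) (f (hh j)) (h.hp j)
    have h2 : (f (hh j) - algebraMap k (Module.End k V) (μ j)) * ((LL s q o r).map F).prod = 0 := by
      rw [hprod, ← mul_assoc]
      have h3 : (f (hh j) - algebraMap k (Module.End k V) (μ j)) * F sg =
          F sg * (f (hh j) - algebraMap k (Module.End k V) (μ j)) := by
        rw [hFsg, sub_mul, mul_sub, Algebra.commutes, mul_add, add_mul, add_mul, mul_one, one_mul,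
          mul_smul_comm, smul_mul_assoc, smul_mul_assoc, h.sh, one_mul]
      rw [h3, mul_assoc, ← mul_assoc _ Hp, h1, zero_mul, mul_zero]
    have h4 := LinearMap.congr_fun h2 e0
    rw [Module.End.mul_apply, LinearMap.sub_apply, LinearMap.zero_apply, sub_eq_zero] at h4
    rw [h4]
    rfl
  · have h1 : f sg * ((LL s q o r).map F).prod = τ • ((LL s q o r).map F).prod := by
      rw [hprod, ← mul_assoc, ← smul_mul_assoc]
      congr 1
      rw [hFsg, mul_add, mul_one, mul_smul_comm, h.ss, smul_add, smul_smul, hτ, one_smul,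
        add_comm]
    have h4 := LinearMap.congr_fun h1 e0
    exact h4

end order

end Pool.Agent.Helper56.SKU
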