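import Mathlib

/-!
# Normal forms of invariant bilinear forms on weight modules
-/

namespace Pool.Agent.Helper56.SKU

open Module Polynomial

section wt

variable {k V : Type*} [Field k] [IsAlgClosed k] [AddCommGroup V] [Module k V]
  [FiniteDimensional k V] (p : ℕ) [Fact p.Prime] [CharP k p]

omit [Fact p.Prime] in
theorem wt_single (f : Module.End k V) (hf : f ^ p = f) (U : Submodule k V)
    (hU : ∀ v ∈ U, f v ∈ U) : U ≤ Submodule.span k {v | v ∈ U ∧ ∃ c : k, f v = c • v} := by
  let f' : Module.End k U := f.restrict hU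
  have hf' : f' ^ p = f' := by
    apply LinearMap.ext
    intro v
    apply Subtype.ext
    have h1 : ∀ n (v : U), (((f' ^ n) v : U) : V) = (f ^ n) v := by
      intro n
      induction n with
      | zero => intro v; rfl
      | succ n ih =>
        intro v
        rw [pow_succ, pow_succ, Module.End.mul_apply, Module.End.mul_apply, ih]
        rfl
    rw [h1, hf]
    rfl
  have hss : f'.IsSemisimple := by
    refine Module.End.isSemisimple_of_squarefree_aeval_eq_zero (p := X ^ p - X)
      (galois_poly_separable (K := k) p p dvd_rfl).squarefree ?_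
    rw [map_sub, map_pow, aeval_X, hf', sub_self]
  have htop : ⨆ μ : k, f'.eigenspace μ = ⊤ := by
    rw [← Module.End.iSup_maxGenEigenspace_eq_top f']
    refine iSup_congr fun μ => ?_
    rw [hss.isFinitelySemisimple.maxGenEigenspace_eq_eigenspace]
  intro u hu
  have h2 : (⟨u, hu⟩ : U) ∈ ⨆ μ : k, f'.eigenspace μ := by rw [htop]; trivial
  have h3 : (⨆ μ : k, f'.eigenspace μ) ≤
      (Submodule.span k {v | v ∈ U ∧ ∃ c : k, f v = c • v}).comap U.subtype := by
    rw [iSup_le_iff]
    intro μ v hv
    refine Submodule.subset_span ⟨v.2, μ, ?_⟩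
    have := Module.End.mem_eigenspace_iff.1 hv
    exact congrArg Subtype.val this
  exact h3 h2

variable {ι : Type*} [Finite ι] (H : ι → Module.End k V) (hH : ∀ j, H j ^ p = H j)
  (hc : ∀ i j, H i * H j = H j * H i)

include hH hc in
omit [Fact p.Prime] in
theorem wt_span (U : Submodule k V) (hU : ∀ j, ∀ v ∈ U, H j v ∈ U) :
    U ≤ Submodule.span k {v | v ∈ U ∧ ∃ c : ι → k, ∀ j, H j v = c j • v} := by
  classical
  have key : ∀ l : Finset ι, U ≤ Submodule.span k {v | v ∈ U ∧ ∃ c : ι → k, ∀ j ∈ l,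
      H j v = c j • v} := by
    intro l
    induction l using Finset.induction_on with
    | empty => intro u hu; exact Submodule.subset_span ⟨hu, 0, by simp⟩
    | insert j l _ ih =>
      refine ih.trans (Submodule.span_le.2 ?_)
      rintro v ⟨hv, c, hcv⟩
      let U' : Submodule k V := U ⊓ ⨅ i ∈ l, (H i).eigenspace (c i)
      have hmem : ∀ x, x ∈ U' ↔ x ∈ U ∧ ∀ i ∈ l, H i x = c i • x := by
        intro x
        simp [U', Submodule.mem_iInf]
      have hst : ∀ x ∈ U', H j x ∈ U' := by
        intro x hx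
        rw [hmem] at hx ⊢
        refine ⟨hU j x hx.1, fun i hi => ?_⟩
        rw [← Module.End.mul_apply, hc i j, Module.End.mul_apply, hx.2 i hi, map_smul]
      have h1 := wt_single p (H j) (hH j) U' hst ((hmem v).2 ⟨hv, hcv⟩)
      refine (Submodule.span_mono ?_) h1
      rintro x ⟨hx, d, hd⟩
      rw [hmem] at hx
      refine ⟨hx.1, Function.update c j d, ?_⟩
      intro i hi
      rcases Finset.mem_insert.1 hi with rfl | hi
      · rw [Function.update_self, hd]
      · by_cases hij : i = j
        · subst hij; rw [Function.update_self, hd]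
        · rw [Function.update_of_ne hij, hx.2 i hi]
  obtain ⟨_⟩ := nonempty_fintype ι
  refine (key Finset.univ).trans (Submodule.span_mono ?_)
  rintro v ⟨hv, c, hcv⟩
  exact ⟨hv, c, fun j => hcv j (Finset.mem_univ j)⟩

end wt

section wt2

variable {k V : Type*} [Field k] [AddCommGroup V] [Module k V] {ι : Type*}
  (H : ι → Module.End k V) (ω : V →ₗ[k] V →ₗ[k] k)
  (hinv : ∀ j x y, ω (H j x) y + ω x (H j y) = 0)

include hinv in
theorem wt_opp {x y : V} {c d : ι → k} (hx : ∀ j, H j x = c j • x) (hy : ∀ j, H j y = d j • y)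
    (hxy : ω x y ≠ 0) (j : ι) : d j = -c j := by
  have h1 := hinv j x y
  rw [hx, hy, map_smul, LinearMap.smul_apply, map_smul, smul_eq_mul, smul_eq_mul, ← add_mul] at h1
  have h2 := (mul_eq_zero.1 h1).resolve_right hxy
  linear_combination h2

end wt2

section darboux

variable {k V : Type*} [Field k] [AddCommGroup V] [Module k V]
  [FiniteDimensional k V] {ι : Type*} (H : ι → Module.End k V)
  (ω : V →ₗ[k] V →ₗ[k] k) (hinv : ∀ j x y, ω (H j x) y + ω x (H j y) = 0)
  (hsp : ∀ U : Submodule k V, (∀ j, ∀ v ∈ U, H j v ∈ U) →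
    U ≤ Submodule.span k {v | v ∈ U ∧ ∃ c : ι → k, ∀ j, H j v = c j • v})

include hsp in
omit [FiniteDimensional k V] in
theorem exists_pair (W : Submodule k V) (hW : ∀ j, ∀ v ∈ W, H j v ∈ W)
    (hne : ¬ ∀ w ∈ W, ∀ w' ∈ W, ω w w' = 0) :
    ∃ x ∈ W, ∃ y ∈ W, ∃ c d : ι → k, (∀ j, H j x = c j • x) ∧ (∀ j, H j y = d j • y) ∧
      ω x y ≠ 0 := by
  by_contra hcon
  push Not at hcon
  apply hne
  have h1 : ∀ x ∈ W, (∃ c : ι → k, ∀ j, H j x = c j • x) → ∀ w' ∈ W, ω x w' = 0 := by
    rintro x hx ⟨c, hc⟩ w' hw'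
    have h2 : Submodule.span k {v | v ∈ W ∧ ∃ c : ι → k, ∀ j, H j v = c j • v} ≤
        LinearMap.ker (ω x) := by
      rw [Submodule.span_le]
      rintro y ⟨hy, d, hd⟩
      exact hcon x hx y hy c d hc hd
    exact h2 (hsp W hW hw')
  intro w hw w' hw'
  have h2 : Submodule.span k {v | v ∈ W ∧ ∃ c : ι → k, ∀ j, H j v = c j • v} ≤
      LinearMap.ker (ω.flip w') := by
    rw [Submodule.span_le]
    rintro y ⟨hy, hd⟩
    exact h1 y hy hd w' hw'
  exact h2 (hsp W hW hw)

include hinv in
omit [FiniteDimensional k V] in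
theorem perp_stable {a : V} {c : ι → k} (ha : ∀ j, H j a = c j • a) (j : ι) {w : V}
    (hw : ω a w = 0) : ω a (H j w) = 0 := by
  have h1 := hinv j a w
  rw [ha, map_smul, LinearMap.smul_apply, hw, smul_zero, zero_add] at h1
  exact h1

include hinv hsp in
/-- Weight Darboux basis for an alternating form. -/
theorem darboux_alt (halt : ∀ x, ω x x = 0) : ∀ (N : ℕ) (W : Submodule k V), finrank k W ≤ N →
    (∀ j, ∀ v ∈ W, H j v ∈ W) →
    ∃ (s : ℕ) (b a : Fin s → V) (β : ι → Fin s → k), (∀ i, b i ∈ W) ∧ (∀ i, a i ∈ W) ∧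
      (∀ j i, H j (b i) = β j i • b i) ∧ (∀ j i, H j (a i) = (-β j i) • a i) ∧
      (∀ i i', ω (a i) (b i') = if i = i' then 1 else 0) ∧ (∀ i i', ω (a i) (a i') = 0) ∧
      (∀ i i', ω (b i) (b i') = 0) ∧
      ∀ w ∈ W, (∀ i, ω (a i) w = 0) → (∀ i, ω (b i) w = 0) → ∀ w' ∈ W, ω w w' = 0 := by
  have hanti : ∀ x y, ω x y = -ω y x := by
    intro x y
    have h1 := halt (x + y)
    simp only [map_add, LinearMap.add_apply, halt, zero_add, add_zero] at h1
    linear_combination h1
  intro N
  induction N with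
  | zero =>
    intro W hW0 hW
    have h0 : W = ⊥ := Submodule.finrank_eq_zero.1 (by omega)
    subst h0
    refine ⟨0, Fin.elim0, Fin.elim0, fun _ => Fin.elim0, fun i => i.elim0, fun i => i.elim0,
      fun _ i => i.elim0, fun _ i => i.elim0, fun i => i.elim0, fun i => i.elim0,
      fun i => i.elim0, ?_⟩
    intro w hw _ _ w' _
    rw [(Submodule.mem_bot k).1 hw, map_zero, LinearMap.zero_apply]
  | succ N ih =>
    intro W hWN hW
    by_cases hz : ∀ w ∈ W, ∀ w' ∈ W, ω w w' = 0
    · exact ⟨0, Fin.elim0, Fin.elim0, fun _ => Fin.elim0, fun i => i.elim0, fun i => i.elim0,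
        fun _ i => i.elim0, fun _ i => i.elim0, fun i => i.elim0, fun i => i.elim0,
        fun i => i.elim0, fun w hw _ _ w' hw' => hz w hw w' hw'⟩
    obtain ⟨x, hx, y, hy, c, d, hxc, hyd, hxy⟩ := exists_pair H ω hsp W hW hz
    have hdc := wt_opp H ω hinv hxc hyd hxy
    let a0 : V := (ω x y)⁻¹ • x
    have ha0W : a0 ∈ W := W.smul_mem _ hx
    have hab : ω a0 y = 1 := by
      simp only [a0, map_smul, LinearMap.smul_apply, smul_eq_mul]
      exact inv_mul_cancel₀ hxy
    have hba : ω y a0 = -1 := by rw [hanti, hab]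
    have ha0 : ∀ j, H j a0 = c j • a0 := by
      intro j
      simp only [a0, map_smul, hxc, smul_smul, mul_comm]
    let W' : Submodule k V := W ⊓ (LinearMap.ker (ω a0) ⊓ LinearMap.ker (ω y))
    have hmem : ∀ w, w ∈ W' ↔ w ∈ W ∧ ω a0 w = 0 ∧ ω y w = 0 := by
      intro w
      simp [W']
    have hW' : ∀ j, ∀ v ∈ W', H j v ∈ W' := by
      intro j v hv
      rw [hmem] at hv ⊢
      exact ⟨hW j v hv.1, perp_stable H ω hinv ha0 j hv.2.1, perp_stable H ω hinv hyd j hv.2.2⟩
    have hlt : finrank k W' < finrank k W := by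
      apply Submodule.finrank_lt_finrank_of_lt
      refine lt_of_le_of_ne inf_le_left ?_
      intro h
      have : y ∈ W' := by rw [h]; exact hy
      rw [hmem, hab] at this
      exact one_ne_zero this.2.1
    obtain ⟨s, b, a, β, hbW, haW, hb, ha, h1, h2, h3, h4⟩ := ih W' (by omega) hW'
    have hb' := fun i => (hmem (b i)).1 (hbW i)
    have ha' := fun i => (hmem (a i)).1 (haW i)
    refine ⟨s + 1, Fin.cons y b, Fin.cons a0 a, fun j => Fin.cons (d j) (β j), ?_, ?_, ?_, ?_, ?_,
      ?_, ?_, ?_⟩
    · intro i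
      refine Fin.cases ?_ (fun i => ?_) i
      · exact hy
      · exact (hb' i).1
    · intro i
      refine Fin.cases ?_ (fun i => ?_) i
      · exact ha0W
      · exact (ha' i).1
    · intro j i
      refine Fin.cases ?_ (fun i => ?_) i
      · exact hyd j
      · exact hb j i
    · intro j i
      refine Fin.cases ?_ (fun i => ?_) i
      · simp only [Fin.cons_zero]
        rw [hdc, neg_neg]
        exact ha0 j
      · exact ha j i
    · intro i i'
      refine Fin.cases ?_ (fun i => ?_) i
      · refine Fin.cases ?_ (fun i' => ?_) i'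
        · simp only [Fin.cons_zero, if_true]
          exact hab
        · simp only [Fin.cons_zero, Fin.cons_succ]
          rw [(hb' i').2.1, if_neg (Fin.succ_ne_zero i').symm]
      · refine Fin.cases ?_ (fun i' => ?_) i'
        · simp only [Fin.cons_zero, Fin.cons_succ]
          rw [hanti, (ha' i).2.2, neg_zero, if_neg (Fin.succ_ne_zero i)]
        · simp only [Fin.cons_succ, h1, Fin.succ_inj]
    · intro i i'
      refine Fin.cases ?_ (fun i => ?_) i
      · refine Fin.cases ?_ (fun i' => ?_) i'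
        · simp only [Fin.cons_zero]
          exact halt _
        · simp only [Fin.cons_zero, Fin.cons_succ]
          exact (ha' i').2.1
      · refine Fin.cases ?_ (fun i' => ?_) i'
        · simp only [Fin.cons_zero, Fin.cons_succ]
          rw [hanti, (ha' i).2.1, neg_zero]
        · exact h2 i i'
    · intro i i'
      refine Fin.cases ?_ (fun i => ?_) i
      · refine Fin.cases ?_ (fun i' => ?_) i'
        · simp only [Fin.cons_zero]
          exact halt _
        · simp only [Fin.cons_zero, Fin.cons_succ]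
          exact (hb' i').2.2
      · refine Fin.cases ?_ (fun i' => ?_) i'
        · simp only [Fin.cons_zero, Fin.cons_succ]
          rw [hanti, (hb' i).2.2, neg_zero]
        · exact h3 i i'
    · intro w hw hwa hwb w' hw'
      have e1 : ω a0 w = 0 := hwa 0
      have e2 : ω y w = 0 := hwb 0
      have hwW' : w ∈ W' := (hmem w).2 ⟨hw, e1, e2⟩
      have h5 := h4 w hwW' (fun i => hwa i.succ) (fun i => hwb i.succ)
      let w'' : V := w' - ω a0 w' • y + ω y w' • a0
      have hw'' : w'' ∈ W' := by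
        rw [hmem]
        refine ⟨W.add_mem (W.sub_mem hw' (W.smul_mem _ hy)) (W.smul_mem _ ha0W), ?_, ?_⟩
        · simp only [w'', map_add, map_sub, map_smul, hab, halt, smul_eq_mul]
          ring
        · simp only [w'', map_add, map_sub, map_smul, hba, halt, smul_eq_mul]
          ring
      have h6 := h5 w'' hw''
      simp only [w'', map_add, map_sub, map_smul] at h6
      rw [hanti w y, hanti w a0, e1, e2] at h6
      simpa using h6

/-- A hyperbolic pair of weight vectors. -/
def HypPair (W : Submodule k V) : Prop := ∃ x ∈ W, ∃ y ∈ W, ∃ c : ι → k,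
  (∀ j, H j x = (-c j) • x) ∧ (∀ j, H j y = c j • y) ∧ ω x x = 0 ∧ ω y y = 0 ∧ ω x y = 1

include hinv in
omit [FiniteDimensional k V] in
theorem hyp_of_wt (h2 : (2 : k) ≠ 0) (W : Submodule k V) {x y : V} (hx : x ∈ W) (hy : y ∈ W)
    {c d : ι → k} (hxc : ∀ j, H j x = c j • x) (hyd : ∀ j, H j y = d j • y) (hxy : ω x y ≠ 0)
    (hno : ¬ HypPair H ω W) : (∀ j, H j x = 0) ∧ (∀ j, H j y = 0) := by
  have hdc := wt_opp H ω hinv hxc hyd hxy
  have hself : ∀ {z : V} {e : ι → k}, (∀ j, H j z = e j • z) → (∃ j, e j ≠ 0) → ω z z = 0 := by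
    intro z e hz ⟨j, hj⟩
    by_contra hne
    have h3 := wt_opp H ω hinv hz hz hne j
    apply hj
    have h4 : (2 : k) * e j = 0 := by linear_combination h3
    exact (mul_eq_zero.1 h4).resolve_left h2
  by_cases hc : ∃ j, c j ≠ 0
  · exfalso
    apply hno
    have hd : ∃ j, d j ≠ 0 := by
      obtain ⟨j, hj⟩ := hc
      exact ⟨j, by rw [hdc]; exact neg_ne_zero.2 hj⟩
    refine ⟨(ω x y)⁻¹ • x, W.smul_mem _ hx, y, hy, d, ?_, hyd, ?_, hself hyd hd, ?_⟩
    · intro j
      rw [map_smul, hxc, hdc, neg_neg, smul_smul, smul_smul, mul_comm]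
    · simp only [map_smul, LinearMap.smul_apply, hself hxc hc, smul_zero]
    · simp only [map_smul, LinearMap.smul_apply, smul_eq_mul]
      exact inv_mul_cancel₀ hxy
  · push Not at hc
    refine ⟨fun j => by rw [hxc, hc, zero_smul], fun j => by rw [hyd, hdc, hc, neg_zero, zero_smul]⟩

omit [FiniteDimensional k V] in
/-- A vector of weight zero with non-zero square. -/
theorem exists_square [IsAlgClosed k] (h2 : (2 : k) ≠ 0) (hsym : ∀ x y, ω x y = ω y x)
    (W : Submodule k V) {x y : V} (hx : x ∈ W) (hy : y ∈ W) (hx0 : ∀ j, H j x = 0)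
    (hy0 : ∀ j, H j y = 0) (hxy : ω x y ≠ 0) : ∃ z ∈ W, (∀ j, H j z = 0) ∧ ω z z = 2 := by
  obtain ⟨z, hz, hz0, hzz⟩ : ∃ z ∈ W, (∀ j, H j z = 0) ∧ ω z z ≠ 0 := by
    by_cases hxx : ω x x = 0
    · by_cases hyy : ω y y = 0
      · refine ⟨x + y, W.add_mem hx hy, fun j => by rw [map_add, hx0, hy0, add_zero], ?_⟩
        simp only [map_add, LinearMap.add_apply, hxx, hyy]
        rw [hsym y x]
        intro h
        apply hxy
        have : (2 : k) * ω x y = 0 := by linear_combination h
        exact (mul_eq_zero.1 this).resolve_left h2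
      · exact ⟨y, hy, hy0, hyy⟩
    · exact ⟨x, hx, hx0, hxx⟩
  obtain ⟨c, hc⟩ := IsAlgClosed.exists_pow_nat_eq (2 / ω z z) (n := 2) (by norm_num)
  refine ⟨c • z, W.smul_mem _ hz, fun j => by rw [map_smul, hz0, smul_zero], ?_⟩
  simp only [map_smul, LinearMap.smul_apply, smul_eq_mul]
  rw [← mul_assoc, ← pow_two, hc, div_mul_cancel₀ _ hzz]

include hinv hsp in
/-- Weight Darboux basis for a symmetric form. -/
theorem darboux_sym [IsAlgClosed k] (h2 : (2 : k) ≠ 0) (hsym : ∀ x y, ω x y = ω y x) :
    ∀ (N : ℕ) (W : Submodule k V), finrank k W ≤ N → (∀ j, ∀ v ∈ W, H j v ∈ W) →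
    ∃ (q o : ℕ) (v u : Fin q → V) (y : Fin o → V) (β : ι → Fin q → k), o ≤ 1 ∧
      (∀ i, v i ∈ W) ∧ (∀ i, u i ∈ W) ∧ (∀ i, y i ∈ W) ∧
      (∀ j i, H j (v i) = β j i • v i) ∧ (∀ j i, H j (u i) = (-β j i) • u i) ∧
      (∀ j i, H j (y i) = 0) ∧
      (∀ i i', ω (u i) (v i') = if i = i' then 1 else 0) ∧ (∀ i i', ω (u i) (u i') = 0) ∧
      (∀ i i', ω (v i) (v i') = 0) ∧ (∀ i i', ω (y i) (y i') = 2) ∧
      (∀ i i', ω (y i) (u i') = 0) ∧ (∀ i i', ω (y i) (v i') = 0) ∧
      ∀ w ∈ W, (∀ i, ω (u i) w = 0) → (∀ i, ω (v i) w = 0) → (∀ i, ω (y i) w = 0) →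
        ∀ w' ∈ W, ω w w' = 0 := by
  intro N
  induction N with
  | zero =>
    intro W hW0 hW
    have h0 : W = ⊥ := Submodule.finrank_eq_zero.1 (by omega)
    subst h0
    refine ⟨0, 0, Fin.elim0, Fin.elim0, Fin.elim0, fun _ => Fin.elim0, zero_le_one,
      fun i => i.elim0, fun i => i.elim0, fun i => i.elim0,
      fun _ i => i.elim0, fun _ i => i.elim0, fun _ i => i.elim0, fun i => i.elim0,
      fun i => i.elim0, fun i => i.elim0, fun i => i.elim0, fun i => i.elim0,
      fun i => i.elim0, ?_⟩
    intro w hw _ _ _ w' _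
    rw [(Submodule.mem_bot k).1 hw, map_zero, LinearMap.zero_apply]
  | succ N ih =>
    intro W hWN hW
    by_cases hhyp : HypPair H ω W
    · obtain ⟨x, hx, y, hy, c, hxc, hyc, hxx, hyy, hxy⟩ := hhyp
      have hyx : ω y x = 1 := by rw [hsym, hxy]
      let W' : Submodule k V := W ⊓ (LinearMap.ker (ω x) ⊓ LinearMap.ker (ω y))
      have hmem : ∀ w, w ∈ W' ↔ w ∈ W ∧ ω x w = 0 ∧ ω y w = 0 := by
        intro w
        simp [W']
      have hW' : ∀ j, ∀ v ∈ W', H j v ∈ W' := by
        intro j v hv
        rw [hmem] at hv ⊢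
        exact ⟨hW j v hv.1, perp_stable H ω hinv (c := fun j => -c j) hxc j hv.2.1,
          perp_stable H ω hinv hyc j hv.2.2⟩
      have hlt : finrank k W' < finrank k W := by
        apply Submodule.finrank_lt_finrank_of_lt
        refine lt_of_le_of_ne inf_le_left ?_
        intro h
        have : y ∈ W' := by rw [h]; exact hy
        rw [hmem, hxy] at this
        exact one_ne_zero this.2.1
      obtain ⟨q, o, v, u, z, β, ho, hvW, huW, hzW, hv, hu, hz, h1, h2', h3, h4, h5, h6, h7⟩ :=
        ih W' (by omega) hW'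
      have hv' := fun i => (hmem (v i)).1 (hvW i)
      have hu' := fun i => (hmem (u i)).1 (huW i)
      have hz' := fun i => (hmem (z i)).1 (hzW i)
      refine ⟨q + 1, o, Fin.cons y v, Fin.cons x u, z, fun j => Fin.cons (c j) (β j), ho,
        ?_, ?_, fun i => (hz' i).1, ?_, ?_, hz, ?_, ?_, ?_, h4, ?_, ?_, ?_⟩
      · intro i
        refine Fin.cases ?_ (fun i => ?_) i
        · exact hy
        · exact (hv' i).1
      · intro i
        refine Fin.cases ?_ (fun i => ?_) i
        · exact hx
        · exact (hu' i).1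
      · intro j i
        refine Fin.cases ?_ (fun i => ?_) i
        · exact hyc j
        · exact hv j i
      · intro j i
        refine Fin.cases ?_ (fun i => ?_) i
        · exact hxc j
        · exact hu j i
      · intro i i'
        refine Fin.cases ?_ (fun i => ?_) i
        · refine Fin.cases ?_ (fun i' => ?_) i'
          · simp only [Fin.cons_zero, if_true]
            exact hxy
          · simp only [Fin.cons_zero, Fin.cons_succ]
            rw [(hv' i').2.1, if_neg (Fin.succ_ne_zero i').symm]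
        · refine Fin.cases ?_ (fun i' => ?_) i'
          · simp only [Fin.cons_zero, Fin.cons_succ]
            rw [hsym, (hu' i).2.2, if_neg (Fin.succ_ne_zero i)]
          · simp only [Fin.cons_succ, h1, Fin.succ_inj]
      · intro i i'
        refine Fin.cases ?_ (fun i => ?_) i
        · refine Fin.cases ?_ (fun i' => ?_) i'
          · exact hxx
          · simp only [Fin.cons_zero, Fin.cons_succ]
            exact (hu' i').2.1
        · refine Fin.cases ?_ (fun i' => ?_) i'
          · simp only [Fin.cons_zero, Fin.cons_succ]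
            rw [hsym, (hu' i).2.1]
          · exact h2' i i'
      · intro i i'
        refine Fin.cases ?_ (fun i => ?_) i
        · refine Fin.cases ?_ (fun i' => ?_) i'
          · exact hyy
          · simp only [Fin.cons_zero, Fin.cons_succ]
            exact (hv' i').2.2
        · refine Fin.cases ?_ (fun i' => ?_) i'
          · simp only [Fin.cons_zero, Fin.cons_succ]
            rw [hsym, (hv' i).2.2]
          · exact h3 i i'
      · intro i i'
        refine Fin.cases ?_ (fun i' => ?_) i'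
        · simp only [Fin.cons_zero]
          rw [hsym, (hz' i).2.1]
        · exact h5 i i'
      · intro i i'
        refine Fin.cases ?_ (fun i' => ?_) i'
        · simp only [Fin.cons_zero]
          rw [hsym, (hz' i).2.2]
        · exact h6 i i'
      · intro w hw hwu hwv hwz w' hw'
        have e1 : ω x w = 0 := hwu 0
        have e2 : ω y w = 0 := hwv 0
        have hwW' : w ∈ W' := (hmem w).2 ⟨hw, e1, e2⟩
        have h8 := h7 w hwW' (fun i => hwu i.succ) (fun i => hwv i.succ) hwz
        let w'' : V := w' - ω x w' • y - ω y w' • x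
        have hw'' : w'' ∈ W' := by
          rw [hmem]
          refine ⟨W.sub_mem (W.sub_mem hw' (W.smul_mem _ hy)) (W.smul_mem _ hx), ?_, ?_⟩
          · simp only [w'', map_sub, map_smul, hxy, hxx, smul_eq_mul]
            ring
          · simp only [w'', map_sub, map_smul, hyx, hyy, smul_eq_mul]
            ring
        have h9 := h8 w'' hw''
        simp only [w'', map_sub, map_smul] at h9
        rw [hsym w y, hsym w x, e1, e2] at h9
        simpa using h9
    · by_cases hz : ∀ w ∈ W, ∀ w' ∈ W, ω w w' = 0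
      · exact ⟨0, 0, Fin.elim0, Fin.elim0, Fin.elim0, fun _ => Fin.elim0, zero_le_one,
          fun i => i.elim0, fun i => i.elim0, fun i => i.elim0,
          fun _ i => i.elim0, fun _ i => i.elim0, fun _ i => i.elim0, fun i => i.elim0,
          fun i => i.elim0, fun i => i.elim0, fun i => i.elim0, fun i => i.elim0,
          fun i => i.elim0, fun w hw _ _ _ w' hw' => hz w hw w' hw'⟩
      obtain ⟨x, hx, y, hy, c, d, hxc, hyd, hxy⟩ := exists_pair H ω hsp W hW hz
      obtain ⟨hx0, hy0⟩ := hyp_of_wt H ω hinv h2 W hx hy hxc hyd hxy hhyp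
      obtain ⟨z, hzW, hz0, hzz⟩ := exists_square H ω h2 hsym W hx hy hx0 hy0 hxy
      let W' : Submodule k V := W ⊓ LinearMap.ker (ω z)
      have hmem : ∀ w, w ∈ W' ↔ w ∈ W ∧ ω z w = 0 := by
        intro w
        simp [W']
      have hW' : ∀ j, ∀ v ∈ W', H j v ∈ W' := by
        intro j v hv
        rw [hmem] at hv ⊢
        exact ⟨hW j v hv.1, perp_stable H ω hinv (c := fun _ => 0)
          (fun j => by rw [hz0, zero_smul]) j hv.2⟩
      have hW'0 : ∀ w ∈ W', ∀ w' ∈ W', ω w w' = 0 := by
        by_contra hne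
        obtain ⟨x', hx', y', hy', c', d', hxc', hyd', hxy'⟩ := exists_pair H ω hsp W' hW' hne
        obtain ⟨hx0', hy0'⟩ := hyp_of_wt H ω hinv h2 W ((hmem _).1 hx').1 ((hmem _).1 hy').1
          hxc' hyd' hxy' hhyp
        obtain ⟨t, htW, ht0, htt⟩ := exists_square H ω h2 hsym W' hx' hy' hx0' hy0' hxy'
        obtain ⟨htW, hzt⟩ := (hmem t).1 htW
        have htz : ω t z = 0 := by rw [hsym, hzt]
        obtain ⟨im, him⟩ := IsAlgClosed.exists_pow_nat_eq (-1 : k) (n := 2) (by norm_num)
        apply hhyp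
        have h22 : (2 : k)⁻¹ * 2 = 1 := inv_mul_cancel₀ h2
        refine ⟨(2 : k)⁻¹ • (z + im • t), W.smul_mem _ (W.add_mem hzW (W.smul_mem _ htW)),
          (2 : k)⁻¹ • (z - im • t), W.smul_mem _ (W.sub_mem hzW (W.smul_mem _ htW)), fun _ => 0,
          ?_, ?_, ?_, ?_, ?_⟩
        · intro j
          simp only [map_smul, map_add, hz0, ht0, smul_zero, add_zero, neg_zero, zero_smul]
        · intro j
          simp only [map_smul, map_sub, hz0, ht0, smul_zero, sub_zero, zero_smul]
        · simp only [map_smul, map_add, LinearMap.smul_apply, LinearMap.add_apply, hzz, hzt, htz,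
            htt, smul_eq_mul]
          linear_combination ((2 : k)⁻¹ * (2 : k)⁻¹ * 2) * him
        · simp only [map_smul, map_sub, LinearMap.smul_apply, LinearMap.sub_apply, hzz, hzt, htz,
            htt, smul_eq_mul]
          linear_combination ((2 : k)⁻¹ * (2 : k)⁻¹ * 2) * him
        · simp only [map_smul, map_sub, map_add, LinearMap.smul_apply, LinearMap.add_apply, hzz,
            hzt, htz, htt, smul_eq_mul]
          linear_combination (-((2 : k)⁻¹ * (2 : k)⁻¹ * 2)) * him + ((2 : k)⁻¹ * 2 + 1) * h22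
      refine ⟨0, 1, Fin.elim0, Fin.elim0, fun _ => z, fun _ => Fin.elim0, le_rfl,
          fun i => i.elim0, fun i => i.elim0, fun _ => hzW,
          fun _ i => i.elim0, fun _ i => i.elim0, fun j _ => hz0 j, fun i => i.elim0,
          fun i => i.elim0, fun i => i.elim0, fun _ _ => hzz, fun _ i => i.elim0,
          fun _ i => i.elim0, ?_⟩
      intro w hw _ _ hwz w' hw'
      have e1 : ω z w = 0 := hwz 0
      have hwW' : w ∈ W' := (hmem w).2 ⟨hw, e1⟩
      let w'' : V := w' - (ω z w' * (2 : k)⁻¹) • z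
      have hw'' : w'' ∈ W' := by
        rw [hmem]
        refine ⟨W.sub_mem hw' (W.smul_mem _ hzW), ?_⟩
        simp only [w'', map_sub, map_smul, hzz, smul_eq_mul]
        rw [mul_assoc, inv_mul_cancel₀ h2, mul_one, sub_self]
      have h9 := hW'0 w hwW' w'' hw''
      simp only [w'', map_sub, map_smul] at h9
      rw [hsym w z, e1] at h9
      simpa using h9

end darboux

end Pool.Agent.Helper56.SKU
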