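import Mathlib
import Pool.Agent.Helper56.SKU.Wt
import Pool.Agent.Helper56.SKU.Lim0
import Pool.Agent.Helper56.SKW.ToAlg

/-!
# Normal form of a Lie superalgebra with a toral stabiliser
-/

namespace Pool.Agent.Helper56.SKU

open Module Pool.Agent.Helper56.SKW

section dual

variable {k V Y : Type*} [Field k] [AddCommGroup V] [Module k V] [Fintype Y] [DecidableEq Y]
  (F : Y → V) (φ : Y → V →ₗ[k] k) (hφ : ∀ y y', φ y (F y') = if y = y' then 1 else 0)

include hφ in
theorem dual_sum (c : Y → k) (y : Y) : φ y (∑ y', c y' • F y') = c y := by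
  simp only [map_sum, map_smul, hφ, smul_eq_mul, mul_ite, mul_one, mul_zero]
  simp

include hφ in
theorem dual_indep : LinearIndependent k F := by
  rw [Fintype.linearIndependent_iff]
  intro c hc y
  have := dual_sum F φ hφ c y
  rw [hc, map_zero] at this
  exact this.symm

include hφ in
theorem dual_sub (v : V) (y : Y) : φ y (v - ∑ y', φ y' v • F y') = 0 := by
  rw [map_sub, dual_sum F φ hφ fun y' => φ y' v, sub_self]

include hφ in
theorem dual_basis (T : Submodule k V) (hT : ∀ v ∈ T, ∀ y, φ y v = 0)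
    (hT' : ∀ v, (∀ y, φ y v = 0) → v ∈ T) {ι : Type*} (h : ι → V) (hli : LinearIndependent k h)
    (hspan : Submodule.span k (Set.range h) = T) :
    LinearIndependent k (Sum.elim h F) ∧ ⊤ ≤ Submodule.span k (Set.range (Sum.elim h F)) := by
  constructor
  · refine LinearIndependent.sum_type hli (dual_indep F φ hφ) ?_
    rw [hspan, Submodule.disjoint_def]
    intro x hx hx'
    obtain ⟨c, rfl⟩ := (Submodule.mem_span_range_iff_exists_fun k).1 hx'
    refine Finset.sum_eq_zero fun y _ => ?_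
    rw [← dual_sum F φ hφ c y, hT _ hx y, zero_smul]
  · intro v _
    have h1 := hT' _ (dual_sub F φ hφ v)
    rw [← hspan] at h1
    have h2 : v = (v - ∑ y', φ y' v • F y') + ∑ y', φ y' v • F y' := by abel
    rw [h2]
    refine Submodule.add_mem _ ?_ (Submodule.sum_mem _ fun y _ => Submodule.smul_mem _ _ ?_)
    · refine (Submodule.span_mono ?_) h1
      rintro _ ⟨i, rfl⟩
      exact ⟨Sum.inl i, rfl⟩
    · exact Submodule.subset_span ⟨Sum.inr y, rfl⟩

end dual

section nf

variable {k L₀ L₁ : Type*} [Field k] [AddCommGroup L₀] [Module k L₀] [AddCommGroup L₁]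
  [Module k L₁]

/-- The normal form. -/
structure NF (g : LieSuper k L₀ L₁) (θ : L₀ →ₗ[k] k) (p : ℕ) {r s q o : ℕ}
    (b₀ : Basis (Fin r ⊕ (Fin s ⊕ Fin s)) k L₀) (b₁ : Basis (Fin q ⊕ (Fin q ⊕ Fin o)) k L₁)
    (w : Fin r → Lt s q o r → k) : Prop where
  ho : o ≤ 1
  h00 : ∀ j, (g.b00 (b₀ (Sum.inl j))) ^ p = g.b00 (b₀ (Sum.inl j))
  h01 : ∀ j, (g.b01 (b₀ (Sum.inl j))) ^ p = g.b01 (b₀ (Sum.inl j))
  hth : ∀ x y, θ (sbr g ((b₀.prod b₁) x) ((b₀.prod b₁) y)).1 =
    ((th (Sum.inr x : Lt s q o r) (Sum.inr y) : ℤ) : k)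
  hw : ∀ j x, sbr g ((b₀.prod b₁) (Sum.inl (Sum.inl j))) ((b₀.prod b₁) x) =
    w j (Sum.inr x) • (b₀.prod b₁) x
  sym : WtSym p w

/-- The weights. -/
def wf {r s q o : ℕ} (β : Fin r → Fin s → k) (γ : Fin r → Fin q → k) (j : Fin r) :
    Lt s q o r → k
  | Sum.inl _ => 0
  | Sum.inr (Sum.inl (Sum.inl _)) => 0
  | Sum.inr (Sum.inl (Sum.inr (Sum.inl i))) => β j i
  | Sum.inr (Sum.inl (Sum.inr (Sum.inr i))) => -β j i
  | Sum.inr (Sum.inr (Sum.inl l)) => γ j l
  | Sum.inr (Sum.inr (Sum.inr (Sum.inl l))) => -γ j l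
  | Sum.inr (Sum.inr (Sum.inr (Sum.inr _))) => 0

theorem end_pow_eig {V : Type*} [AddCommGroup V] [Module k V] {f : Module.End k V} {p : ℕ}
    (hf : f ^ p = f) {v : V} (hv : v ≠ 0) {c : k} (hc : f v = c • v) : c ^ p = c := by
  have h1 : ∀ n, (f ^ n) v = c ^ n • v := by
    intro n
    induction n with
    | zero => simp
    | succ n ih => rw [pow_succ, Module.End.mul_apply, hc, map_smul, ih, smul_smul, pow_succ,
        mul_comm]
  have h2 := h1 p
  rw [hf, hc] at h2
  have h3 : (c - c ^ p) • v = 0 := by rw [sub_smul, h2, sub_self]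
  have h4 := (smul_eq_zero.1 h3).resolve_right hv
  exact (sub_eq_zero.1 h4).symm

theorem exists_nf [FiniteDimensional k L₀] [FiniteDimensional k L₁] [IsAlgClosed k] (p : ℕ)
    [hp : Fact p.Prime] [CharP k p] (h2 : (2 : k) ≠ 0) (g : LieSuper k L₀ L₁) (θ : L₀ →ₗ[k] k)
    (hab : ∀ h ∈ LinearMap.ker (form₀ g θ), ∀ h' ∈ LinearMap.ker (form₀ g θ), g.b00 h h' = 0)
    (htor : LinearMap.ker (form₀ g θ) ≤ Submodule.span k {h | h ∈ LinearMap.ker (form₀ g θ) ∧
      (g.b00 h) ^ p = g.b00 h ∧ (g.b01 h) ^ p = g.b01 h})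
    (hodd : LinearMap.ker (form₁ g θ) = ⊥) :
    ∃ (r s q o : ℕ) (b₀ : Basis (Fin r ⊕ (Fin s ⊕ Fin s)) k L₀)
      (b₁ : Basis (Fin q ⊕ (Fin q ⊕ Fin o)) k L₁) (w : Fin r → Lt s q o r → k),
      NF g θ p b₀ b₁ w ∧ bEven g θ = 2 * s ∧ bOdd g θ = 2 * q + o := by
  classical
  set T := LinearMap.ker (form₀ g θ) with hT
  have f0 : ∀ x y, form₀ g θ x y = θ (g.b00 x y) := fun _ _ => rfl
  have f1 : ∀ x y, form₁ g θ x y = θ (g.b11 x y) := fun _ _ => rfl
  -- a basis of the torus
  obtain ⟨r, h, hhT, hh0, hh1, hhli, hhsp⟩ : ∃ (r : ℕ) (h : Fin r → L₀), (∀ j, h j ∈ T) ∧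
      (∀ j, (g.b00 (h j)) ^ p = g.b00 (h j)) ∧ (∀ j, (g.b01 (h j)) ^ p = g.b01 (h j)) ∧
      LinearIndependent k h ∧ Submodule.span k (Set.range h) = T := by
    obtain ⟨B, hBS, hBsp, hBli⟩ := exists_linearIndependent k {h | h ∈ T ∧
      (g.b00 h) ^ p = g.b00 h ∧ (g.b01 h) ^ p = g.b01 h}
    have hBf : B.Finite := hBli.setFinite
    let _ : Fintype B := hBf.fintype
    let e := Fintype.equivFin B
    refine ⟨Fintype.card B, fun j => ((e.symm j : B) : L₀), fun j => (hBS (e.symm j).2).1,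
      fun j => (hBS (e.symm j).2).2.1, fun j => (hBS (e.symm j).2).2.2, ?_, ?_⟩
    · exact hBli.comp _ e.symm.injective
    · have h1 : Set.range (fun j => ((e.symm j : B) : L₀)) = B := by
        have : (fun j => ((e.symm j : B) : L₀)) = (Subtype.val : B → L₀) ∘ e.symm := rfl
        rw [this, Set.range_comp, e.symm.surjective.range_eq, Set.image_univ, Subtype.range_coe]
      rw [h1, hBsp]
      refine le_antisymm ?_ htor
      rw [Submodule.span_le]
      intro x hx
      exact hx.1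
  -- the commuting operators
  have hc0 : ∀ i j, g.b00 (h i) * g.b00 (h j) = g.b00 (h j) * g.b00 (h i) := by
    intro i j
    apply LinearMap.ext
    intro x
    have h1 := g.jac000 (h i) (h j) x
    rw [hab _ (hhT i) _ (hhT j), map_zero, LinearMap.zero_apply] at h1
    exact (sub_eq_zero.1 h1.symm)
  have hc1 : ∀ i j, g.b01 (h i) * g.b01 (h j) = g.b01 (h j) * g.b01 (h i) := by
    intro i j
    apply LinearMap.ext
    intro x
    have h1 := g.jac001 (h i) (h j) x
    rw [hab _ (hhT i) _ (hhT j), map_zero, LinearMap.zero_apply] at h1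
    exact (sub_eq_zero.1 h1.symm)
  have hT0 : ∀ x ∈ T, ∀ y, θ (g.b00 x y) = 0 := by
    intro x hx y
    have := LinearMap.congr_fun (LinearMap.mem_ker.1 hx) y
    exact this
  have hanti : ∀ x y, g.b00 x y = -g.b00 y x := fun x y => anti00 g x y
  have hT0' : ∀ x ∈ T, ∀ y, θ (g.b00 y x) = 0 := by
    intro x hx y
    rw [hanti, map_neg, hT0 x hx, neg_zero]
  have hinv0 : ∀ j x y, form₀ g θ (g.b00 (h j) x) y + form₀ g θ x (g.b00 (h j) y) = 0 := by
    intro j x y
    rw [f0, f0, ← map_add, g.jac000, sub_add_cancel, hT0 _ (hhT j)]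
  have hinv1 : ∀ j x y, form₁ g θ (g.b01 (h j) x) y + form₁ g θ x (g.b01 (h j) y) = 0 := by
    intro j x y
    rw [f1, f1, ← map_add, ← g.jac011, hT0 _ (hhT j)]
  obtain ⟨s, b, a, β, -, -, hb, ha, hab1, haa, hbb, hrad⟩ := darboux_alt (fun j => g.b00 (h j))
    (form₀ g θ) hinv0 (fun U hU => wt_span p _ hh0 hc0 U hU)
    (fun x => by rw [f0, g.self00, map_zero]) _ ⊤ le_rfl (fun _ _ _ => trivial)
  obtain ⟨q, o, v, u, y, γ, ho, -, -, -, hv, hu, hy, huv, huu, hvv, hyy, hyu, hyv, hrad1⟩ :=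
    darboux_sym (fun j => g.b01 (h j)) (form₁ g θ) hinv1
    (fun U hU => wt_span p _ hh1 hc1 U hU) h2
    (fun x y => by rw [f1, f1, g.symm11]) _ ⊤ le_rfl (fun _ _ _ => trivial)
  have hba1 : ∀ i i', form₀ g θ (b i) (a i') = if i = i' then -1 else 0 := by
    intro i i'
    have h3 := hab1 i' i
    rw [f0] at h3 ⊢
    rw [hanti, map_neg, h3]
    by_cases hii : i = i'
    · subst hii; simp
    · rw [if_neg hii, if_neg (Ne.symm hii), neg_zero]
  have hvu1 : ∀ i i', form₁ g θ (v i) (u i') = if i = i' then 1 else 0 := by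
    intro i i'
    have h3 := huv i' i
    rw [f1] at h3 ⊢
    rw [g.symm11, h3]
    by_cases hii : i = i'
    · subst hii; simp
    · rw [if_neg hii, if_neg (Ne.symm hii)]
  have huy1 : ∀ i i', form₁ g θ (u i) (y i') = 0 := by
    intro i i'
    rw [f1, g.symm11, ← f1, hyu]
  have hvy1 : ∀ i i', form₁ g θ (v i) (y i') = 0 := by
    intro i i'
    rw [f1, g.symm11, ← f1, hyv]
  -- the even basis
  let F0 : Fin s ⊕ Fin s → L₀ := Sum.elim b a
  let φ0 : Fin s ⊕ Fin s → L₀ →ₗ[k] k :=
    Sum.elim (fun i => form₀ g θ (a i)) (fun i => -form₀ g θ (b i))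
  have hφ0 : ∀ x x', φ0 x (F0 x') = if x = x' then 1 else 0 := by
    rintro (i | i) (i' | i')
    · simp only [φ0, F0, Sum.elim_inl, hab1, Sum.inl.injEq]
    · simp only [φ0, F0, Sum.elim_inl, Sum.elim_inr, haa, reduceCtorEq, if_false]
    · simp only [φ0, F0, Sum.elim_inl, Sum.elim_inr, LinearMap.neg_apply, hbb, reduceCtorEq,
        if_false, neg_zero]
    · simp only [φ0, F0, Sum.elim_inr, LinearMap.neg_apply, hba1, Sum.inr.injEq]
      split_ifs <;> simp
  obtain ⟨hli0, hsp0⟩ := dual_basis F0 φ0 hφ0 T (by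
      intro x hx z
      rcases z with z | z
      · exact hT0' x hx _
      · simp only [φ0, Sum.elim_inr, LinearMap.neg_apply, f0, hT0' x hx, neg_zero]) (by
      intro x hx
      rw [hT, LinearMap.mem_ker]
      apply LinearMap.ext
      intro z
      refine hrad x trivial (fun i => hx (Sum.inl i)) (fun i => ?_) z trivial
      have := hx (Sum.inr i)
      simpa only [φ0, Sum.elim_inr, LinearMap.neg_apply, neg_eq_zero] using this) h hhli hhsp
  let b₀ : Basis (Fin r ⊕ (Fin s ⊕ Fin s)) k L₀ := Basis.mk hli0 hsp0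
  -- the odd basis
  let F1 : Fin q ⊕ (Fin q ⊕ Fin o) → L₁ := Sum.elim v (Sum.elim u y)
  let φ1 : Fin q ⊕ (Fin q ⊕ Fin o) → L₁ →ₗ[k] k :=
    Sum.elim (fun i => form₁ g θ (u i)) (Sum.elim (fun i => form₁ g θ (v i))
      (fun i => (2 : k)⁻¹ • form₁ g θ (y i)))
  have hsub : ∀ i i' : Fin o, i = i' := fun i i' => Fin.ext (by omega)
  have hφ1 : ∀ x x', φ1 x (F1 x') = if x = x' then 1 else 0 := by
    rintro (i | (i | i)) (i' | (i' | i'))
    · simp only [φ1, F1, Sum.elim_inl, huv, Sum.inl.injEq]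
    · simp only [φ1, F1, Sum.elim_inl, Sum.elim_inr, huu, reduceCtorEq, if_false]
    · simp only [φ1, F1, Sum.elim_inl, Sum.elim_inr, huy1, reduceCtorEq, if_false]
    · simp only [φ1, F1, Sum.elim_inl, Sum.elim_inr, hvv, reduceCtorEq, if_false]
    · simp only [φ1, F1, Sum.elim_inl, Sum.elim_inr, hvu1, Sum.inr.injEq, Sum.inl.injEq]
    · simp only [φ1, F1, Sum.elim_inl, Sum.elim_inr, hvy1, Sum.inr.injEq, reduceCtorEq, if_false]
    · simp only [φ1, F1, Sum.elim_inl, Sum.elim_inr, LinearMap.smul_apply, hyv, smul_zero,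
        reduceCtorEq, if_false]
    · simp only [φ1, F1, Sum.elim_inl, Sum.elim_inr, LinearMap.smul_apply, hyu, smul_zero,
        Sum.inr.injEq, reduceCtorEq, if_false]
    · simp only [φ1, F1, Sum.elim_inr, LinearMap.smul_apply, hyy, smul_eq_mul]
      rw [if_pos (by rw [hsub i i']), inv_mul_cancel₀ h2]
  have hli1 := dual_indep F1 φ1 hφ1
  have hsp1 : ⊤ ≤ Submodule.span k (Set.range F1) := by
    intro x _
    have h3 := dual_sub F1 φ1 hφ1 x
    have h4 : x - ∑ y', φ1 y' x • F1 y' = 0 := by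
      have h5 : x - ∑ y', φ1 y' x • F1 y' ∈ LinearMap.ker (form₁ g θ) := by
        rw [LinearMap.mem_ker]
        apply LinearMap.ext
        intro z
        refine hrad1 _ trivial (fun i => h3 (Sum.inl i)) (fun i => h3 (Sum.inr (Sum.inl i)))
          (fun i => ?_) z trivial
        have h6 := h3 (Sum.inr (Sum.inr i))
        exact (smul_eq_zero.1 h6).resolve_left (inv_ne_zero h2)
      rw [hodd, Submodule.mem_bot] at h5
      exact h5
    rw [sub_eq_zero.1 h4]
    exact Submodule.sum_mem _ fun y' _ => Submodule.smul_mem _ _ (Submodule.subset_span ⟨y', rfl⟩)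
  let b₁ : Basis (Fin q ⊕ (Fin q ⊕ Fin o)) k L₁ := Basis.mk hli1 hsp1
  have eb0 : ∀ x, b₀ x = Sum.elim h F0 x := fun x => Basis.mk_apply _ _ x
  have eb1 : ∀ x, b₁ x = F1 x := fun x => Basis.mk_apply _ _ x
  refine ⟨r, s, q, o, b₀, b₁, wf β γ, ⟨ho, ?_, ?_, ?_, ?_, ?_⟩, ?_, ?_⟩
  · intro j
    rw [eb0]
    exact hh0 j
  · intro j
    rw [eb0]
    exact hh1 j
  · have k00 : ∀ i i', θ (g.b00 (b₀ i) (b₀ i')) =
        ((th (Sum.inr (Sum.inl i) : Lt s q o r) (Sum.inr (Sum.inl i')) : ℤ) : k) := by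
      rintro (j | (i | i)) i'
      · rw [eb0]
        have h3 := hT0 (h j) (hhT j) (b₀ i')
        simp only [Sum.elim_inl]
        rw [h3]
        simp [th]
      · rcases i' with j | (i' | i')
        · rw [eb0 (Sum.inl j)]
          have h3 := hT0' (h j) (hhT j) (b₀ (Sum.inr (Sum.inl i)))
          simp only [Sum.elim_inl]
          rw [h3]
          simp [th]
        · rw [eb0, eb0]
          simp only [Sum.elim_inr, F0, Sum.elim_inl]
          rw [← f0, hbb]
          simp [th]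
        · rw [eb0, eb0]
          simp only [Sum.elim_inr, F0, Sum.elim_inl]
          rw [← f0, hba1]
          simp only [th]
          split_ifs <;> simp
      · rcases i' with j | (i' | i')
        · rw [eb0 (Sum.inl j)]
          have h3 := hT0' (h j) (hhT j) (b₀ (Sum.inr (Sum.inr i)))
          simp only [Sum.elim_inl]
          rw [h3]
          simp [th]
        · rw [eb0, eb0]
          simp only [Sum.elim_inr, F0, Sum.elim_inl]
          rw [← f0, hab1]
          simp only [th]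
          split_ifs <;> simp
        · rw [eb0, eb0]
          simp only [Sum.elim_inr, F0]
          rw [← f0, haa]
          simp [th]
    have k11 : ∀ i i', θ (g.b11 (b₁ i) (b₁ i')) =
        ((th (Sum.inr (Sum.inr i) : Lt s q o r) (Sum.inr (Sum.inr i')) : ℤ) : k) := by
      rintro (i | (i | i)) (i' | (i' | i')) <;> rw [eb1, eb1, ← f1] <;>
        simp only [F1, Sum.elim_inl, Sum.elim_inr, hvv, hvu1, hvy1, huv, huu, huy1, hyv, hyu,
          hyy, th]
      · simp
      · split_ifs <;> simp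
      · simp
      · split_ifs <;> simp
      · simp
      · simp
      · simp
      · simp
      · rw [if_pos (hsub i i')]
        simp
    rintro (x | x) (y | y)
    · have := k00 x y
      simpa [sbr_apply] using this
    · simp only [sbr_apply, Basis.prod_apply]
      simp [th]
    · simp [sbr_apply, th]
    · have := k11 x y
      simpa [sbr_apply] using this
  · rintro j (x | x)
    · have h3 : g.b00 (b₀ (Sum.inl j)) (b₀ x) = wf β γ j (Sum.inr (Sum.inl x) : Lt s q o r) • b₀ x := by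
        rw [eb0 (Sum.inl j), eb0 x]
        rcases x with j' | (i | i)
        · simp only [Sum.elim_inl, wf, zero_smul]
          exact hab _ (hhT j) _ (hhT j')
        · exact hb j i
        · exact ha j i
      ext1 <;> simp [sbr_apply, h3]
    · have h3 : g.b01 (b₀ (Sum.inl j)) (b₁ x) = wf β γ j (Sum.inr (Sum.inr x) : Lt s q o r) • b₁ x := by
        rw [eb0 (Sum.inl j), eb1 x]
        rcases x with i | (i | i)
        · exact hv j i
        · exact hu j i
        · simp only [F1, Sum.elim_inl, Sum.elim_inr, wf, zero_smul]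
          exact hy j i
      ext1 <;> simp [sbr_apply, h3]
  · refine ⟨fun _ => rfl, fun _ _ => rfl, fun _ _ => rfl, fun _ _ => rfl, fun _ _ => rfl, ?_⟩
    have hz : (0 : k) ^ p = 0 := zero_pow hp.out.ne_zero
    rintro j (⟨⟩ | ((j' | (i | i)) | (i | (i | i))))
    · exact hz
    · exact hz
    · refine end_pow_eig (hh0 j) (v := b i) ?_ (hb j i)
      have := b₀.ne_zero (Sum.inr (Sum.inl i))
      rwa [eb0] at this
    · refine end_pow_eig (hh0 j) (v := a i) ?_ (ha j i)
      have := b₀.ne_zero (Sum.inr (Sum.inr i))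
      rwa [eb0] at this
    · refine end_pow_eig (hh1 j) (v := v i) ?_ (hv j i)
      have := b₁.ne_zero (Sum.inl i)
      rwa [eb1] at this
    · refine end_pow_eig (hh1 j) (v := u i) ?_ (hu j i)
      have := b₁.ne_zero (Sum.inr (Sum.inl i))
      rwa [eb1] at this
    · exact hz
  · unfold bEven
    rw [← hT, ← hhsp, finrank_span_eq_card hhli, finrank_eq_card_basis b₀]
    simp only [Fintype.card_sum, Fintype.card_fin]
    omega
  · unfold bOdd
    rw [hodd, finrank_bot, finrank_eq_card_basis b₁]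
    simp only [Fintype.card_sum, Fintype.card_fin]
    omega

end nf

end Pool.Agent.Helper56.SKU
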