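import Mathlib
import Pool.Agent.Helper56.SKU.Tri
import Pool.Agent.Helper56.SKW.ToAlg

/-!
# Base change and the parity generator
-/

namespace Pool.Agent.Helper56.SKU

open Module Pool.Agent.Helper56.SKW Pool.Agent.Helper56.SKW.PBW

section bc

variable {k : Type*} [Field k] {X : Type*} [Fintype X] [DecidableEq X] {L : Type*}
  [AddCommGroup L] [Module k L] (g : Alg k X L) (K : Type*) [Field K] [Algebra k K]

/-- The base change map. -/
noncomputable def iot : L →ₗ[k] (X → K) where
  toFun a x := algebraMap k K (g.e.repr a x)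
  map_add' a b := by funext x; simp
  map_smul' c a := by
    funext x
    simp [Algebra.smul_def]

omit [Fintype X] [DecidableEq X] in
theorem iot_apply (a : L) (x : X) : iot g K a x = algebraMap k K (g.e.repr a x) := rfl

theorem iot_e (x : X) : iot g K (g.e x) = Pi.basisFun K X x := by
  funext y
  rw [iot_apply, Basis.repr_self, Pi.basisFun_apply, Finsupp.single_apply, Pi.single_apply]
  by_cases h : x = y
  · subst h; simp
  · rw [if_neg h, if_neg (Ne.symm h), map_zero]

omit [Fintype X] [DecidableEq X] in
theorem iot_eps (x y : X) (a : L) : iot g K (eps k g.par x y • a) = eps K g.par x y • iot g K a := by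
  unfold eps
  split_ifs <;> simp

/-- The bracket after base change. -/
noncomputable def brK : (X → K) →ₗ[K] (X → K) →ₗ[K] (X → K) :=
  (Pi.basisFun K X).constr K fun x => (Pi.basisFun K X).constr K fun y =>
    iot g K (g.br (g.e x) (g.e y))

theorem brK_e (x y : X) : brK g K (Pi.basisFun K X x) (Pi.basisFun K X y) =
    iot g K (g.br (g.e x) (g.e y)) := by
  unfold brK
  rw [Basis.constr_basis, Basis.constr_basis]

theorem brK_iot (a b : L) : brK g K (iot g K a) (iot g K b) = iot g K (g.br a b) := by
  have h1 : ∀ x, ∀ b, brK g K (Pi.basisFun K X x) (iot g K b) = iot g K (g.br (g.e x) b) := by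
    intro x
    have h2 : ((brK g K (Pi.basisFun K X x)).restrictScalars k) ∘ₗ iot g K =
        iot g K ∘ₗ g.br (g.e x) := by
      refine g.e.ext fun y => ?_
      show brK g K (Pi.basisFun K X x) (iot g K (g.e y)) = iot g K (g.br (g.e x) (g.e y))
      rw [iot_e, brK_e]
    intro b
    exact LinearMap.congr_fun h2 b
  have h3 : ((brK g K).flip (iot g K b)).restrictScalars k ∘ₗ iot g K =
      iot g K ∘ₗ g.br.flip b := by
    refine g.e.ext fun x => ?_
    show brK g K (iot g K (g.e x)) (iot g K b) = iot g K (g.br (g.e x) b)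
    rw [iot_e, h1]
  exact LinearMap.congr_fun h3 a

/-- A diagonal operator. -/
noncomputable def dgK (c : X → K) : (X → K) →ₗ[K] (X → K) :=
  (Pi.basisFun K X).constr K fun y => c y • Pi.basisFun K X y

theorem dgK_iot (f : L →ₗ[k] L) (c : X → K) (hf : ∀ x, iot g K (f (g.e x)) =
    c x • iot g K (g.e x)) (a : L) : dgK K c (iot g K a) = iot g K (f a) := by
  have h2 : ((dgK K c).restrictScalars k) ∘ₗ iot g K = iot g K ∘ₗ f := by
    refine g.e.ext fun y => ?_
    show dgK K c (iot g K (g.e y)) = iot g K (f (g.e y))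
    rw [hf, iot_e]
    unfold dgK
    rw [Basis.constr_basis]
  exact LinearMap.congr_fun h2 a

/-- Base change of a Lie superalgebra given on a basis. -/
noncomputable def Alg.bc : Alg K X (X → K) where
  e := Pi.basisFun K X
  br := brK g K
  par := g.par
  tw x := dgK K fun y => eps K g.par x y
  tw_e x y := by unfold dgK; rw [Basis.constr_basis]
  tw_br x y z := by
    rw [brK_e, dgK_iot g K (g.tw x) _ (fun y => by rw [g.tw_e, iot_eps]), g.tw_br, ← smul_smul,
      iot_eps, iot_eps, smul_smul]
  anti x y := by rw [brK_e, brK_e, g.anti, map_neg, iot_eps]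
  self x hx := by rw [brK_e, g.self x hx, map_zero]
  jac x y z := by
    rw [brK_e, brK_e, brK_e, ← iot_e g K x, ← iot_e g K y, ← iot_e g K z, brK_iot, brK_iot,
      brK_iot, g.jac, map_add, iot_eps]
  anti2 x y z := by
    rw [brK_e, ← iot_e g K z, brK_iot, brK_iot, g.anti2, map_neg, ← smul_smul, iot_eps, iot_eps,
      smul_smul]
  jac3 x hx := by
    rw [brK_e, ← iot_e g K x, brK_iot, g.jac3 x hx, map_zero]
  pr := dgK K fun x => if g.par x then (-1 : K) else 1
  pr_e x := by unfold dgK; rw [Basis.constr_basis]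
  pr_br x y := by
    rw [brK_e, dgK_iot g K g.pr _ (fun y => by rw [g.pr_e]; split_ifs <;> simp), g.pr_br]
    cases g.par x <;> cases g.par y <;> simp

theorem bc_pow (x : X) (N : ℕ) (a : L) :
    ((brK g K (Pi.basisFun K X x)) ^ N) (iot g K a) = iot g K ((g.br (g.e x) ^ N) a) := by
  induction N generalizing a with
  | zero => rfl
  | succ N ih =>
    rw [pow_succ, pow_succ, Module.End.mul_apply, Module.End.mul_apply, ← iot_e g K x, brK_iot,
      iot_e g K x, ih]

end bc

section central

variable {k : Type*} [Field k] {X : Type*} [Fintype X] [LinearOrder X] {L : Type*}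
  [AddCommGroup L] [Module k L] (g : Alg k X L)

omit [Fintype X] in
theorem tau_had (P : L) (hP : P ∈ Submodule.span k (g.e '' {y | g.par y = false})) (a : L) :
    tau g P * tau g a - tau g a * tau g P = tau g (g.br P a) := by
  induction hP using Submodule.span_induction with
  | mem P hP =>
    obtain ⟨x, hx, rfl⟩ := hP
    have hx' : g.par x = false := hx
    have h1 : (LinearMap.mulLeft k (tau g (g.e x)) - LinearMap.mulRight k (tau g (g.e x))) ∘ₗ
        tau g = tau g ∘ₗ g.br (g.e x) := by
      refine g.e.ext fun y => ?_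
      show tau g (g.e x) * tau g (g.e y) - tau g (g.e y) * tau g (g.e x) =
        tau g (g.br (g.e x) (g.e y))
      rw [tau_comm g x y]
      simp [eps, hx']
    exact LinearMap.congr_fun h1 a
  | zero => simp
  | add P Q _ _ hP hQ =>
    rw [map_add, map_add, LinearMap.add_apply, map_add, ← hP, ← hQ, add_mul, mul_add]
    abel
  | smul c P _ hP =>
    rw [map_smul, map_smul, LinearMap.smul_apply, map_smul, ← hP, smul_mul_assoc, mul_smul_comm,
      smul_sub]

theorem central_D (h2 : (2 : k) ≠ 0) (p : ℕ) [Fact p.Prime] [CharP k p] (x : X)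
    (hx : g.par x = false) (j : ℕ) (P : L)
    (hP : P ∈ Submodule.span k (g.e '' {y | g.par y = false}))
    (hbr : ∀ y, (g.br (g.e x) ^ p ^ j) (g.e y) = g.br P (g.e y)) (ζ : k) :
    gen g x ^ p ^ j - tau g P - algebraMap k (Env g) ζ ∈ Subalgebra.center k (Env g) := by
  have hnt : Nontrivial (Env g) := env_nontrivial g h2
  have hchar : CharP (Module.End k (Env g)) p :=
    charP_of_injective_algebraMap (algebraMap k (Module.End k (Env g))).injective p
  have hex : g.e x ∈ Submodule.span k (g.e '' {y | g.par y = false}) :=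
    Submodule.subset_span ⟨x, hx, rfl⟩
  have hpow : ∀ n : ℕ, ∀ a, ((LinearMap.mulLeft k (gen g x) -
      LinearMap.mulRight k (gen g x)) ^ n) (tau g a) = tau g ((g.br (g.e x) ^ n) a) := by
    intro n
    induction n with
    | zero => intro a; rfl
    | succ n ih =>
      intro a
      rw [pow_succ, pow_succ, Module.End.mul_apply, Module.End.mul_apply]
      have : (LinearMap.mulLeft k (gen g x) - LinearMap.mulRight k (gen g x)) (tau g a) =
          tau g (g.br (g.e x) a) := tau_had g _ hex a
      rw [this, ih]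
  have hpp : ∀ a, gen g x ^ (p ^ j) * tau g a - tau g a * gen g x ^ (p ^ j) =
      tau g ((g.br (g.e x) ^ (p ^ j)) a) := by
    intro a
    rw [← hpow, sub_pow_char_pow_of_commute p j (LinearMap.commute_mulLeft_right _ _),
      LinearMap.pow_mulLeft, LinearMap.pow_mulRight]
    rfl
  have hcom : ∀ y, (gen g x ^ p ^ j - tau g P - algebraMap k (Env g) ζ) * gen g y =
      gen g y * (gen g x ^ p ^ j - tau g P - algebraMap k (Env g) ζ) := by
    intro y
    have h3 := hpp (g.e y)
    have h4 := tau_had g P hP (g.e y)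
    rw [hbr, ← h4] at h3
    have h5 := Algebra.commutes ζ (gen g y)
    unfold gen at *
    simp only [sub_mul, mul_sub]
    rw [h5]
    have h6 : tau g (g.e x) ^ p ^ j * tau g (g.e y) - tau g P * tau g (g.e y) =
        tau g (g.e y) * tau g (g.e x) ^ p ^ j - tau g (g.e y) * tau g P := by
      rw [sub_eq_sub_iff_sub_eq_sub]
      exact h3
    rw [h6]
  have hw : ∀ l : List X, (gen g x ^ p ^ j - tau g P - algebraMap k (Env g) ζ) * pwf (gen g) l =
      pwf (gen g) l * (gen g x ^ p ^ j - tau g P - algebraMap k (Env g) ζ) := by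
    intro l
    induction l with
    | nil => rw [pwf_nil, mul_one, one_mul]
    | cons y l ih => rw [pwf_cons, ← mul_assoc, hcom, mul_assoc, ih, mul_assoc]
  rw [Subalgebra.mem_center_iff]
  intro z
  have h3 : (⊤ : Submodule k (Env g)) ≤ LinearMap.ker
      (LinearMap.mulLeft k (gen g x ^ p ^ j - tau g P - algebraMap k (Env g) ζ) -
        LinearMap.mulRight k (gen g x ^ p ^ j - tau g P - algebraMap k (Env g) ζ)) := by
    rw [← env_gen g, Submodule.span_le]
    rintro _ ⟨l, rfl⟩
    have h7 := hw l
    show (gen g x ^ p ^ j - tau g P - algebraMap k (Env g) ζ) * pwf (gen g) l -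
      pwf (gen g) l * (gen g x ^ p ^ j - tau g P - algebraMap k (Env g) ζ) = 0
    rw [h7, sub_self]
  have h4 : (gen g x ^ p ^ j - tau g P - algebraMap k (Env g) ζ) * z -
      z * (gen g x ^ p ^ j - tau g P - algebraMap k (Env g) ζ) = 0 := h3 (x := z) trivial
  exact (sub_eq_zero.1 h4).symm

end central

end Pool.Agent.Helper56.SKU
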