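import Mathlib
import Pool.Agent.Helper56.SKU.BC

/-!
# Reduced enveloping algebras with a parity generator, after base change
-/

namespace Pool.Agent.Helper56.SKU

open Module Pool.Agent.Helper56.SKW Pool.Agent.Helper56.SKW.PBW

section plus

variable {k L₀ L₁ : Type*} [Field k] [AddCommGroup L₀] [Module k L₀] [AddCommGroup L₁]
  [Module k L₁]

/-- Adding a central element and a parity generator. -/
def plus (g : LieSuper k L₀ L₁) : LieSuper k (L₀ × k) (L₁ × k) where
  b00 := LinearMap.mk₂ k (fun a b => (g.b00 a.1 b.1, 0))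
    (by intro a a' b; simp) (by intro c a b; simp) (by intro a b b'; simp)
    (by intro c a b; simp)
  b01 := LinearMap.mk₂ k (fun a b => (g.b01 a.1 b.1, 0))
    (by intro a a' b; simp) (by intro c a b; simp) (by intro a b b'; simp)
    (by intro c a b; simp)
  b11 := LinearMap.mk₂ k (fun a b => (g.b11 a.1 b.1, 2 * a.2 * b.2))
    (by intro a a' b; simp; ring) (by intro c a b; simp; ring) (by intro a b b'; simp; ring)
    (by intro c a b; simp; ring)
  self00 := by intro x; simp [g.self00]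
  symm11 := by
    intro y y'
    simp only [LinearMap.mk₂_apply, g.symm11 y.1 y'.1, Prod.mk.injEq, true_and]
    ring
  jac000 := by intro x x' x''; simp [g.jac000]
  jac001 := by intro x x' y; simp [g.jac001]
  jac011 := by intro x y y'; simp [g.jac011]
  jac111 := by intro y; simp [g.jac111]

/-- The embedding. -/
def emb (k L₀ L₁ : Type*) [Field k] [AddCommGroup L₀] [Module k L₀] [AddCommGroup L₁]
    [Module k L₁] : (L₀ × L₁) →ₗ[k] ((L₀ × k) × (L₁ × k)) :=
  LinearMap.prodMap (LinearMap.inl k L₀ k) (LinearMap.inl k L₁ k)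

theorem emb_apply (a : L₀ × L₁) : emb k L₀ L₁ a = ((a.1, 0), (a.2, 0)) := rfl

theorem sbr_emb (g : LieSuper k L₀ L₁) (a b : L₀ × L₁) :
    sbr (plus g) (emb k L₀ L₁ a) (emb k L₀ L₁ b) = emb k L₀ L₁ (sbr g a b) := by
  rw [sbr_apply, sbr_apply, emb_apply, emb_apply, emb_apply]
  simp [plus]

theorem sbr_even (g : LieSuper k L₀ L₁) (a : L₀) (b : (L₀ × k) × (L₁ × k)) :
    sbr (plus g) (emb k L₀ L₁ (a, 0)) b = ((g.b00 a b.1.1, 0), (g.b01 a b.2.1, 0)) := by
  rw [sbr_apply, emb_apply]
  simp [plus]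

theorem sbr_even_pow (g : LieSuper k L₀ L₁) (a : L₀) (b : (L₀ × k) × (L₁ × k)) (N : ℕ) :
    ((sbr (plus g) (emb k L₀ L₁ (a, 0))) ^ (N + 1)) b =
      ((((g.b00 a) ^ (N + 1)) b.1.1, 0), (((g.b01 a) ^ (N + 1)) b.2.1, 0)) := by
  induction N with
  | zero => rw [zero_add, pow_one, pow_one, pow_one, sbr_even]
  | succ N ih =>
    rw [pow_succ' _ (N + 1), Module.End.mul_apply, ih, sbr_even, pow_succ' _ (N + 1),
      pow_succ' _ (N + 1)]
    rfl

variable {m n : Type*} [Fintype m] [Fintype n] [DecidableEq m] [DecidableEq n]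

/-- The basis of the enlarged superalgebra. -/
noncomputable def pAlg (h2 : (2 : k) ≠ 0) (g : LieSuper k L₀ L₁) (b₀ : Basis m k L₀)
    (b₁ : Basis n k L₁) : Alg k ((m ⊕ Unit) ⊕ (n ⊕ Unit)) ((L₀ × k) × (L₁ × k)) :=
  toAlg h2 (plus g) (b₀.prod (Basis.singleton Unit k)) (b₁.prod (Basis.singleton Unit k))

/-- The inclusion of the letters. -/
def jm (m n : Type*) : m ⊕ n → (m ⊕ Unit) ⊕ (n ⊕ Unit) := Sum.map Sum.inl Sum.inl

theorem pAlg_e (h2 : (2 : k) ≠ 0) (g : LieSuper k L₀ L₁) (b₀ : Basis m k L₀)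
    (b₁ : Basis n k L₁) (x : m ⊕ n) :
    (pAlg h2 g b₀ b₁).e (jm m n x) = emb k L₀ L₁ ((b₀.prod b₁) x) := by
  rcases x with x | x <;> simp [pAlg, toAlg, jm, emb_apply] <;> rfl

theorem pAlg_z (h2 : (2 : k) ≠ 0) (g : LieSuper k L₀ L₁) (b₀ : Basis m k L₀)
    (b₁ : Basis n k L₁) : (pAlg h2 g b₀ b₁).e (Sum.inl (Sum.inr ())) = ((0, 1), 0) := by
  simp [pAlg, toAlg]

theorem pAlg_s (h2 : (2 : k) ≠ 0) (g : LieSuper k L₀ L₁) (b₀ : Basis m k L₀)
    (b₁ : Basis n k L₁) : (pAlg h2 g b₀ b₁).e (Sum.inr (Sum.inr ())) = (0, (0, 1)) := by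
  simp [pAlg, toAlg]

theorem pAlg_br (h2 : (2 : k) ≠ 0) (g : LieSuper k L₀ L₁) (b₀ : Basis m k L₀)
    (b₁ : Basis n k L₁) (a b) : (pAlg h2 g b₀ b₁).br a b = sbr (plus g) a b := rfl

/-- The signs of the letters. -/
def parZ (m n : Type*) : m ⊕ n → Bool := Sum.elim (fun _ => false) (fun _ => true)

theorem pAlg_par (h2 : (2 : k) ≠ 0) (g : LieSuper k L₀ L₁) (b₀ : Basis m k L₀)
    (b₁ : Basis n k L₁) (x : m ⊕ n) : (pAlg h2 g b₀ b₁).par (jm m n x) = parZ m n x := by
  rcases x with x | x <;> simp [pAlg, toAlg, jm, parZ]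

end plus

section reduced

universe u v

variable {k L₀ L₁ : Type*} [Field k] [AddCommGroup L₀] [Module k L₀] [AddCommGroup L₁]
  [Module k L₁] {m n : Type v} [Fintype m] [Fintype n] [DecidableEq m] [DecidableEq n]

/-- The relations of a representation of the Lie superalgebra together with the parity operator,
in terms of a basis, with prescribed `p`-th powers. -/
structure RepRel (g : LieSuper k L₀ L₁) (b₀ : Basis m k L₀) (b₁ : Basis n k L₁) (p : ℕ)
    (P : m → L₀) {K : Type*} [Field K] [Algebra k K] (ζ : m → K) {A : Type*} [Ring A]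
    [Algebra K A] (G : Unit ⊕ (m ⊕ n) → A) : Prop where
  ss : G (Sum.inl ()) * G (Sum.inl ()) = 1
  se : ∀ i : m, G (Sum.inl ()) * G (Sum.inr (Sum.inl i)) =
    G (Sum.inr (Sum.inl i)) * G (Sum.inl ())
  so : ∀ i : n, G (Sum.inl ()) * G (Sum.inr (Sum.inr i)) =
    -(G (Sum.inr (Sum.inr i)) * G (Sum.inl ()))
  br : ∀ x y : m ⊕ n, G (Sum.inr x) * G (Sum.inr y) =
    eps K (parZ m n) x y • (G (Sum.inr y) * G (Sum.inr x)) +
      ∑ z, algebraMap k K ((b₀.prod b₁).repr (sbr g ((b₀.prod b₁) x) ((b₀.prod b₁) y)) z) •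
        G (Sum.inr z)
  pw : ∀ i : m, G (Sum.inr (Sum.inl i)) ^ p =
    ∑ z, algebraMap k K (b₀.repr (P i) z) • G (Sum.inr (Sum.inl z)) + ζ i • 1

theorem exists_plus (h2 : (2 : k) ≠ 0) (g : LieSuper k L₀ L₁) (b₀ : Basis m k L₀)
    (b₁ : Basis n k L₁) (p : ℕ) [hp : Fact p.Prime] {K : Type u} [Field K] [Algebra k K]
    [CharP K p] (P : m → L₀)
    (hP0 : ∀ i x, g.b00 (P i) x = ((g.b00 (b₀ i)) ^ p) x)
    (hP1 : ∀ i y, g.b01 (P i) y = ((g.b01 (b₀ i)) ^ p) y) (ζ : m → K) :
    ∃ (M : Type (max u v)) (_ : AddCommGroup M) (_ : Module K M) (G : Unit ⊕ (m ⊕ n) → Module.End K M)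
      (m0 : M), Module.Finite K M ∧ finrank K M = p ^ Fintype.card m * 2 ^ (Fintype.card n + 1) ∧
        RepRel g b₀ b₁ p P ζ G ∧ ∀ w, w ∈ Submodule.span K (Set.range fun l => pwf G l m0) := by
  classical
  let A := pAlg h2 g b₀ b₁
  let X := (m ⊕ Unit) ⊕ (n ⊕ Unit)
  let B : Alg K X (X → K) := Alg.bc A K
  have hK2 : (2 : K) ≠ 0 := by
    intro h
    apply h2
    apply (algebraMap k K).injective
    rw [map_zero, map_ofNat, h]
  let _ : LinearOrder X := LinearOrder.lift' (Fintype.equivFin X) (Fintype.equivFin X).injective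
  let N : X → ℕ := Sum.elim (Sum.elim (fun _ => p) (fun _ => 1)) (fun _ => 2)
  let ex : X → ℕ := Sum.elim (Sum.elim (fun _ => 1) (fun _ => 0)) (fun _ => 0)
  let Pk : X → (L₀ × k) × (L₁ × k) :=
    Sum.elim (Sum.elim (fun i => emb k L₀ L₁ (P i, 0)) (fun _ => 0)) (fun _ => 0)
  let ζx : X → K := Sum.elim (Sum.elim ζ (fun _ => 1)) (fun _ => 0)
  have hN : ∀ x, B.par x = false → N x = p ^ ex x := by
    rintro ((x | x) | (x | x)) hx
    · simp [N, ex]
    · simp [N, ex]
    · exact absurd hx (by simp [B, A, Alg.bc, pAlg, toAlg])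
    · exact absurd hx (by simp [B, A, Alg.bc, pAlg, toAlg])
  have hspan : ∀ a : L₀, iot A K (emb k L₀ L₁ (a, 0)) ∈
      Submodule.span K (B.e '' {y | B.par y = false}) := by
    intro a
    have h1 : (⊤ : Submodule k L₀) ≤ ((Submodule.span K (B.e '' {y | B.par y = false})).restrictScalars
        k).comap (iot A K ∘ₗ emb k L₀ L₁ ∘ₗ LinearMap.inl k L₀ L₁) := by
      rw [← b₀.span_eq, Submodule.span_le]
      rintro _ ⟨i, rfl⟩
      refine Submodule.subset_span ⟨jm m n (Sum.inl i), ?_, ?_⟩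
      · simp [B, A, Alg.bc, pAlg, toAlg, jm]
      · show Pi.basisFun K X (jm m n (Sum.inl i)) = iot A K (emb k L₀ L₁ (b₀ i, 0))
        rw [← iot_e A K, pAlg_e]
        simp
    exact h1 (x := a) trivial
  have hPspan : ∀ x, B.par x = false → iot A K (Pk x) ∈
      Submodule.span K (B.e '' {y | B.par y = false}) := by
    rintro ((x | x) | (x | x)) hx
    · exact hspan _
    · simp only [Pk, Sum.elim_inl, Sum.elim_inr, map_zero]; exact Submodule.zero_mem _
    · simp only [Pk, Sum.elim_inr, map_zero]; exact Submodule.zero_mem _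
    · simp only [Pk, Sum.elim_inr, map_zero]; exact Submodule.zero_mem _
  have hkbr : ∀ x, B.par x = false → ∀ b, ((A.br (A.e x)) ^ p ^ ex x) b = A.br (Pk x) b := by
    rintro ((x | x) | (x | x)) hx b
    · have e1 : A.e (Sum.inl (Sum.inl x)) = emb k L₀ L₁ (b₀ x, 0) := by
        have := pAlg_e h2 g b₀ b₁ (Sum.inl x)
        simpa [jm] using this
      obtain ⟨q, hq⟩ : ∃ q, p = q + 1 := ⟨p - 1, by have := hp.out.pos; omega⟩
      have e2 := hP0 x b.1.1
      have e3 := hP1 x b.2.1
      show ((sbr (plus g) (A.e (Sum.inl (Sum.inl x)))) ^ p ^ 1) b =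
        sbr (plus g) (emb k L₀ L₁ (P x, 0)) b
      rw [e1, pow_one, sbr_even, e2, e3]
      have e4 := sbr_even_pow g (b₀ x) b q
      rw [← hq] at e4
      exact e4
    · have e1 : A.e (Sum.inl (Sum.inr ())) = ((0, 1), 0) := pAlg_z h2 g b₀ b₁
      show ((sbr (plus g) (A.e (Sum.inl (Sum.inr ())))) ^ p ^ 0) b = sbr (plus g) 0 b
      rw [e1, pow_zero, pow_one, map_zero, LinearMap.zero_apply, sbr_apply]
      simp [plus]
    · exact absurd hx (by simp [B, A, Alg.bc, pAlg, toAlg])
    · exact absurd hx (by simp [B, A, Alg.bc, pAlg, toAlg])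
  have hKbr : ∀ x, B.par x = false → ∀ y, ((B.br (B.e x)) ^ p ^ ex x) (B.e y) =
      B.br (iot A K (Pk x)) (B.e y) := by
    intro x hx y
    show ((brK A K (Pi.basisFun K X x)) ^ p ^ ex x) (Pi.basisFun K X y) =
      brK A K (iot A K (Pk x)) (Pi.basisFun K X y)
    rw [← iot_e A K y, bc_pow, brK_iot, hkbr x hx]
  let D : X → Subalgebra.center K (Env B) := fun x =>
    if hx : B.par x = false then
      ⟨_, central_D B hK2 p x hx (ex x) (iot A K (Pk x)) (hPspan x hx) (hKbr x hx) (ζx x)⟩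
    else 1
  have hDx : ∀ x, B.par x = false → ((D x : Subalgebra.center K (Env B)) : Env B) =
      gen B x ^ p ^ ex x - tau B (iot A K (Pk x)) - algebraMap K (Env B) (ζx x) := by
    intro x hx
    simp only [D, hx, dite_true]
  obtain ⟨M, iM, jM, ρ, m0, hfin, hrank, hρD, hcyc⟩ := exists_reduced B (n := N) (D := D)
    (by
      rintro ((x | x) | (x | x))
      · exact hp.out.pos
      · exact le_rfl
      · exact one_le_two
      · exact one_le_two) hK2
    (by
      rintro ((x | x) | (x | x)) hx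
      · exact absurd hx (by simp [B, A, Alg.bc, pAlg, toAlg])
      · exact absurd hx (by simp [B, A, Alg.bc, pAlg, toAlg])
      · rfl
      · rfl)
    (by
      intro x hx
      rw [hDx x hx, ← hN x hx]
      have e1 : gen B x ^ N x - (gen B x ^ N x - tau B (iot A K (Pk x)) -
          algebraMap K (Env B) (ζx x)) = tau B (iot A K (Pk x)) + ζx x • (1 : Env B) := by
        rw [Algebra.algebraMap_eq_smul_one]
        abel
      rw [e1]
      have e0 : (1 : Env B) ∈ FF K (gen B) 1 := FF_mem K (gen B) (l := []) (by simp)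
      rcases x with (x | x) | (x | x)
      · refine Submodule.add_mem _ (FF_mono K _ ?_ (tau_mem2 B _))
          (Submodule.smul_mem _ _ (FF_mono K _ ?_ e0))
        · exact hp.out.two_le
        · exact hp.out.pos
      · have e2 : tau B (iot A K (Pk (Sum.inl (Sum.inr x)))) = 0 := by
          simp only [Pk, Sum.elim_inl, Sum.elim_inr, map_zero]
        rw [e2, zero_add]
        exact Submodule.smul_mem _ _ e0
      · exact absurd hx (by simp [B, A, Alg.bc, pAlg, toAlg])
      · exact absurd hx (by simp [B, A, Alg.bc, pAlg, toAlg]))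
  let s : X := Sum.inr (Sum.inr ())
  let z : X := Sum.inl (Sum.inr ())
  let G : Unit ⊕ (m ⊕ n) → Module.End K M :=
    Sum.elim (fun _ => ρ (gen B s)) (fun x => ρ (gen B (jm m n x)))
  have hz : ρ (gen B z) = 1 := by
    have h1 := hρD z (by simp [z, B, A, Alg.bc, pAlg, toAlg])
    rw [hDx z (by simp [z, B, A, Alg.bc, pAlg, toAlg])] at h1
    have e1 : tau B (iot A K (Pk z)) = 0 := by
      simp only [Pk, z, Sum.elim_inl, Sum.elim_inr, map_zero]
    have e2 : p ^ ex z = 1 := rfl
    rw [e1, e2, pow_one, sub_zero, map_sub, AlgHom.commutes, sub_eq_zero] at h1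
    rw [h1]
    show algebraMap K (Module.End K M) 1 = 1
    rw [map_one]
  have hcomm : ∀ x y : X, ρ (gen B x) * ρ (gen B y) =
      eps K B.par x y • (ρ (gen B y) * ρ (gen B x)) +
        ρ (tau B (iot A K (A.br (A.e x) (A.e y)))) := by
    intro x y
    have h1 := tau_comm B x y
    have h2' : B.br (B.e x) (B.e y) = iot A K (A.br (A.e x) (A.e y)) := brK_e A K x y
    rw [h2'] at h1
    have h3 := congrArg ρ h1
    rw [map_mul, map_add, map_smul, map_mul] at h3
    exact h3
  have htau : ∀ a : L₀ × L₁, ρ (tau B (iot A K (emb k L₀ L₁ a))) =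
      ∑ z, algebraMap k K ((b₀.prod b₁).repr a z) • G (Sum.inr z) := by
    intro a
    have h1 : tau B (iot A K (emb k L₀ L₁ a)) =
        ∑ z, algebraMap k K ((b₀.prod b₁).repr a z) • gen B (jm m n z) := by
      have h3 : iot A K (emb k L₀ L₁ a) =
          ∑ z, algebraMap k K ((b₀.prod b₁).repr a z) • B.e (jm m n z) := by
        conv_lhs => rw [← (b₀.prod b₁).sum_repr a]
        rw [map_sum, map_sum]
        refine Finset.sum_congr rfl fun z _ => ?_
        rw [map_smul, map_smul, ← pAlg_e h2 g b₀ b₁, iot_e]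
        funext y
        simp only [Pi.smul_apply, Algebra.smul_def]
        rfl
      rw [h3, map_sum]
      refine Finset.sum_congr rfl fun z _ => ?_
      rw [map_smul]
      rfl
    rw [h1, map_sum]
    refine Finset.sum_congr rfl fun z _ => ?_
    rw [map_smul]
    rfl
  refine ⟨M, iM, jM, G, m0, hfin, ?_, ?_, ?_⟩
  · rw [hrank]
    show ∏ x : (m ⊕ Unit) ⊕ (n ⊕ Unit), (Sum.elim (Sum.elim (fun _ => p) (fun _ => 1))
      (fun _ => 2) : (m ⊕ Unit) ⊕ (n ⊕ Unit) → ℕ) x = _
    rw [Fintype.prod_sum_type, Fintype.prod_sum_type]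
    simp only [Sum.elim_inl, Sum.elim_inr, Finset.prod_const, Finset.card_univ,
      Fintype.card_sum, Fintype.card_unit, one_pow, mul_one]
  · constructor
    · -- ss
      have h1 := hcomm s s
      have h3 : A.br (A.e s) (A.e s) = (2 : k) • A.e z := by
        rw [pAlg_br, pAlg_s, pAlg_z, sbr_apply]
        simp [plus]
      have h4 : eps K B.par s s = -1 := by
        simp [eps, s, B, A, Alg.bc, pAlg, toAlg]
      have h5 : ρ (tau B (iot A K ((2 : k) • A.e z))) = (2 : K) • (1 : Module.End K M) := by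
        have h6 : iot A K ((2 : k) • A.e z) = (2 : K) • B.e z := by
          rw [map_smul, iot_e]
          funext y
          simp only [Pi.smul_apply, Algebra.smul_def, map_ofNat]
          rfl
        rw [h6, map_smul, map_smul]
        congr 1
      rw [h3, h4, h5] at h1
      have h7 : (2 : K) • (ρ (gen B s) * ρ (gen B s)) = (2 : K) • (1 : Module.End K M) := by
        rw [two_smul]
        nth_rewrite 1 [h1]
        rw [neg_smul, one_smul]
        abel
      have h8 := congrArg (fun t => (2 : K)⁻¹ • t) h7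
      simp only [smul_smul, inv_mul_cancel₀ hK2, one_smul] at h8
      exact h8
    · -- se
      intro i
      have h1 := hcomm s (jm m n (Sum.inl i))
      have h3 : A.br (A.e s) (A.e (jm m n (Sum.inl i))) = 0 := by
        rw [pAlg_br, pAlg_s, pAlg_e, sbr_apply, emb_apply]
        simp [plus]
      have h4 : eps K B.par s (jm m n (Sum.inl i)) = 1 := by
        simp [eps, s, B, A, Alg.bc, pAlg, toAlg, jm]
      rw [h3, h4, map_zero, map_zero, map_zero, add_zero, one_smul] at h1
      exact h1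
    · intro i
      have h1 := hcomm s (jm m n (Sum.inr i))
      have h3 : A.br (A.e s) (A.e (jm m n (Sum.inr i))) = 0 := by
        rw [pAlg_br, pAlg_s, pAlg_e, sbr_apply, emb_apply]
        simp [plus]
      have h4 : eps K B.par s (jm m n (Sum.inr i)) = -1 := by
        simp [eps, s, B, A, Alg.bc, pAlg, toAlg, jm]
      rw [h3, h4, map_zero, map_zero, map_zero, add_zero, neg_smul, one_smul] at h1
      exact h1
    · intro x y
      have h1 := hcomm (jm m n x) (jm m n y)
      have h3 : A.br (A.e (jm m n x)) (A.e (jm m n y)) =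
          emb k L₀ L₁ (sbr g ((b₀.prod b₁) x) ((b₀.prod b₁) y)) := by
        rw [pAlg_br, pAlg_e, pAlg_e, sbr_emb]
      have h4 : eps K B.par (jm m n x) (jm m n y) = eps K (parZ m n) x y := by
        have e1 : ∀ x, B.par (jm m n x) = parZ m n x := fun x => pAlg_par h2 g b₀ b₁ x
        unfold eps
        rw [e1, e1]
      rw [h3, h4, htau] at h1
      exact h1
    · intro i
      have hpx : B.par (jm m n (Sum.inl i)) = false := by
        simp [B, A, Alg.bc, pAlg, toAlg, jm]
      have h1 := hρD _ hpx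
      rw [hDx _ hpx] at h1
      have e1 : Pk (jm m n (Sum.inl i)) = emb k L₀ L₁ (P i, 0) := rfl
      have e2 : p ^ ex (jm m n (Sum.inl i)) = p := pow_one p
      have e3 : ζx (jm m n (Sum.inl i)) = ζ i := rfl
      rw [e1, e2, e3, map_sub, map_sub, map_pow, htau, AlgHom.commutes,
        Algebra.algebraMap_eq_smul_one, sub_sub, sub_eq_zero] at h1
      have h5 : ∑ z, algebraMap k K ((b₀.prod b₁).repr (P i, 0) z) • G (Sum.inr z) =
          ∑ z, algebraMap k K (b₀.repr (P i) z) • G (Sum.inr (Sum.inl z)) := by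
        rw [Fintype.sum_sum_type]
        simp
      rw [h5] at h1
      exact h1
  · intro w
    obtain ⟨u, rfl⟩ := hcyc w
    have h1 : ∀ l : List X, ∃ l', ρ (pwf (gen B) l) = pwf G l' := by
      intro l
      induction l with
      | nil => exact ⟨[], by rw [pwf_nil, pwf_nil, map_one]⟩
      | cons x l ih =>
        obtain ⟨l', hl'⟩ := ih
        rcases x with (x | x) | (x | x)
        · exact ⟨Sum.inr (Sum.inl x) :: l', by rw [pwf_cons, pwf_cons, map_mul, hl']; rfl⟩
        · refine ⟨l', ?_⟩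
          rw [pwf_cons, map_mul, hl']
          have : ρ (gen B (Sum.inl (Sum.inr x))) = 1 := hz
          rw [this, one_mul]
        · exact ⟨Sum.inr (Sum.inr x) :: l', by rw [pwf_cons, pwf_cons, map_mul, hl']; rfl⟩
        · exact ⟨Sum.inl () :: l', by rw [pwf_cons, pwf_cons, map_mul, hl']; rfl⟩
    have h3 : (⊤ : Submodule K (Env B)) ≤ (Submodule.span K (Set.range fun l => pwf G l m0)).comap
        ((LinearMap.applyₗ m0).comp ρ.toLinearMap) := by
      rw [← env_gen B, Submodule.span_le]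
      rintro _ ⟨l, rfl⟩
      obtain ⟨l', hl'⟩ := h1 l
      refine Submodule.subset_span ⟨l', ?_⟩
      show pwf G l' m0 = ρ (pwf (gen B) l) m0
      rw [hl']
    exact h3 (x := u) trivial

end reduced

end Pool.Agent.Helper56.SKU
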