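import Mathlib
import Pool.Agent.Helper56.SKU.NF
import Pool.Agent.Helper56.SKU.Lab
import Pool.Agent.Helper56.SKU.Flat
import Pool.Agent.Helper56.SKU.Plus

/-!
# The deformation
-/

namespace Pool.Agent.Helper56.SKU

open Module Pool.Agent.Helper56.SKW Polynomial

section

variable {k L₀ L₁ : Type*} [Field k] [AddCommGroup L₀] [Module k L₀] [AddCommGroup L₁]
  [Module k L₁] {r s q o : ℕ}

/-- Coefficients of the linear part of the commutation relations. -/
noncomputable def cC (g : LieSuper k L₀ L₁) (b₀ : Basis (Fin r ⊕ (Fin s ⊕ Fin s)) k L₀)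
    (b₁ : Basis (Fin q ⊕ (Fin q ⊕ Fin o)) k L₁) : Lt s q o r → Lt s q o r → Lt s q o r → k[X]
  | Sum.inr x, Sum.inr y, Sum.inr z =>
    C ((b₀.prod b₁).repr (sbr g ((b₀.prod b₁) x) ((b₀.prod b₁) y)) z) *
      X ^ (wt (Sum.inr x : Lt s q o r) + wt (Sum.inr y : Lt s q o r) - wt (Sum.inr z : Lt s q o r))
  | _, _, _ => 0

/-- Constant terms of the commutation relations. -/
noncomputable def cC0 (g : LieSuper k L₀ L₁) (b₀ : Basis (Fin r ⊕ (Fin s ⊕ Fin s)) k L₀)
    (b₁ : Basis (Fin q ⊕ (Fin q ⊕ Fin o)) k L₁) (ξ : L₀ →ₗ[k] k) :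
    Lt s q o r → Lt s q o r → k[X]
  | Sum.inl _, Sum.inl _ => 2
  | Sum.inr x, Sum.inr y => C ((th (Sum.inr x : Lt s q o r) (Sum.inr y) : ℤ) : k) * (1 - X) +
      C (ξ (sbr g ((b₀.prod b₁) x) ((b₀.prod b₁) y)).1) *
        X ^ (wt (Sum.inr x : Lt s q o r) + wt (Sum.inr y : Lt s q o r))
  | _, _ => 0

/-- Linear parts of the power relations. -/
noncomputable def cD (g : LieSuper k L₀ L₁) (b₀ : Basis (Fin r ⊕ (Fin s ⊕ Fin s)) k L₀)
    (b₁ : Basis (Fin q ⊕ (Fin q ⊕ Fin o)) k L₁) (P : Fin r ⊕ (Fin s ⊕ Fin s) → L₀) (p : ℕ) :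
    Lt s q o r → Lt s q o r → k[X]
  | Sum.inl _, _ => 0
  | Sum.inr (Sum.inl (Sum.inl j)), z => if z = hh j then 1 else 0
  | Sum.inr (Sum.inl (Sum.inr a)), Sum.inr (Sum.inl z) =>
    C (b₀.repr (P (Sum.inr a)) z) * X ^ (p - wt (Sum.inr (Sum.inl z) : Lt s q o r))
  | Sum.inr (Sum.inl (Sum.inr _)), Sum.inr (Sum.inr _) => 0
  | Sum.inr (Sum.inl (Sum.inr _)), Sum.inl _ => 0
  | Sum.inr (Sum.inr y), z =>
    C (2 : k)⁻¹ * cC g b₀ b₁ (Sum.inr (Sum.inr y)) (Sum.inr (Sum.inr y)) z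

/-- Constant terms of the power relations. -/
noncomputable def cD0 (g : LieSuper k L₀ L₁) (b₀ : Basis (Fin r ⊕ (Fin s ⊕ Fin s)) k L₀)
    (b₁ : Basis (Fin q ⊕ (Fin q ⊕ Fin o)) k L₁) (θ ξ : L₀ →ₗ[k] k)
    (P : Fin r ⊕ (Fin s ⊕ Fin s) → L₀) (χ : Fin r ⊕ (Fin s ⊕ Fin s) → k) (p : ℕ) :
    Lt s q o r → k[X]
  | Sum.inl _ => 1
  | Sum.inr (Sum.inl (Sum.inl _)) => 0
  | Sum.inr (Sum.inl (Sum.inr a)) => C (θ (P (Sum.inr a))) * (1 - X) * X ^ (p - 2) +
      C (ξ (P (Sum.inr a)) + χ (Sum.inr a)) * X ^ p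
  | Sum.inr (Sum.inr y) =>
    C (2 : k)⁻¹ * cC0 g b₀ b₁ ξ (Sum.inr (Sum.inr y)) (Sum.inr (Sum.inr y))

/-- The family of presentations. -/
noncomputable def PR (g : LieSuper k L₀ L₁) (b₀ : Basis (Fin r ⊕ (Fin s ⊕ Fin s)) k L₀)
    (b₁ : Basis (Fin q ⊕ (Fin q ⊕ Fin o)) k L₁) (θ ξ : L₀ →ₗ[k] k)
    (P : Fin r ⊕ (Fin s ⊕ Fin s) → L₀) (χ : Fin r ⊕ (Fin s ⊕ Fin s) → k) (p : ℕ) :
    Pres k[X] (Lt s q o r) where
  E := sgn2 k[X]
  C := cC g b₀ b₁
  C0 := cC0 g b₀ b₁ ξ
  Dc := cD g b₀ b₁ P p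
  D0 := cD0 g b₀ b₁ θ ξ P χ p
  n := nL p

theorem sgn2_unit {S : Type*} [CommRing S] (x y : Lt s q o r) : IsUnit (sgn2 S x y) := by
  unfold sgn2
  split_ifs
  · exact isUnit_one.neg
  · exact isUnit_one

theorem nL_ge (p : ℕ) (hp : 2 ≤ p) (x : Lt s q o r) : 2 ≤ nL p x := by
  unfold nL
  split_ifs
  · exact le_rfl
  · exact hp

end

section comm

theorem comm_main {K A Z : Type*} [Field K] [Ring A] [Algebra K A] [Fintype Z] (Gx Gy : A)
    (G : Z → A) (ε lx ly L : K) (l c : Z → K) (h : Gx * Gy = ε • (Gy * Gx) + ∑ z, c z • G z)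
    (hε : ε = 1 ∨ lx = 0 ∧ ly = 0) (hL : ∑ z, c z * l z = L) :
    (Gx - lx • (1 : A)) * (Gy - ly • (1 : A)) =
      ε • ((Gy - ly • (1 : A)) * (Gx - lx • (1 : A))) + ∑ z, c z • (G z - l z • (1 : A)) +
        L • (1 : A) := by
  have h1 : ∑ z, c z • (G z - l z • (1 : A)) = ∑ z, c z • G z - L • (1 : A) := by
    simp only [smul_sub, smul_smul, Finset.sum_sub_distrib, ← Finset.sum_smul, hL]
  rw [h1]
  rcases hε with rfl | ⟨rfl, rfl⟩
  · simp only [sub_mul, mul_sub, smul_mul_assoc, mul_smul_comm, one_mul, mul_one, h, one_smul]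
    module
  · simp only [zero_smul, sub_zero, h]
    abel

end comm

section rel

variable {k L₀ L₁ : Type*} [Field k] [AddCommGroup L₀] [Module k L₀] [AddCommGroup L₁]
  [Module k L₁] {r s q o : ℕ} {g : LieSuper k L₀ L₁} {b₀ : Basis (Fin r ⊕ (Fin s ⊕ Fin s)) k L₀}
  {b₁ : Basis (Fin q ⊕ (Fin q ⊕ Fin o)) k L₁}

theorem repr_wt {θ : L₀ →ₗ[k] k} {p : ℕ} {w : Fin r → Lt s q o r → k} (h : NF g θ p b₀ b₁ w)
    (x y z) : (b₀.prod b₁).repr (sbr g ((b₀.prod b₁) x) ((b₀.prod b₁) y)) z = 0 ∨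
      wt (Sum.inr z : Lt s q o r) ≤ wt (Sum.inr x : Lt s q o r) + wt (Sum.inr y : Lt s q o r) := by
  have hw1 : wt (Sum.inr z : Lt s q o r) ≤ 1 := by
    rcases z with (z | z) | z <;> simp [wt]
  rcases x with (x | x) | x
  · rw [h.hw, map_smul, Basis.repr_self]
    by_cases hz : y = z
    · right
      subst hz
      exact Nat.le_add_left _ _
    · left
      simp [hz]
  · right
    exact hw1.trans (Nat.le_add_right 1 _)
  · right
    exact hw1.trans (Nat.le_add_right 1 _)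

variable {K A : Type*} [Field K] [Algebra k K] [Ring A] [Algebra K A]

/-- The rescaled and shifted letters. -/
noncomputable def shf (b₀ : Basis (Fin r ⊕ (Fin s ⊕ Fin s)) k L₀)
    (b₁ : Basis (Fin q ⊕ (Fin q ⊕ Fin o)) k L₁) (lam : L₀ →ₗ[k] K) (η : K)
    (G : Lt s q o r → A) : Lt s q o r → A
  | Sum.inl _ => G (Sum.inl ())
  | Sum.inr x => η ^ wt (Sum.inr x : Lt s q o r) •
      (G (Sum.inr x) - lam ((b₀.prod b₁) x).1 • (1 : A))

/-- The linear form used for the shift. -/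
noncomputable def lamK (θ ξ : L₀ →ₗ[k] k) (η : K) : L₀ →ₗ[k] K :=
  ((1 - η) / η ^ 2) • ((Algebra.linearMap k K).comp θ) + (Algebra.linearMap k K).comp ξ

theorem lamK_apply (θ ξ : L₀ →ₗ[k] k) (η : K) (x : L₀) : lamK θ ξ η x =
    (1 - η) / η ^ 2 * algebraMap k K (θ x) + algebraMap k K (ξ x) := rfl

theorem wt_cases (x : Lt s q o r) : wt x = 0 ∨ wt x = 1 := by
  rcases x with x | ((x | x) | x) <;> simp [wt]

theorem th_zero {x y : Lt s q o r} (h : wt x = 0 ∨ wt y = 0) : th x y = 0 := by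
  rcases x with ⟨⟩ | ((x | (x | x)) | (x | (x | x))) <;>
    rcases y with ⟨⟩ | ((y | (y | y)) | (y | (y | y))) <;> simp [wt] at h <;> rfl

theorem th_lam {θ ξ : L₀ →ₗ[k] k} {p : ℕ} {w : Fin r → Lt s q o r → k}
    (h : NF g θ p b₀ b₁ w) {η : K} (hη : η ≠ 0) (x y) :
    η ^ wt (Sum.inr x : Lt s q o r) * η ^ wt (Sum.inr y : Lt s q o r) *
      lamK θ ξ η (sbr g ((b₀.prod b₁) x) ((b₀.prod b₁) y)).1 =
    (aeval η : k[X] →ₐ[k] K) (cC0 g b₀ b₁ ξ (Sum.inr x) (Sum.inr y)) := by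
  rw [lamK_apply, h.hth]
  simp only [cC0, map_add, map_mul, map_sub, map_one, map_pow, aeval_X, aeval_C]
  by_cases h0 : wt (Sum.inr x : Lt s q o r) = 0 ∨ wt (Sum.inr y : Lt s q o r) = 0
  · rw [th_zero h0]
    simp only [Int.cast_zero, map_zero, mul_zero, zero_mul, zero_add, pow_add]
    ring
  · push Not at h0
    have h1 := (wt_cases (Sum.inr x : Lt s q o r)).resolve_left h0.1
    have h2 := (wt_cases (Sum.inr y : Lt s q o r)).resolve_left h0.2
    rw [h1, h2]
    field_simp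
    ring

theorem shf_comm {θ ξ : L₀ →ₗ[k] k} {p : ℕ} {w : Fin r → Lt s q o r → k}
    (h : NF g θ p b₀ b₁ w) {P : Fin r ⊕ (Fin s ⊕ Fin s) → L₀}
    {η : K} (hη : η ≠ 0) {ζ : Fin r ⊕ (Fin s ⊕ Fin s) → K} {G : Lt s q o r → A}
    (hG : RepRel g b₀ b₁ p P ζ G) (x y : Lt s q o r) :
    shf b₀ b₁ (lamK θ ξ η) η G x * shf b₀ b₁ (lamK θ ξ η) η G y =
      (aeval η : k[X] →ₐ[k] K) (sgn2 k[X] x y) •
        (shf b₀ b₁ (lamK θ ξ η) η G y * shf b₀ b₁ (lamK θ ξ η) η G x) +
      ∑ z, (aeval η : k[X] →ₐ[k] K) (cC g b₀ b₁ x y z) • shf b₀ b₁ (lamK θ ξ η) η G z +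
        (aeval η : k[X] →ₐ[k] K) (cC0 g b₀ b₁ ξ x y) • (1 : A) := by
  classical
  have hsgn : ∀ x y : Lt s q o r, (aeval η : k[X] →ₐ[k] K) (sgn2 k[X] x y) = sgn2 K x y := by
    intro x y
    unfold sgn2
    split_ifs <;> simp
  rw [hsgn]
  rcases x with ⟨⟩ | x
  · rcases y with ⟨⟩ | y
    · simp only [shf, hG.ss, cC, cC0, map_zero, zero_smul, Finset.sum_const_zero, add_zero,
        sgn2, od]
      simp only [Bool.and_self, if_true, map_ofNat]
      module
    · have h0 : ∀ z, cC g b₀ b₁ (Sum.inl ()) (Sum.inr y) z = 0 := by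
        rintro (z | z) <;> rfl
      simp only [h0, cC0, map_zero, zero_smul, Finset.sum_const_zero, add_zero]
      rcases y with y | y
      · simp only [shf, sgn2, od]
        have := hG.se y
        simp only [mul_smul_comm, smul_mul_assoc, mul_sub, sub_mul, this, mul_one, one_mul]
        simp
      · simp only [shf, sgn2, od]
        have := hG.so y
        simp only [mul_smul_comm, smul_mul_assoc, mul_sub, sub_mul, this, mul_one, one_mul]
        simp
  · rcases y with ⟨⟩ | y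
    · have h0 : ∀ z, cC g b₀ b₁ (Sum.inr x) (Sum.inl ()) z = 0 := by
        rintro (z | z) <;> rfl
      simp only [h0, cC0, map_zero, zero_smul, Finset.sum_const_zero, add_zero]
      rcases x with x | x
      · simp only [shf, sgn2, od]
        have := hG.se x
        simp only [mul_smul_comm, smul_mul_assoc, mul_sub, sub_mul, this, mul_one, one_mul]
        simp
      · simp only [shf, sgn2, od]
        have := hG.so x
        simp only [mul_smul_comm, smul_mul_assoc, mul_sub, sub_mul, this, mul_one, one_mul]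
        simp
    · set lam := lamK θ ξ η (K := K) with hlam
      let e := b₀.prod b₁
      let c : (Fin r ⊕ (Fin s ⊕ Fin s)) ⊕ (Fin q ⊕ (Fin q ⊕ Fin o)) → k := fun z =>
        e.repr (sbr g (e x) (e y)) z
      have hL : ∑ z, algebraMap k K (c z) * lam (e z).1 = lam (sbr g (e x) (e y)).1 := by
        have h1 : sbr g (e x) (e y) = ∑ z, c z • e z := (e.sum_repr _).symm
        conv_rhs => rw [h1]
        rw [Prod.fst_sum, map_sum]
        refine Finset.sum_congr rfl fun z _ => ?_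
        rw [Prod.smul_fst, map_smul, Algebra.smul_def]
      have hε : sgn2 K (Sum.inr x : Lt s q o r) (Sum.inr y) = 1 ∨
          lam (e x).1 = 0 ∧ lam (e y).1 = 0 := by
        rcases x with x | x
        · left; simp [sgn2, od]
        · rcases y with y | y
          · left; simp [sgn2, od]
          · right; simp [e]
      have hbr := hG.br x y
      have heps : PBW.eps K (parZ (Fin r ⊕ (Fin s ⊕ Fin s)) (Fin q ⊕ (Fin q ⊕ Fin o))) x y =
          sgn2 K (Sum.inr x : Lt s q o r) (Sum.inr y) := by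
        rcases x with x | x <;> rcases y with y | y <;> rfl
      rw [heps] at hbr
      have hm := comm_main (G (Sum.inr x)) (G (Sum.inr y)) (fun z => G (Sum.inr z)) _
        (lam (e x).1) (lam (e y).1) _ (fun z => lam (e z).1) (fun z => algebraMap k K (c z)) hbr
        hε hL
      have hsum : ∑ z, (aeval η : k[X] →ₐ[k] K) (cC g b₀ b₁ (Sum.inr x) (Sum.inr y) z) •
          shf b₀ b₁ lam η G z = (η ^ wt (Sum.inr x : Lt s q o r) *
            η ^ wt (Sum.inr y : Lt s q o r)) • ∑ z, algebraMap k K (c z) •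
              (G (Sum.inr z) - lam (e z).1 • (1 : A)) := by
        rw [Fintype.sum_sum_type]
        have h0 : ∀ z : Unit, cC g b₀ b₁ (Sum.inr x) (Sum.inr y) (Sum.inl z) = 0 := fun _ => rfl
        simp only [h0, map_zero, zero_smul, Finset.sum_const_zero, zero_add]
        rw [Finset.smul_sum]
        refine Finset.sum_congr rfl fun z _ => ?_
        simp only [cC, shf, map_mul, map_pow, aeval_X, aeval_C, smul_smul]
        rcases repr_wt h x y z with h1 | h1
        · have h2 : c z = 0 := h1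
          rw [h1, h2, map_zero, zero_mul, zero_mul, mul_zero]
        · congr 1
          have h3 : η ^ (wt (Sum.inr x : Lt s q o r) + wt (Sum.inr y : Lt s q o r) -
              wt (Sum.inr z : Lt s q o r)) * η ^ wt (Sum.inr z : Lt s q o r) =
              η ^ wt (Sum.inr x : Lt s q o r) * η ^ wt (Sum.inr y : Lt s q o r) := by
            rw [← pow_add, Nat.sub_add_cancel h1, pow_add]
          rw [mul_assoc, h3]
          ring
      rw [hsum, ← th_lam h hη]
      simp only [shf]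
      rw [smul_mul_smul_comm, hm]
      simp only [smul_add, smul_smul, smul_mul_smul_comm]
      congr 1
      congr 1
      congr 1
      ring

theorem sub_pow_one (p : ℕ) [Fact p.Prime] [CharP K p] (a : A) (l : K) :
    (a - l • (1 : A)) ^ p = a ^ p - l ^ p • (1 : A) := by
  rcases subsingleton_or_nontrivial A with hA | hA
  · exact Subsingleton.elim _ _
  · have : CharP A p := charP_of_injective_algebraMap (algebraMap K A).injective p
    have hc : Commute a (l • (1 : A)) := (Commute.one_right a).smul_right l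
    rw [sub_pow_char_of_commute p hc, _root_.smul_pow, one_pow]

theorem shf_pow {θ ξ : L₀ →ₗ[k] k} {p : ℕ} [hp : Fact p.Prime] [CharP K p] (h2 : (2 : k) ≠ 0)
    {w : Fin r → Lt s q o r → k}
    (h : NF g θ p b₀ b₁ w) {P : Fin r ⊕ (Fin s ⊕ Fin s) → L₀} {χ : Fin r ⊕ (Fin s ⊕ Fin s) → k}
    {η : K} (hη : η ≠ 0) {ζ : Fin r ⊕ (Fin s ⊕ Fin s) → K} {G : Lt s q o r → A}
    (hG : RepRel g b₀ b₁ p P ζ G) (hPj : ∀ j, P (Sum.inl j) = b₀ (Sum.inl j))
    (hζj : ∀ j, ζ (Sum.inl j) = lamK θ ξ η (b₀ (Sum.inl j)) ^ p - lamK θ ξ η (b₀ (Sum.inl j)))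
    (hζa : ∀ a, ζ (Sum.inr a) = lamK θ ξ η (b₀ (Sum.inr a)) ^ p +
      algebraMap k K (χ (Sum.inr a))) (x : Lt s q o r) :
    shf b₀ b₁ (lamK θ ξ η) η G x ^ nL p x =
      ∑ z, (aeval η : k[X] →ₐ[k] K) (cD g b₀ b₁ P p x z) • shf b₀ b₁ (lamK θ ξ η) η G z +
        (aeval η : k[X] →ₐ[k] K) (cD0 g b₀ b₁ θ ξ P χ p x) • (1 : A) := by
  classical
  have hK2 : (2 : K) ≠ 0 := by
    intro h0
    apply h2
    apply (algebraMap k K).injective
    rw [map_zero, map_ofNat, h0]
  rcases x with ⟨⟩ | ((j | a) | y)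
  · show G (Sum.inl ()) ^ 2 = _
    simp only [cD, cD0, map_zero, zero_smul, Finset.sum_const_zero, zero_add, map_one, one_smul]
    rw [pow_two, hG.ss]
  · have hn : nL p (Sum.inr (Sum.inl (Sum.inl j)) : Lt s q o r) = p := by simp [nL, od]
    rw [hn]
    have h1 : ∑ z, (aeval η : k[X] →ₐ[k] K) (cD g b₀ b₁ P p (Sum.inr (Sum.inl (Sum.inl j))) z) •
        shf b₀ b₁ (lamK θ ξ η) η G z = shf b₀ b₁ (lamK θ ξ η) η G (hh j) := by
      rw [Finset.sum_eq_single (hh j)]
      · simp only [cD, if_true, map_one, one_smul]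
      · intro z _ hz
        simp only [cD, if_neg hz, map_zero, zero_smul]
      · simp
    rw [h1]
    have h3 : ∀ (M : Lt s q o r → A), shf b₀ b₁ (lamK θ ξ η) η M (hh j) = M (hh j) -
        lamK θ ξ η (b₀ (Sum.inl j)) • (1 : A) := by
      intro M
      simp [shf, wt]
    rw [h3, sub_pow_one, hG.pw, hζj, hPj, Basis.repr_self]
    have h4 : ∑ z, algebraMap k K ((Finsupp.single (Sum.inl j) (1 : k) :
        Fin r ⊕ (Fin s ⊕ Fin s) →₀ k) z) • G (Sum.inr (Sum.inl z)) = G (hh j) := by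
      rw [Finset.sum_eq_single (Sum.inl j)]
      · simp
      · intro z _ hz
        rw [Finsupp.single_apply, if_neg (Ne.symm hz), map_zero, zero_smul]
      · simp
    rw [h4]
    simp only [cD0, map_zero, zero_smul, add_zero]
    module
  · have hn : nL p (Sum.inr (Sum.inl (Sum.inr a)) : Lt s q o r) = p := by
      rcases a with a | a <;> simp [nL, od]
    rw [hn]
    have hwt : wt (Sum.inr (Sum.inl (Sum.inr a)) : Lt s q o r) = 1 := by
      rcases a with a | a <;> rfl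
    have h1 : ∑ z, (aeval η : k[X] →ₐ[k] K) (cD g b₀ b₁ P p (Sum.inr (Sum.inl (Sum.inr a))) z) •
        shf b₀ b₁ (lamK θ ξ η) η G z = η ^ p • (∑ z, algebraMap k K (b₀.repr (P (Sum.inr a)) z) •
          G (Sum.inr (Sum.inl z)) - lamK θ ξ η (P (Sum.inr a)) • (1 : A)) := by
      rw [Fintype.sum_sum_type, Fintype.sum_sum_type]
      simp only [cD, map_zero, zero_smul, Finset.sum_const_zero, zero_add, add_zero]
      have h5 : lamK θ ξ η (P (Sum.inr a)) = ∑ z, algebraMap k K (b₀.repr (P (Sum.inr a)) z) *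
          lamK θ ξ η (b₀ z) := by
        conv_lhs => rw [← b₀.sum_repr (P (Sum.inr a))]
        rw [map_sum]
        refine Finset.sum_congr rfl fun z _ => ?_
        rw [map_smul, Algebra.smul_def]
      rw [h5, Finset.sum_smul, ← Finset.sum_sub_distrib, Finset.smul_sum]
      refine Finset.sum_congr rfl fun z _ => ?_
      simp only [shf, map_mul, map_pow, aeval_X, aeval_C, smul_smul]
      have h6 : wt (Sum.inr (Sum.inl z) : Lt s q o r) ≤ p := by
        rcases wt_cases (Sum.inr (Sum.inl z) : Lt s q o r) with h7 | h7 <;> rw [h7]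
        · exact Nat.zero_le _
        · exact hp.out.pos
      rw [mul_assoc, ← pow_add, Nat.sub_add_cancel h6]
      simp only [Basis.prod_apply, Sum.elim_inl, Function.comp_apply, LinearMap.inl_apply]
      module
    rw [h1]
    have h3 : shf b₀ b₁ (lamK θ ξ η) η G (Sum.inr (Sum.inl (Sum.inr a))) =
        η • (G (Sum.inr (Sum.inl (Sum.inr a))) - lamK θ ξ η (b₀ (Sum.inr a)) • (1 : A)) := by
      simp [shf, hwt]
    rw [h3, _root_.smul_pow, sub_pow_one, hG.pw, hζa]
    have h7 : (aeval η : k[X] →ₐ[k] K) (cD0 g b₀ b₁ θ ξ P χ p (Sum.inr (Sum.inl (Sum.inr a)))) =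
        η ^ p * (lamK θ ξ η (P (Sum.inr a)) + algebraMap k K (χ (Sum.inr a))) := by
      simp only [cD0, lamK_apply, map_mul, map_pow, map_add, map_sub, map_one, aeval_X, aeval_C]
      have h8 : η ^ p = η ^ (p - 2) * η ^ 2 := by
        rw [← pow_add, Nat.sub_add_cancel hp.out.two_le]
      rw [h8]
      field_simp
      ring
    rw [h7]
    module
  · have hn : nL p (Sum.inr (Sum.inr y) : Lt s q o r) = 2 := by simp [nL, od]
    rw [hn]
    have h1 := shf_comm (ξ := ξ) h hη hG (Sum.inr (Sum.inr y)) (Sum.inr (Sum.inr y))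
    have h3 : (aeval η : k[X] →ₐ[k] K) (sgn2 k[X] (Sum.inr (Sum.inr y) : Lt s q o r)
        (Sum.inr (Sum.inr y))) = -1 := by
      simp [sgn2, od]
    rw [h3] at h1
    simp only [cD, cD0, map_mul, aeval_C, map_inv₀, map_ofNat, mul_smul]
    rw [← Finset.smul_sum, ← smul_add, pow_two]
    rw [eq_inv_smul_iff₀ hK2, two_smul]
    nth_rewrite 1 [h1]
    module

/-- The relations of the deformation from a representation. -/
theorem isRel_of_rep {θ ξ : L₀ →ₗ[k] k} {p : ℕ} [hp : Fact p.Prime] [CharP K p]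
    (h2 : (2 : k) ≠ 0) {w : Fin r → Lt s q o r → k}
    (h : NF g θ p b₀ b₁ w) {P : Fin r ⊕ (Fin s ⊕ Fin s) → L₀} {χ : Fin r ⊕ (Fin s ⊕ Fin s) → k}
    {η : K} (hη : η ≠ 0) {ζ : Fin r ⊕ (Fin s ⊕ Fin s) → K} {G : Lt s q o r → A}
    (hG : RepRel g b₀ b₁ p P ζ G) (hPj : ∀ j, P (Sum.inl j) = b₀ (Sum.inl j))
    (hζj : ∀ j, ζ (Sum.inl j) = lamK θ ξ η (b₀ (Sum.inl j)) ^ p - lamK θ ξ η (b₀ (Sum.inl j)))
    (hζa : ∀ a, ζ (Sum.inr a) = lamK θ ξ η (b₀ (Sum.inr a)) ^ p +
      algebraMap k K (χ (Sum.inr a))) :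
    IsRel (PR g b₀ b₁ θ ξ P χ p) ((aeval η : k[X] →ₐ[k] K) : k[X] →+* K)
      (shf b₀ b₁ (lamK θ ξ η) η G) where
  comm x y := shf_comm h hη hG x y
  pow x := shf_pow h2 h hη hG hPj hζj hζa x

end rel

section lim

variable {k L₀ L₁ : Type*} [Field k] [AddCommGroup L₀] [Module k L₀] [AddCommGroup L₁]
  [Module k L₁] {r s q o : ℕ} {g : LieSuper k L₀ L₁} {b₀ : Basis (Fin r ⊕ (Fin s ⊕ Fin s)) k L₀}
  {b₁ : Basis (Fin q ⊕ (Fin q ⊕ Fin o)) k L₁} {F A : Type*} [Field F] [Ring A] [Algebra F A]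

/-- The limit relations. -/
theorem lim0_of_rel {θ ξ : L₀ →ₗ[k] k} {p : ℕ} (hp : 2 < p) {w : Fin r → Lt s q o r → k}
    (h : NF g θ p b₀ b₁ w) {P : Fin r ⊕ (Fin s ⊕ Fin s) → L₀} {χ : Fin r ⊕ (Fin s ⊕ Fin s) → k}
    (ψ : k[X] →+* F) (hψ : ψ X = 0) {f : Lt s q o r → A}
    (hf : IsRel (PR g b₀ b₁ θ ξ P χ p) ψ f) : Lim0 p (fun j x => ψ (C (w j x))) f := by
  classical
  have hsgn : ∀ x y : Lt s q o r, ψ (sgn2 k[X] x y) = sgn2 F x y := by
    intro x y
    unfold sgn2
    split_ifs <;> simp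
  have hX : ∀ n, n ≠ 0 → ψ X ^ n = 0 := fun n hn => by rw [hψ, zero_pow hn]
  constructor
  · -- ss
    have h1 := hf.pow sg
    have h2 : ∀ z, (PR g b₀ b₁ θ ξ P χ p).Dc sg z = 0 := fun z => rfl
    have h3 : (PR g b₀ b₁ θ ξ P χ p).D0 sg = 1 := rfl
    have h4 : (PR g b₀ b₁ θ ξ P χ p).n sg = 2 := rfl
    simp only [h2, h3, h4, map_zero, zero_smul, Finset.sum_const_zero, zero_add, map_one,
      one_smul] at h1
    rw [← pow_two, h1]
  · -- sx
    intro x hx
    rcases x with ⟨⟩ | x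
    · exact absurd rfl hx
    have h1 := hf.comm sg (Sum.inr x)
    have h2 : ∀ z, (PR g b₀ b₁ θ ξ P χ p).C sg (Sum.inr x) z = 0 := by
      rintro (z | z) <;> rfl
    have h3 : (PR g b₀ b₁ θ ξ P χ p).C0 sg (Sum.inr x) = 0 := rfl
    have h4 : (PR g b₀ b₁ θ ξ P χ p).E sg (Sum.inr x) = sgn2 k[X] sg (Sum.inr x) := rfl
    simp only [h2, h3, h4, map_zero, zero_smul, Finset.sum_const_zero, add_zero, hsgn] at h1
    exact h1
  · -- hx
    intro j x
    rcases x with ⟨⟩ | x
    · have h1 := hf.comm (hh j) sg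
      have h2 : ∀ z, (PR g b₀ b₁ θ ξ P χ p).C (hh j) sg z = 0 := by
        rintro (z | z) <;> rfl
      have h3 : (PR g b₀ b₁ θ ξ P χ p).C0 (hh j) sg = 0 := rfl
      have h4 : (PR g b₀ b₁ θ ξ P χ p).E (hh j) sg = 1 := by
        show sgn2 k[X] (hh j : Lt s q o r) sg = 1
        simp [sgn2, od]
      simp only [h2, h3, h4, map_zero, zero_smul, Finset.sum_const_zero, add_zero, map_one,
        one_smul] at h1
      have h5 : w j (Sum.inl () : Lt s q o r) = 0 := h.sym.sg j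
      show f (hh j) * f sg = f sg * f (hh j) + ψ (C (w j sg)) • f sg
      rw [h5, h1]
      simp
    · have h1 := hf.comm (hh j) (Sum.inr x)
      have h4 : (PR g b₀ b₁ θ ξ P χ p).E (hh j) (Sum.inr x) = 1 := by
        show sgn2 k[X] (hh j : Lt s q o r) (Sum.inr x) = 1
        simp [sgn2, od]
      have h3 : ψ ((PR g b₀ b₁ θ ξ P χ p).C0 (hh j) (Sum.inr x)) = 0 := by
        show ψ (cC0 g b₀ b₁ ξ (hh j) (Sum.inr x)) = 0
        simp only [cC0, map_add, map_mul, map_pow]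
        rw [th_zero (Or.inl rfl), h.hw]
        rcases wt_cases (Sum.inr x : Lt s q o r) with h0 | h0
        · have h6 : w j (Sum.inr x) = 0 := by
            rcases x with (x | (x | x)) | (x | (x | x))
            · exact h.sym.hh j x
            all_goals simp [wt] at h0
          rw [h6]
          simp
        · rw [h0, hX _ (by simp), mul_zero]
          simp
      have h2 : ∑ z, ψ ((PR g b₀ b₁ θ ξ P χ p).C (hh j) (Sum.inr x) z) • f z =
          ψ (C (w j (Sum.inr x))) • f (Sum.inr x) := by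
        rw [Finset.sum_eq_single (Sum.inr x)]
        · have h5 : (PR g b₀ b₁ θ ξ P χ p).C (hh j) (Sum.inr x) (Sum.inr x) = C (w j (Sum.inr x)) := by
            show cC g b₀ b₁ (hh j) (Sum.inr x) (Sum.inr x) = C (w j (Sum.inr x))
            simp only [cC]
            rw [h.hw, map_smul, Basis.repr_self]
            simp [wt]
          rw [h5]
        · intro z _ hz
          rcases z with z | z
          · have h5 : (PR g b₀ b₁ θ ξ P χ p).C (hh j) (Sum.inr x) (Sum.inl z) = 0 := rfl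
            rw [h5, map_zero, zero_smul]
          · have h5 : (PR g b₀ b₁ θ ξ P χ p).C (hh j) (Sum.inr x) (Sum.inr z) = 0 := by
              show cC g b₀ b₁ (hh j) (Sum.inr x) (Sum.inr z) = 0
              simp only [cC]
              rw [h.hw, map_smul, Basis.repr_self]
              have : x ≠ z := fun hxz => hz (by rw [hxz])
              simp [this]
            rw [h5, map_zero, zero_smul]
        · simp
      rw [h4, h3, h2, map_one, one_smul, zero_smul, add_zero] at h1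
      exact h1
  · -- hp
    intro j
    have h1 := hf.pow (hh j)
    have h4 : (PR g b₀ b₁ θ ξ P χ p).n (hh j) = p := by
      show nL p (hh j : Lt s q o r) = p
      simp [nL, od]
    have h3 : (PR g b₀ b₁ θ ξ P χ p).D0 (hh j) = 0 := rfl
    have h2 : ∑ z, ψ ((PR g b₀ b₁ θ ξ P χ p).Dc (hh j) z) • f z = f (hh j) := by
      rw [Finset.sum_eq_single (hh j)]
      · show ψ (cD g b₀ b₁ P p (hh j) (hh j)) • f (hh j) = f (hh j)
        simp [cD]
      · intro z _ hz
        show ψ (cD g b₀ b₁ P p (hh j) z) • f z = 0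
        simp only [cD, if_neg hz, map_zero, zero_smul]
      · simp
    rw [h4, h3, h2, map_zero, zero_smul, add_zero] at h1
    exact h1
  · -- ap
    intro i
    have h1 := hf.pow (aa i)
    have h4 : (PR g b₀ b₁ θ ξ P χ p).n (aa i) = p := by
      show nL p (aa i : Lt s q o r) = p
      simp [nL, od]
    have h3 : ψ ((PR g b₀ b₁ θ ξ P χ p).D0 (aa i)) = 0 := by
      show ψ (cD0 g b₀ b₁ θ ξ P χ p (aa i)) = 0
      simp only [cD0, map_add, map_mul, map_pow]
      rw [hX _ (by omega), hX _ (by omega)]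
      simp
    have h2 : ∑ z, ψ ((PR g b₀ b₁ θ ξ P χ p).Dc (aa i) z) • f z = 0 := by
      refine Finset.sum_eq_zero fun z _ => ?_
      have h5 : ψ ((PR g b₀ b₁ θ ξ P χ p).Dc (aa i) z) = 0 := by
        show ψ (cD g b₀ b₁ P p (aa i) z) = 0
        rcases z with z | (z | z)
        · simp [cD]
        · simp only [cD, map_mul, map_pow]
          rw [hX _ (by rcases wt_cases (Sum.inr (Sum.inl z) : Lt s q o r) with h0 | h0 <;>
            rw [h0] <;> omega), mul_zero]
        · simp [cD]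
      rw [h5, zero_smul]
    rw [h4, h3, h2, zero_smul, add_zero] at h1
    exact h1
  · -- xy
    intro x y hx hy
    have h1 := hf.comm x y
    have h4 : (PR g b₀ b₁ θ ξ P χ p).E x y = sgn2 k[X] x y := rfl
    have h3 : ψ ((PR g b₀ b₁ θ ξ P χ p).C0 x y) = (th x y : F) := by
      rcases x with x | x
      · simp [wt] at hx
      rcases y with y | y
      · simp [wt] at hy
      show ψ (cC0 g b₀ b₁ ξ (Sum.inr x) (Sum.inr y)) = _
      simp only [cC0, map_add, map_mul, map_pow, hx, hy, map_sub, map_one, hψ]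
      simp
    have h2 : ∑ z, ψ ((PR g b₀ b₁ θ ξ P χ p).C x y z) • f z = 0 := by
      refine Finset.sum_eq_zero fun z _ => ?_
      have h5 : ψ ((PR g b₀ b₁ θ ξ P χ p).C x y z) = 0 := by
        rcases x with x | x
        · simp [wt] at hx
        rcases y with y | y
        · simp [wt] at hy
        rcases z with z | z
        · show ψ (cC g b₀ b₁ (Sum.inr x) (Sum.inr y) (Sum.inl z)) = 0
          simp [cC]
        show ψ (cC g b₀ b₁ (Sum.inr x) (Sum.inr y) (Sum.inr z)) = 0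
        simp only [cC, map_mul, map_pow]
        rw [hX _ (by rcases wt_cases (Sum.inr z : Lt s q o r) with h0 | h0 <;>
          rw [h0, hx, hy] <;> omega), mul_zero]
      rw [h5, zero_smul]
    rw [h4, h3, h2, hsgn, add_zero] at h1
    exact h1

end lim

end Pool.Agent.Helper56.SKU
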