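import Mathlib
import Pool.Agent.Helper56.SKU.Def
import Pool.Agent.Helper56.SKU.Cap

/-!
# Irreducible modules as representations of the presentations
-/

namespace Pool.Agent.Helper56.SKU

open Module Pool.Agent.Helper56.SKW

section par

variable {k L₀ L₁ : Type*} [Field k] [AddCommGroup L₀] [Module k L₀] [AddCommGroup L₁]
  [Module k L₁] {g : LieSuper k L₀ L₁} {V : Type*} [AddCommGroup V] [Module k V]

theorem exists_parity (M : SuperModule g V) : ∃ σ : Module.End k V, (∀ v ∈ M.V₀, σ v = v) ∧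
    (∀ v ∈ M.V₁, σ v = -v) := by
  refine ⟨LinearMap.ofIsCompl M.compl M.V₀.subtype (-M.V₁.subtype), ?_, ?_⟩
  · intro v hv
    exact LinearMap.ofIsCompl_apply_left M.compl (⟨v, hv⟩ : M.V₀)
  · intro v hv
    exact LinearMap.ofIsCompl_apply_right M.compl (⟨v, hv⟩ : M.V₁)

theorem ext_par (M : SuperModule g V) {f f' : Module.End k V} (h0 : ∀ v ∈ M.V₀, f v = f' v)
    (h1 : ∀ v ∈ M.V₁, f v = f' v) : f = f' := by
  apply LinearMap.ext
  intro v
  have : v ∈ M.V₀ ⊔ M.V₁ := by rw [M.compl.sup_eq_top]; trivial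
  obtain ⟨a, ha, b, hb, rfl⟩ := Submodule.mem_sup.1 this
  rw [map_add, map_add, h0 a ha, h1 b hb]

theorem par_sq (M : SuperModule g V) {σ : Module.End k V} (h0 : ∀ v ∈ M.V₀, σ v = v)
    (h1 : ∀ v ∈ M.V₁, σ v = -v) : σ * σ = 1 := by
  refine ext_par M ?_ ?_
  · intro v hv
    rw [Module.End.mul_apply, h0 v hv, h0 v hv]; rfl
  · intro v hv
    rw [Module.End.mul_apply, h1 v hv, map_neg, h1 v hv, neg_neg]; rfl

theorem par_even (M : SuperModule g V) {σ : Module.End k V} (h0 : ∀ v ∈ M.V₀, σ v = v)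
    (h1 : ∀ v ∈ M.V₁, σ v = -v) (x : L₀) : σ * M.ρ₀ x = M.ρ₀ x * σ := by
  refine ext_par M ?_ ?_
  · intro v hv
    rw [Module.End.mul_apply, Module.End.mul_apply, h0 v hv, h0 _ (M.even_V₀ x v hv)]
  · intro v hv
    rw [Module.End.mul_apply, Module.End.mul_apply, h1 v hv, h1 _ (M.even_V₁ x v hv), map_neg]

theorem par_odd (M : SuperModule g V) {σ : Module.End k V} (h0 : ∀ v ∈ M.V₀, σ v = v)
    (h1 : ∀ v ∈ M.V₁, σ v = -v) (y : L₁) : σ * M.ρ₁ y = -(M.ρ₁ y * σ) := by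
  refine ext_par M ?_ ?_
  · intro v hv
    rw [Module.End.mul_apply, LinearMap.neg_apply, Module.End.mul_apply, h0 v hv,
      h1 _ (M.odd_V₀ y v hv)]
  · intro v hv
    rw [Module.End.mul_apply, LinearMap.neg_apply, Module.End.mul_apply, h1 v hv,
      h0 _ (M.odd_V₁ y v hv), map_neg, neg_neg]

theorem irr_stable (h2 : (2 : k) ≠ 0) (M : SuperModule g V) (hM : M.IsIrreducible)
    {σ : Module.End k V} (h0 : ∀ v ∈ M.V₀, σ v = v) (h1 : ∀ v ∈ M.V₁, σ v = -v)
    (W : Submodule k V) (hW0 : ∀ x, ∀ v ∈ W, M.ρ₀ x v ∈ W) (hW1 : ∀ y, ∀ v ∈ W, M.ρ₁ y v ∈ W)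
    (hWσ : ∀ v ∈ W, σ v ∈ W) : W = ⊥ ∨ W = ⊤ := by
  refine hM.2 W ?_ hW0 hW1
  refine le_antisymm ?_ (sup_le inf_le_left inf_le_left)
  intro v hv
  have : v ∈ M.V₀ ⊔ M.V₁ := by rw [M.compl.sup_eq_top]; trivial
  obtain ⟨a, ha, b, hb, rfl⟩ := Submodule.mem_sup.1 this
  have h3 : σ (a + b) = a - b := by rw [map_add, h0 a ha, h1 b hb, sub_eq_add_neg]
  have h4 := hWσ _ hv
  rw [h3] at h4
  have ha' : a ∈ W := by
    have h5 : (2 : k)⁻¹ • ((a + b) + (a - b)) = a := by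
      rw [add_add_sub_cancel, ← two_smul k a, smul_smul, inv_mul_cancel₀ h2, one_smul]
    rw [← h5]
    exact W.smul_mem _ (W.add_mem hv h4)
  have hb' : b ∈ W := by
    have h5 : (a + b) - a = b := by abel
    rw [← h5]
    exact W.sub_mem hv ha'
  exact Submodule.add_mem_sup ⟨ha', ha⟩ ⟨hb', hb⟩

theorem irr_scalar [IsAlgClosed k] [FiniteDimensional k V] (h2 : (2 : k) ≠ 0)
    (M : SuperModule g V) (hM : M.IsIrreducible)
    {σ : Module.End k V} (h0 : ∀ v ∈ M.V₀, σ v = v) (h1 : ∀ v ∈ M.V₁, σ v = -v)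
    (z : Module.End k V) (hz0 : ∀ x, z * M.ρ₀ x = M.ρ₀ x * z) (hz1 : ∀ y, z * M.ρ₁ y = M.ρ₁ y * z)
    (hzσ : z * σ = σ * z) : ∃ c : k, z = c • (1 : Module.End k V) := by
  have hnt := hM.1
  obtain ⟨c, hc⟩ := Module.End.exists_eigenvalue z
  refine ⟨c, ?_⟩
  have hst : ∀ a : Module.End k V, z * a = a * z → ∀ v ∈ z.eigenspace c, a v ∈ z.eigenspace c := by
    intro a ha v hv
    rw [Module.End.mem_eigenspace_iff] at hv ⊢
    rw [← Module.End.mul_apply, ha, Module.End.mul_apply, hv, map_smul]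
  rcases irr_stable h2 M hM h0 h1 (z.eigenspace c) (fun x => hst _ (hz0 x))
    (fun y => hst _ (hz1 y)) (hst _ hzσ) with h | h
  · exact absurd h (Module.End.hasEigenvalue_iff.1 hc)
  · apply LinearMap.ext
    intro v
    have : v ∈ z.eigenspace c := by rw [h]; trivial
    exact (Module.End.mem_eigenspace_iff).1 this

/-- The commutator with a `p`-th power. -/
theorem comm_pow {A : Type*} [Ring A] [Algebra k A] (p : ℕ) [Fact p.Prime] [CharP k p] {L : Type*}
    [AddCommGroup L] [Module k L] (ρ : L →ₗ[k] A) (a : A) (D : Module.End k L)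
    (h : ∀ x, ρ (D x) = a * ρ x - ρ x * a) (x : L) :
    ρ ((D ^ p) x) = a ^ p * ρ x - ρ x * a ^ p := by
  rcases subsingleton_or_nontrivial A with hA | hA
  · exact Subsingleton.elim _ _
  let T : Module.End k A := LinearMap.mulLeft k a - LinearMap.mulRight k a
  have h1 : ∀ n x, ρ ((D ^ n) x) = (T ^ n) (ρ x) := by
    intro n
    induction n with
    | zero => intro x; rfl
    | succ n ih =>
      intro x
      rw [pow_succ, pow_succ, Module.End.mul_apply, Module.End.mul_apply, ih, h]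
      rfl
  have hch : CharP (Module.End k A) p :=
    charP_of_injective_algebraMap (algebraMap k (Module.End k A)).injective p
  have h3 : T ^ p = LinearMap.mulLeft k (a ^ p) - LinearMap.mulRight k (a ^ p) := by
    have hc : Commute (LinearMap.mulLeft k a) (LinearMap.mulRight k a) :=
      LinearMap.commute_mulLeft_right (R := k) a a
    rw [sub_pow_char_of_commute p hc, LinearMap.pow_mulLeft, LinearMap.pow_mulRight]
  rw [h1, h3]
  rfl

end par

section rep

universe v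

variable {k L₀ L₁ : Type*} [Field k] [AddCommGroup L₀] [Module k L₀] [AddCommGroup L₁]
  [Module k L₁] {g : LieSuper k L₀ L₁} {V : Type*} [AddCommGroup V] [Module k V]
  {m n : Type v} [Fintype m] [Fintype n] [DecidableEq m] [DecidableEq n]

/-- The letters of a module with a parity operator. -/
noncomputable def gV (M : SuperModule g V) (σ : Module.End k V) (b₀ : Basis m k L₀) (b₁ : Basis n k L₁) :
    Unit ⊕ (m ⊕ n) → Module.End k V :=
  Sum.elim (fun _ => σ) (Sum.elim (fun i => M.ρ₀ (b₀ i)) (fun i => M.ρ₁ (b₁ i)))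

theorem exists_repRel [IsAlgClosed k] [FiniteDimensional k V] (p : ℕ) [Fact p.Prime] [CharP k p]
    (h2 : (2 : k) ≠ 0) (M : SuperModule g V) (hM : M.IsIrreducible) {σ : Module.End k V}
    (h0 : ∀ v ∈ M.V₀, σ v = v) (h1 : ∀ v ∈ M.V₁, σ v = -v) (b₀ : Basis m k L₀)
    (b₁ : Basis n k L₁) (P : m → L₀)
    (hP0 : ∀ i x, g.b00 (P i) x = ((g.b00 (b₀ i)) ^ p) x)
    (hP1 : ∀ i y, g.b01 (P i) y = ((g.b01 (b₀ i)) ^ p) y) :
    ∃ ζ : m → k, RepRel g b₀ b₁ p P (K := k) ζ (gV M σ b₀ b₁) := by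
  classical
  have hz : ∀ i, ∃ c : k, M.ρ₀ (b₀ i) ^ p - M.ρ₀ (P i) = c • (1 : Module.End k V) := by
    intro i
    refine irr_scalar h2 M hM h0 h1 _ ?_ ?_ ?_
    · intro x
      have h3 := comm_pow p M.ρ₀ (M.ρ₀ (b₀ i)) (g.b00 (b₀ i)) (fun x => M.map00 _ _) x
      rw [← hP0, M.map00] at h3
      rw [sub_mul, mul_sub]
      linear_combination (norm := abel) -h3
    · intro y
      have h3 := comm_pow p M.ρ₁ (M.ρ₀ (b₀ i)) (g.b01 (b₀ i)) (fun y => M.map01 _ _) y
      rw [← hP1, M.map01] at h3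
      rw [sub_mul, mul_sub]
      linear_combination (norm := abel) -h3
    · have h3 : Commute (M.ρ₀ (b₀ i)) σ := (par_even M h0 h1 (b₀ i)).symm
      have h4 : Commute (M.ρ₀ (P i)) σ := (par_even M h0 h1 (P i)).symm
      exact ((h3.pow_left p).sub_left h4)
  choose ζ hζ using hz
  refine ⟨ζ, ?_, ?_, ?_, ?_, ?_⟩
  · exact par_sq M h0 h1
  · intro i
    exact par_even M h0 h1 _
  · intro i
    exact par_odd M h0 h1 _
  · intro x y
    let R : (L₀ × L₁) →ₗ[k] Module.End k V := M.ρ₀.coprod M.ρ₁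
    have hR : ∀ z, R ((b₀.prod b₁) z) = gV M σ b₀ b₁ (Sum.inr z) := by
      rintro (z | z) <;> simp [R, gV]
    have h3 : ∑ z, algebraMap k k ((b₀.prod b₁).repr (sbr g ((b₀.prod b₁) x) ((b₀.prod b₁) y)) z) •
        gV M σ b₀ b₁ (Sum.inr z) = R (sbr g ((b₀.prod b₁) x) ((b₀.prod b₁) y)) := by
      conv_rhs => rw [← (b₀.prod b₁).sum_repr (sbr g ((b₀.prod b₁) x) ((b₀.prod b₁) y))]
      rw [map_sum]
      refine Finset.sum_congr rfl fun z _ => ?_
      rw [map_smul, hR]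
      rfl
    rw [h3]
    rcases x with x | x <;> rcases y with y | y
    · simp [R, gV, sbr_apply, PBW.eps, parZ, M.map00]
    · simp [R, gV, sbr_apply, PBW.eps, parZ, M.map01]
    · simp [R, gV, sbr_apply, PBW.eps, parZ, M.map01]
    · simp [R, gV, sbr_apply, PBW.eps, parZ, M.map11]
  · intro i
    have h3 : ∑ z, algebraMap k k (b₀.repr (P i) z) • gV M σ b₀ b₁ (Sum.inr (Sum.inl z)) =
        M.ρ₀ (P i) := by
      conv_rhs => rw [← b₀.sum_repr (P i)]
      rw [map_sum]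
      refine Finset.sum_congr rfl fun z _ => ?_
      rw [map_smul]
      rfl
    rw [h3, ← hζ i]
    show M.ρ₀ (b₀ i) ^ p = _
    abel

end rep

end Pool.Agent.Helper56.SKU
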