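import Mathlib
import Pool.Agent.Helper56.SKU.RepV
import Pool.Agent.Helper56.SKU.Gen

/-!
# The upper bound
-/

namespace Pool.Agent.Helper56.SKU

open Module Pool.Agent.Helper56.SKW Polynomial

universe u

section tools

theorem cop_map {k A B : Type*} [Field k] [Ring A] [Algebra k A] [Ring B] [Algebra k B]
    {s q o r : ℕ} (T : A →ₐ[k] B) (f : Lt s q o r → A) (ca : Fin s → k)
    (cu : Fin q → k) (ch : Fin r → k) (cs : k) :
    T (cop f ca cu ch cs) = cop (fun x => T (f x)) ca cu ch cs := by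
  unfold cop
  simp only [map_add, map_sum, map_smul, map_mul]

theorem exists_artin {k : Type*} [Field k] [IsAlgClosed k] (p : ℕ) (hp : 1 < p) (c : k) :
    ∃ x : k, x ^ p - x = c := by
  have hdeg : (X ^ p - (X + C c) : k[X]).degree = p := by
    rw [degree_sub_eq_left_of_degree_lt, degree_X_pow]
    rw [degree_X_pow, degree_X_add_C]
    exact_mod_cast hp
  obtain ⟨x, hx⟩ := IsAlgClosed.exists_root (X ^ p - (X + C c) : k[X]) (by
    rw [hdeg]
    exact_mod_cast (by omega : p ≠ 0))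
  refine ⟨x, ?_⟩
  simp only [IsRoot.def, eval_sub, eval_pow, eval_X, eval_add, eval_C] at hx
  linear_combination hx

theorem pwf_words {S A X : Type*} [Fintype X] [CommRing S] [Ring A] [Algebra S A] {f G : X → A}
    (h : ∀ x, G x ∈ Submodule.span S (Set.range (pwf f))) (l : List X) :
    pwf G l ∈ Submodule.span S (Set.range (pwf f)) := by
  induction l with
  | nil => exact Submodule.subset_span ⟨[], rfl⟩
  | cons x l ih =>
    rw [pwf_cons]
    exact words_mul f (h x) ih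

end tools

section field

variable (k : Type u) [Field k]

/-- An algebraically closed field with a transcendental element. -/
abbrev KK : Type u := AlgebraicClosure (RatFunc k)

/-- The transcendental element. -/
noncomputable def etaK : KK k := algebraMap (RatFunc k) (KK k) RatFunc.X

theorem etaK_ne : etaK k ≠ 0 := by
  unfold etaK
  rw [Ne, map_eq_zero_iff _ (algebraMap (RatFunc k) (KK k)).injective]
  exact RatFunc.X_ne_zero

theorem aevalK_inj : Function.Injective (aeval (etaK k) : k[X] →ₐ[k] KK k) := by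
  have h1 : ∀ q : k[X], (aeval (etaK k) : k[X] →ₐ[k] KK k) q =
      algebraMap (RatFunc k) (KK k) (algebraMap k[X] (RatFunc k) q) := by
    intro q
    have h2 : (aeval (etaK k) : k[X] →ₐ[k] KK k).toRingHom =
        (algebraMap (RatFunc k) (KK k)).comp (algebraMap k[X] (RatFunc k)) := by
      apply Polynomial.ringHom_ext
      · intro a
        show (aeval (etaK k) : k[X] →ₐ[k] KK k) (C a) = _
        rw [aeval_C, RingHom.comp_apply, RatFunc.algebraMap_C,
          IsScalarTower.algebraMap_apply k (RatFunc k) (KK k)]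
        rfl
      · show (aeval (etaK k) : k[X] →ₐ[k] KK k) X = _
        rw [aeval_X, RingHom.comp_apply, RatFunc.algebraMap_X]
        rfl
    exact congrArg (fun f : k[X] →+* KK k => f q) h2
  intro a b hab
  rw [h1, h1] at hab
  exact RatFunc.algebraMap_injective k ((algebraMap (RatFunc k) (KK k)).injective hab)

end field

section generic

variable {k L₀ L₁ : Type*} [Field k] [AddCommGroup L₀] [Module k L₀] [AddCommGroup L₁]
  [Module k L₁] {r s q o : ℕ} {g : LieSuper k L₀ L₁} {b₀ : Basis (Fin r ⊕ (Fin s ⊕ Fin s)) k L₀}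
  {b₁ : Basis (Fin q ⊕ (Fin q ⊕ Fin o)) k L₁}

theorem PR_hE (θ ξ : L₀ →ₗ[k] k) (P : Fin r ⊕ (Fin s ⊕ Fin s) → L₀)
    (χ : Fin r ⊕ (Fin s ⊕ Fin s) → k) (p : ℕ) (x y) : IsUnit ((PR g b₀ b₁ θ ξ P χ p).E x y) :=
  sgn2_unit x y

theorem PR_hn (θ ξ : L₀ →ₗ[k] k) (P : Fin r ⊕ (Fin s ⊕ Fin s) → L₀)
    (χ : Fin r ⊕ (Fin s ⊕ Fin s) → k) (p : ℕ) (hp : 2 ≤ p) (x) :
    2 ≤ (PR g b₀ b₁ θ ξ P χ p).n x := nL_ge p hp x

theorem prod_nL (p : ℕ) : ∏ x : Lt s q o r, nL p x = p ^ (r + (s + s)) * 2 ^ (q + (q + o) + 1) := by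
  rw [Fintype.prod_sum_type, Fintype.prod_sum_type]
  have h1 : ∀ x : Fin r ⊕ (Fin s ⊕ Fin s), nL p (Sum.inr (Sum.inl x) : Lt s q o r) = p := by
    intro x; simp [nL, od]
  have h2 : ∀ x : Fin q ⊕ (Fin q ⊕ Fin o), nL p (Sum.inr (Sum.inr x) : Lt s q o r) = 2 := by
    intro x; simp [nL, od]
  have h3 : ∀ x : Unit, nL p (Sum.inl x : Lt s q o r) = 2 := by
    intro x; simp [nL, od]
  simp only [h1, h2, h3, Finset.prod_const, Finset.card_univ, Fintype.card_sum, Fintype.card_fin,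
    Fintype.card_unit]
  ring

end generic

section flat

variable {k : Type u} {L₀ L₁ : Type*} [Field k] [AddCommGroup L₀] [Module k L₀] [AddCommGroup L₁]
  [Module k L₁] {r s q o : ℕ} {g : LieSuper k L₀ L₁} {b₀ : Basis (Fin r ⊕ (Fin s ⊕ Fin s)) k L₀}
  {b₁ : Basis (Fin q ⊕ (Fin q ⊕ Fin o)) k L₁}

/-- Flatness of the deformation. -/
theorem PR_flat {θ ξ : L₀ →ₗ[k] k} {p : ℕ} [hp : Fact p.Prime] [CharP k p]
    (h2 : (2 : k) ≠ 0) {w : Fin r → Lt s q o r → k}
    (h : NF g θ p b₀ b₁ w) {P : Fin r ⊕ (Fin s ⊕ Fin s) → L₀}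
    (hP0 : ∀ i x, g.b00 (P i) x = ((g.b00 (b₀ i)) ^ p) x)
    (hP1 : ∀ i y, g.b01 (P i) y = ((g.b01 (b₀ i)) ^ p) y)
    (hPj : ∀ j, P (Sum.inl j) = b₀ (Sum.inl j)) (χ : Fin r ⊕ (Fin s ⊕ Fin s) → k) :
    @IsFlat _ _ _ _ (PR g b₀ b₁ θ ξ P χ p) ordLt (PR_hE θ ξ P χ p)
      (PR_hn θ ξ P χ p hp.out.two_le) := by
  classical
  let _ : LinearOrder (Lt s q o r) := ordLt
  have hch : CharP (KK k) p := charP_of_injective_algebraMap (algebraMap k (KK k)).injective p
  let lam := lamK θ ξ (etaK k)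
  let ζ : Fin r ⊕ (Fin s ⊕ Fin s) → KK k := Sum.elim (fun j => lam (b₀ (Sum.inl j)) ^ p -
    lam (b₀ (Sum.inl j))) (fun a => lam (b₀ (Sum.inr a)) ^ p + algebraMap k (KK k) (χ (Sum.inr a)))
  obtain ⟨M, _, _, G, m0, hfin, hrank, hG, hsp⟩ := exists_plus (K := KK k) h2 g b₀ b₁ p P hP0 hP1 ζ
  have hrel := isRel_of_rep (ξ := ξ) (χ := χ) h2 h (etaK_ne k) hG hPj (fun j => rfl) (fun a => rfl)
  refine isFlat_of_real _ _ (K := KK k) (M := M) _ (aevalK_inj k) _ hrel m0 ?_ ?_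
  · intro x
    have h3 : ∀ l, pwf G l ∈ Submodule.span (KK k) (Set.range
        (pwf (shf b₀ b₁ (lamK θ ξ (etaK k)) (etaK k) G))) := by
      refine pwf_words ?_
      rintro (⟨⟩ | z)
      · exact Submodule.subset_span ⟨[Sum.inl ()], by simp [pwf, shf]⟩
      · have h4 : G (Sum.inr z) = (etaK k ^ wt (Sum.inr z : Lt s q o r))⁻¹ •
            shf b₀ b₁ (lamK θ ξ (etaK k)) (etaK k) G (Sum.inr z) +
            lamK θ ξ (etaK k) ((b₀.prod b₁) z).1 • 1 := by
          simp only [shf]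
          rw [inv_smul_smul₀ (pow_ne_zero _ (etaK_ne k))]
          abel
        rw [h4]
        refine Submodule.add_mem _ (Submodule.smul_mem _ _ (Submodule.subset_span
          ⟨[Sum.inr z], by simp [pwf]⟩)) (Submodule.smul_mem _ _ (Submodule.subset_span ⟨[], rfl⟩))
    refine (Submodule.span_le.2 ?_) (hsp x)
    rintro _ ⟨l, rfl⟩
    have h5 : Submodule.span (KK k) (Set.range
        (pwf (shf b₀ b₁ (lamK θ ξ (etaK k)) (etaK k) G))) ≤
        (Submodule.span (KK k) (Set.range fun l =>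
          pwf (shf b₀ b₁ (lamK θ ξ (etaK k)) (etaK k) G) l m0)).comap (LinearMap.applyₗ m0) := by
      rw [Submodule.span_le]
      rintro _ ⟨l, rfl⟩
      exact Submodule.subset_span ⟨l, rfl⟩
    exact h5 (h3 l)
  · rw [hrank]
    show _ = ∏ x, nL p x
    rw [prod_nL]
    simp only [Fintype.card_sum, Fintype.card_fin]

theorem wtSym_map {F : Type*} [Field F] {p : ℕ} {w : Fin r → Lt s q o r → k}
    (h : WtSym p w) (ψ : k[X] →+* F) : WtSym p (fun j x => ψ (C (w j x))) := by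
  refine ⟨?_, ?_, ?_, ?_, ?_, ?_⟩
  · intro j
    have := h.sg j
    rw [this]; simp
  · intro j j'
    have := h.hh j j'
    rw [this]; simp
  · intro j i
    have := h.aa j i
    rw [this]; simp
  · intro j i
    have := h.ul j i
    rw [this]; simp
  · intro j i
    have := h.yl j i
    rw [this]; simp
  · intro j x
    rw [← map_pow, ← map_pow, h.pp]

/-- The counting operator in the universal algebra. -/
noncomputable def copE (P : Pres k[X] (Lt s q o r)) (ca : Fin s → k)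
    (cu : Fin q → k) (ch : Fin r → k) (cs : k) : EU P :=
  ∑ i, (C (ca i) : k[X]) • (gE P (bb i) * gE P (aa i)) +
    ∑ l, (C (cu l) : k[X]) • (gE P (vv l) * gE P (ul l)) +
    ∑ j, (C (ch j) : k[X]) • gE P (hh j) + (C cs : k[X]) • gE P sg

theorem liftE_copE (P : Pres k[X] (Lt s q o r)) {A : Type*} [Ring A] [Algebra k A]
    {f : Lt s q o r → A} (h : IsRel P (evalRingHom (0 : k)) f) (ca : Fin s → k)
    (cu : Fin q → k) (ch : Fin r → k) (cs : k) :
    liftE h (copE P ca cu ch cs) = cop f ca cu ch cs := by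
  unfold copE cop
  simp only [map_add, map_sum, liftE_smul, map_mul, liftE_gE, coe_evalRingHom, eval_C]

/-- The generic structure of the deformation. -/
theorem PR_decomp [IsAlgClosed k] {θ ξ : L₀ →ₗ[k] k} {p : ℕ} [hp : Fact p.Prime] [CharP k p]
    (hp2 : 2 < p) (h2 : (2 : k) ≠ 0) {w : Fin r → Lt s q o r → k}
    (h : NF g θ p b₀ b₁ w) {P : Fin r ⊕ (Fin s ⊕ Fin s) → L₀}
    (hP0 : ∀ i x, g.b00 (P i) x = ((g.b00 (b₀ i)) ^ p) x)
    (hP1 : ∀ i y, g.b01 (P i) y = ((g.b01 (b₀ i)) ^ p) y)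
    (hPj : ∀ j, P (Sum.inl j) = b₀ (Sum.inl j)) (χ : Fin r ⊕ (Fin s ⊕ Fin s) → k) :
    ∃ (t : ℕ) (T : EU (PR g b₀ b₁ θ ξ P χ p) →+* (Fin t → Matrix (Fin (p ^ s * 2 ^ (q + o)))
      (Fin (p ^ s * 2 ^ (q + o))) (KK k))), Function.Injective T := by
  classical
  let _ : LinearOrder (Lt s q o r) := ordLt
  have hfl := PR_flat (ξ := ξ) h2 h hP0 hP1 hPj χ
  refine flat_decomp _ (aevalK_inj k) _ hfl (p ^ s * 2 ^ (q + o)) ?_ ?_
  · intro F _ ψ hψ V _ _ _ f hf W hW
    obtain ⟨im, him⟩ := IsAlgClosed.exists_pow_nat_eq (-1 : k) (n := 2) (by norm_num)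
    have hchF : CharP F p := charP_of_injective_ringHom (f := ψ.comp C) (ψ.comp C).injective p
    have h2F : (2 : F) ≠ 0 := by
      intro h0
      apply h2
      apply (ψ.comp C).injective
      rw [map_zero, map_ofNat, h0]
    refine lim_dvd p h2F (ψ (C im)) ?_ h.ho (lim0_of_rel hp2 h ψ hψ hf) W hW
    rw [← pow_two, ← map_pow, ← map_pow, him]
    simp
  · intro V _ _ _ f hf e e0 he
    have hinf : Infinite k := IsAlgClosed.instInfinite
    have hlim := lim0_of_rel hp2 h (evalRingHom (0 : k)) (by simp) hf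
    have hsym := wtSym_map h.sym (evalRingHom (0 : k))
    obtain ⟨ca, cu, ch, cs, Z, hZc, hZ⟩ := exists_labels hlim hsym h2
      (fun μ τ hμ hτ => exists_v0 hlim hsym h2 hp2 e e0 he μ τ hμ hτ)
    refine ⟨copE _ ca cu ch cs, Z, ?_, ?_⟩
    · show ∏ x : Lt s q o r, nL p x ≤ _
      rw [prod_nL, hZc]
      apply le_of_eq
      ring
    · intro z hz
      obtain ⟨v, hv0, hv⟩ := hZ z hz
      exact ⟨v, hv0, by rw [liftE_copE]; exact hv⟩

end flat

section upper

variable {k : Type u} {L₀ L₁ : Type*} [Field k] [AddCommGroup L₀] [Module k L₀] [AddCommGroup L₁]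
  [Module k L₁] {r s q o : ℕ} {g : LieSuper k L₀ L₁} {b₀ : Basis (Fin r ⊕ (Fin s ⊕ Fin s)) k L₀}
  {b₁ : Basis (Fin q ⊕ (Fin q ⊕ Fin o)) k L₁}

theorem upper_nf [IsAlgClosed k] {θ : L₀ →ₗ[k] k} {p : ℕ} [hp : Fact p.Prime] [CharP k p]
    (hp2 : 2 < p) (h2 : (2 : k) ≠ 0) {w : Fin r → Lt s q o r → k}
    (h : NF g θ p b₀ b₁ w)
    (hres : ∀ x, ∃ x', g.b00 x' = (g.b00 x) ^ p ∧ g.b01 x' = (g.b01 x) ^ p)
    {V : Type*} [AddCommGroup V] [Module k V] [FiniteDimensional k V] (M : SuperModule g V)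
    (hM : M.IsIrreducible) : finrank k V ≤ p ^ s * 2 ^ (q + o) := by
  classical
  have hnt := hM.1
  choose pm hpm0 hpm1 using hres
  let P : Fin r ⊕ (Fin s ⊕ Fin s) → L₀ :=
    Sum.elim (fun j => b₀ (Sum.inl j)) (fun a => pm (b₀ (Sum.inr a)))
  have hP0 : ∀ i x, g.b00 (P i) x = ((g.b00 (b₀ i)) ^ p) x := by
    rintro (j | a) x
    · simp only [P, Sum.elim_inl, h.h00]
    · simp only [P, Sum.elim_inr, hpm0]
  have hP1 : ∀ i x, g.b01 (P i) x = ((g.b01 (b₀ i)) ^ p) x := by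
    rintro (j | a) x
    · simp only [P, Sum.elim_inl, h.h01]
    · simp only [P, Sum.elim_inr, hpm1]
  obtain ⟨σ, hσ0, hσ1⟩ := exists_parity M
  obtain ⟨ζ, hζ⟩ := exists_repRel p h2 M hM hσ0 hσ1 b₀ b₁ P hP0 hP1
  choose ξ0 hξ0 using fun j => exists_artin p (by omega) (ζ (Sum.inl j))
  let ξ : L₀ →ₗ[k] k := b₀.constr k (Sum.elim ξ0 (fun _ => 0))
  let χ : Fin r ⊕ (Fin s ⊕ Fin s) → k := ζ
  have hlam : ∀ x, lamK θ ξ (1 : k) x = ξ x := by
    intro x
    rw [lamK_apply]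
    simp
  have hξj : ∀ j, ξ (b₀ (Sum.inl j)) = ξ0 j := fun j => by
    simp only [ξ, Basis.constr_basis, Sum.elim_inl]
  have hξa : ∀ a, ξ (b₀ (Sum.inr a)) = 0 := fun a => by
    simp only [ξ, Basis.constr_basis, Sum.elim_inr]
  have hrel := isRel_of_rep (ξ := ξ) (χ := χ) (η := (1 : k)) h2 h one_ne_zero hζ (fun j => rfl)
    (fun j => by rw [hlam, hξj, hξ0])
    (fun a => by
      rw [hlam, hξa, zero_pow hp.out.ne_zero, zero_add]
      rfl)
  obtain ⟨t, T, hT⟩ := PR_decomp (ξ := ξ) hp2 h2 h hP0 hP1 (fun j => rfl) χ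
  refine finrank_le_of_embed T hT (liftE hrel) ?_
  intro z
  let A : Subalgebra k (Module.End k V) :=
    { carrier := Set.range (liftE hrel)
      mul_mem' := by
        rintro _ _ ⟨a, rfl⟩ ⟨b, rfl⟩
        exact ⟨a * b, map_mul _ _ _⟩
      one_mem' := ⟨1, map_one _⟩
      add_mem' := by
        rintro _ _ ⟨a, rfl⟩ ⟨b, rfl⟩
        exact ⟨a + b, map_add _ _ _⟩
      zero_mem' := ⟨0, map_zero _⟩
      algebraMap_mem' := by
        intro c
        refine ⟨(C c : k[X]) • 1, ?_⟩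
        rw [liftE_smul, map_one, Algebra.algebraMap_eq_smul_one]
        simp }
  have hgA : ∀ x, shf b₀ b₁ (lamK θ ξ (1 : k)) 1 (gV M σ b₀ b₁) x ∈ A := fun x =>
    ⟨gE _ x, liftE_gE hrel x⟩
  have hGA : ∀ x, gV M σ b₀ b₁ x ∈ A := by
    rintro (⟨⟩ | x)
    · exact hgA (Sum.inl ())
    · have h3 := hgA (Sum.inr x)
      have h4 : gV M σ b₀ b₁ (Sum.inr x) =
          shf b₀ b₁ (lamK θ ξ (1 : k)) 1 (gV M σ b₀ b₁) (Sum.inr x) +
            lamK θ ξ (1 : k) ((b₀.prod b₁) x).1 • (1 : Module.End k V) := by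
        simp [shf]
      rw [h4]
      exact A.add_mem h3 (A.smul_mem A.one_mem _)
  have hρ0 : ∀ x, M.ρ₀ x ∈ A := by
    intro x
    have h3 : (⊤ : Submodule k L₀) ≤ A.toSubmodule.comap M.ρ₀ := by
      rw [← b₀.span_eq, Submodule.span_le]
      rintro _ ⟨i, rfl⟩
      exact hGA (Sum.inr (Sum.inl i))
    exact h3 (x := x) trivial
  have hρ1 : ∀ y, M.ρ₁ y ∈ A := by
    intro y
    have h3 : (⊤ : Submodule k L₁) ≤ A.toSubmodule.comap M.ρ₁ := by
      rw [← b₁.span_eq, Submodule.span_le]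
      rintro _ ⟨i, rfl⟩
      exact hGA (Sum.inr (Sum.inr i))
    exact h3 (x := y) trivial
  exact burnside A (fun W hW => irr_stable h2 M hM hσ0 hσ1 W (fun x v hv => hW _ (hρ0 x) v hv)
    (fun y v hv => hW _ (hρ1 y) v hv) (fun v hv => hW _ (hGA (Sum.inl ())) v hv)) z

/-- **The upper bound.** -/
theorem upper_main [IsAlgClosed k] [FiniteDimensional k L₀] [FiniteDimensional k L₁] (p : ℕ)
    [hp : Fact p.Prime] [CharP k p] (hp2 : 2 < p) (g : LieSuper k L₀ L₁) (θ : L₀ →ₗ[k] k)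
    (hres : ∀ x, ∃ x', g.b00 x' = (g.b00 x) ^ p ∧ g.b01 x' = (g.b01 x) ^ p)
    (hab : ∀ h ∈ LinearMap.ker (form₀ g θ), ∀ h' ∈ LinearMap.ker (form₀ g θ), g.b00 h h' = 0)
    (htor : LinearMap.ker (form₀ g θ) ≤ Submodule.span k {h | h ∈ LinearMap.ker (form₀ g θ) ∧
      (g.b00 h) ^ p = g.b00 h ∧ (g.b01 h) ^ p = g.b01 h})
    (hodd : LinearMap.ker (form₁ g θ) = ⊥)
    {V : Type*} [AddCommGroup V] [Module k V] [FiniteDimensional k V] (M : SuperModule g V)
    (hM : M.IsIrreducible) :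
    finrank k V ≤ p ^ (bEven g θ / 2) * 2 ^ ((bOdd g θ + 1) / 2) := by
  have h2 : (2 : k) ≠ 0 := by
    intro h0
    have h1 : ((2 : ℕ) : k) = 0 := by exact_mod_cast h0
    rw [CharP.cast_eq_zero_iff k p] at h1
    have := Nat.le_of_dvd (by norm_num) h1
    omega
  obtain ⟨r, s, q, o, b₀, b₁, w, hNF, he, ho⟩ := exists_nf p h2 g θ hab htor hodd
  have h3 := upper_nf hp2 h2 hNF hres M hM
  have h4 : bEven g θ / 2 = s := by omega
  have h5 : (bOdd g θ + 1) / 2 = q + o := by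
    have := hNF.ho
    omega
  rw [h4, h5]
  exact h3

end upper

end Pool.Agent.Helper56.SKU
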